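import Pool.Agent.Work.MP_8f87b2_h13.TyR3
import Pool.Agent.Work.MP_8f87b2_h20.S5Ty

/-!
# MP_8f87b2_co: words of the right c = 3 windows against the links of type S5
-/

set_option autoImplicit false
set_option linter.all false

namespace Pool.OddHC

open Finset Equiv BinaryTree Pool.Agent.Work.MP_8f87b2_co HM

variable {k : ℕ} {F F' : Set (Cyc k)} {g g' : DG k} {R B S U : BinaryTree Unit}

theorem HM.NodeM.a0dR {q : ℕ} (h : NodeM k q R B S) : A0D q R B S where
  hv := h.part
  memw := h.memw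
  top := h.top
  eq := h.eq
  hS := h.dat.htS

/-- the components of the right words, `c = 3` -/
def rl (R B S : BinaryTree Unit) : ℕ → List (BinaryTree Unit)
  | 0 => comps R ++ [pc 2]
  | 1 => comps R ++ [.nil, .nil, .nil]
  | 2 => .nil :: (comps R ++ [.nil, .nil])
  | 3 => [app R (.nil △ pc 1)]
  | 4 => lp 2 :: comps R
  | 5 => pc 1 :: .nil :: comps R
  | 6 => [R, pc 1]
  | 7 => [.nil, .nil △ R]
  | 8 => [.nil, .nil, R]
  | 9 => [R △ .nil, .nil]
  | 10 => comps B ++ (pc 2 :: comps S)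
  | 11 => comps B ++ (.nil :: .nil :: .nil :: comps S)
  | 12 => S :: (comps B ++ [.nil, .nil])
  | 13 => comps S ++ [app B (.nil △ pc 1)]
  | 14 => (.nil △ (.nil △ S)) :: comps B
  | 15 => pc 1 :: S :: comps B
  | 16 => comps S ++ [B, pc 1]
  | 17 => [.nil, S △ B]
  | 18 => .nil :: .nil :: (comps S ++ [B])
  | _ => [app S (B △ .nil), .nil]

theorem comps_rl {i : ℕ} (hi : i < 20) : comps (H1.W R (pc 1) B S i) = rl R B S i := by
  interval_cases i <;> simp [H1.W, rl, comps_node, comps_app, comps, pc, lp, app] <;> rfl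

/-- all components heavy -/
theorem Hv.all {d : ℕ} {Y : BinaryTree Unit} (h : Hv d Y) : ∀ x ∈ comps Y, lo d x = 0 := by
  induction Y with
  | nil => intro x hx; exact absurd hx (by simp [comps])
  | node _ A C _ ih =>
    intro x hx
    rw [comps_node, List.mem_cons] at hx
    rcases hx with rfl | hx
    · exact h.fs (by simp)
    · exact ih h.tl x hx

/-- number of beads on the lowest level -/
def nb0 (l : List (BinaryTree Unit)) : ℕ := l.countP H1.isNil

theorem nb0_cons (a : BinaryTree Unit) (l : List (BinaryTree Unit)) :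
    nb0 (a :: l) = nb0 l + if H1.isNil a = true then 1 else 0 := by
  rw [nb0, nb0, List.countP_cons]

theorem nb0_app (l m : List (BinaryTree Unit)) : nb0 (l ++ m) = nb0 l + nb0 m := by
  rw [nb0, nb0, nb0, List.countP_append]

theorem nb0_nil : nb0 [] = 0 := rfl

theorem nb0_hv {d : ℕ} {Y : BinaryTree Unit} (h : Hv d Y) : nb0 (comps Y) = 0 := by
  rw [nb0, List.countP_eq_zero]
  intro x hx
  have := lo_ne_nil (h.all x hx)
  rw [H1.isNil_iff]
  exact this

theorem nb0_rl (h : A0D 0 R B S) {i : ℕ} (hi : i < 20) : nb0 (rl R B S i) ≤ 3 := by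
  have hR := nb0_hv h.hv
  have hB := nb0_hv h.hvB
  have hS := nb0_hv h.hvS
  have hb : ∀ X : BinaryTree Unit, (if H1.isNil X = true then 1 else 0) ≤ 1 := fun X => by split <;> omega
  have h1 := hb R
  have h2 := hb B
  have h3 := hb S
  have h4 := hb (app R (.nil △ pc 1))
  have h5 := hb (app B (.nil △ pc 1))
  have h6 := hb (app S (B △ .nil))
  have n0 : ∀ X Y : BinaryTree Unit, H1.isNil (X △ Y) = false := fun _ _ => rfl
  have n1 : H1.isNil (.nil : BinaryTree Unit) = true := rfl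
  have n2 : H1.isNil (pc 1) = false := rfl
  have n3 : H1.isNil (pc 2) = false := rfl
  have n4 : H1.isNil (lp 2) = false := rfl
  interval_cases i <;> simp only [rl, nb0_cons, nb0_app, nb0_nil, hR, hB, hS, n0, n1, n2, n3, n4] <;>
    simp <;> omega

theorem nb0_lp (n : ℕ) : nb0 (comps (lp n)) = n := by
  rw [comps_lp, nb0, List.countP_replicate]
  simp [H1.isNil]

theorem cont_lpR (m : ℕ) : cont (lp m) = Multiset.replicate m 1 := by
  induction m with
  | zero => rfl
  | succ m ih =>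
    change cont (.nil △ lp m) = _
    rw [cont_node, cont_nil, raise_zero, ih, Multiset.replicate_succ]
    rfl

/-- a component with the inside `()^(n+2)` is not heavy -/
theorem lo_lp {d n : ℕ} : lo d (lp (n + 2)) ≠ 0 := by
  unfold lo
  have h3 : (1 : ℕ) ∈ raise (cont (lp (n + 2))) := by
    rw [cont_lpR]
    unfold raise
    have hs : (Multiset.replicate (n + 2) 1).sup = 1 := by
      apply le_antisymm
      · apply Multiset.sup_le.2
        intro x hx
        exact (Multiset.eq_of_mem_replicate hx).le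
      · apply Multiset.le_sup
        rw [Multiset.mem_replicate]
        omega
    rw [hs, Multiset.replicate_succ, Multiset.erase_cons_head, Multiset.replicate_succ]
    simp
  intro h
  rw [Multiset.card_eq_zero, Multiset.filter_eq_nil] at h
  exact h 1 h3 (by omega)

theorem Hv.ne_bd {d : ℕ} {Z : BinaryTree Unit} (h : Hv d Z) (Y : BinaryTree Unit) : Z ≠ .nil △ Y := by
  intro e
  have := h.fs (by rw [e]; simp)
  rw [e, fs_node, lo_nil] at this
  omega

theorem Hv.app_ne_bd {d : ℕ} {W : BinaryTree Unit} (h : Hv d W) (h0 : W ≠ .nil) (Y Z : BinaryTree Unit) :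
    OddHC.app W Z ≠ .nil △ Y := by
  intro e
  have h1 := h.fs h0
  rw [← fs_app h0 Z, e, fs_node, lo_nil] at h1
  omega

/-- `()^n`, `n ≥ 4`, is no component of a right word -/
theorem lp_not_mem (h : A0D 0 R B S) {i n : ℕ} (hi : i < 20) : lp (n + 4) ∉ rl R B S i := by
  have hm : ∀ {X : BinaryTree Unit}, Hv 0 X → lp (n + 4) ∉ comps X := by
    intro X hX hx
    exact lo_lp (hX.all _ hx)
  have mR := hm h.hv
  have mB := hm h.hvB
  have mS := hm h.hvS
  have fR := h.hv.ne_bd
  have fB := h.hvB.ne_bd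
  have fS := h.hvS.ne_bd
  have gR := h.hv.app_ne_bd h.R_ne
  have gS := h.hvS.app_ne_bd h.S_ne
  have sR := fun Y => (h.hv.ne_bd Y).symm
  have sB := fun Y => (h.hvB.ne_bd Y).symm
  have sS := fun Y => (h.hvS.ne_bd Y).symm
  have tR := fun Y Z => (h.hv.app_ne_bd h.R_ne Y Z).symm
  have tS := fun Y Z => (h.hvS.app_ne_bd h.S_ne Y Z).symm
  have R0 := h.R_ne
  have S0 := h.S_ne
  have e4 : lp (n + 4) = .nil △ (.nil △ (.nil △ (.nil △ lp n))) := rfl
  have e2 : lp 2 = .nil △ (.nil △ .nil) := rfl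
  have p1 : pc 1 = .nil △ .nil := rfl
  have p2 : pc 2 = (.nil △ .nil) △ .nil := rfl
  by_cases hB : B = .nil
  · subst hB
    interval_cases i <;> simp [rl, mR, mS] <;>
      simp [e4, e2, p1, p2, app, fR, fS, gR, gS, sR, sS, tR, tS, R0, S0, R0.symm, S0.symm, comps]
  · have gB := h.hvB.app_ne_bd hB
    have tB := fun Y Z => (h.hvB.app_ne_bd hB Y Z).symm
    interval_cases i <;> simp [rl, mR, mB, mS] <;>
      simp [e4, e2, p1, p2, app, fR, fB, fS, gR, gB, gS, sR, sB, sS, tR, tB, tS, R0, S0, R0.symm, S0.symm, hB]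

/-- the three words of `tri((), [s]()^n, (()))` -/
theorem rl_K22 (h : A0D 0 R B S) {i s n : ℕ} (hi : i < 20) (hs : 3 ≤ s) (hn : 2 ≤ n) :
    H1.W R (pc 1) B S i ≠ w1 (lp 1) (app (H1.ch s) (lp n)) (H1.ch 2) ∧
    H1.W R (pc 1) B S i ≠ w1 (app (H1.ch s) (lp n)) (H1.ch 2) (lp 1) ∧
    H1.W R (pc 1) B S i ≠ w1 (H1.ch 2) (lp 1) (app (H1.ch s) (lp n)) := by
  obtain ⟨⟨r, R1, R2, r', hr, hr', hr0, hr0'⟩, ⟨s0, S1, S2, s1, hs', hs1, hs0, hs0'⟩, hB⟩ := h.dat
  obtain ⟨n, rfl⟩ : ∃ m, n = m + 2 := ⟨n - 2, by omega⟩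
  obtain ⟨s, rfl⟩ : ∃ m, s = m + 3 := ⟨s - 3, by omega⟩
  have hr1 := lo_ne_nil hr0
  have hr1' := lo_ne_nil hr0'
  have hs2 := lo_ne_nil hs0
  have hs2' := lo_ne_nil hs0'
  have hr2 := lo_ne_pc hr0 (show 1 < 0 + 2 by omega)
  have hr2' := lo_ne_pc hr0' (show 1 < 0 + 2 by omega)
  have hs3 := lo_ne_pc hs0 (show 1 < 0 + 2 by omega)
  have hs3' := lo_ne_pc hs0' (show 1 < 0 + 2 by omega)
  have fR := h.hv.ne_bd
  have fS := h.hvS.ne_bd
  have R0 := h.R_ne
  have S0 := h.S_ne
  have e2 : lp 2 = .nil △ (.nil △ .nil) := rfl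
  have e1' : comps (lp 1) = [.nil] := rfl
  have e1'' : lp 1 = .nil △ .nil := rfl
  have p1 : pc 1 = .nil △ .nil := rfl
  have p2 : pc 2 = (.nil △ .nil) △ .nil := rfl
  have c2 : H1.ch 2 = (.nil △ .nil) △ .nil := rfl
  have c3 : comps (H1.ch 2) = [.nil △ .nil] := rfl
  have c4 : comps (H1.ch (s + 3)) = [(H1.ch (s + 1)) △ .nil] := rfl
  have c5 : comps (lp (n + 2)) = .nil :: .nil :: List.replicate n .nil := by
    rw [comps_lp]; rfl
  have c6 : (comps (lp (n + 2))).reverse = .nil :: .nil :: List.replicate n .nil := by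
    rw [comps_lp, List.reverse_replicate]; rfl
  have c7 : app (H1.ch (s + 3)) (lp (n + 2)) ≠ .nil := by
    change H1.ch (s + 2) △ _ ≠ _
    simp
  have c8 : ∀ Y : BinaryTree Unit, app Y (.nil △ (.nil △ .nil)) ≠ .nil := by
    intro Y
    cases Y <;> simp [app]
  rw [p1] at hr2 hr2' hs3 hs3'
  refine ⟨?_, ?_, ?_⟩
  · intro e
    have e3 := congrArg comps e
    rw [comps_rl hi, comps_w1, e1', c3] at e3
    have e4 := congrArg List.reverse e3
    rcases hB with hB | ⟨b, B1, B2, b', hBn, hb, hb', hb0, hb0'⟩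
    · subst hB
      interval_cases i <;>
        simp [rl, hr', hs1, comps, hr1', hs2', hr2', hs3', R0, S0, p1, p2, e2] at e4 <;>
        simp [rl, hr, hs', comps, hr1, hs2, hr2, hs3, c7, c7.symm, R0, S0, p1, p2, e2] at e3
    · have hb1 := lo_ne_nil hb0
      have hb1' := lo_ne_nil hb0'
      have hb2' := lo_ne_pc hb0' (show 1 < 0 + 2 by omega)
      rw [p1] at hb2'
      interval_cases i <;>
        simp [rl, hr', hs1, hb', comps, hr1', hs2', hr2', hs3', hb1', hb2', R0, S0, p1, p2, e2] at e4 <;>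
        simp [rl, hr, hs', hb, comps, hr1, hs2, hr2, hs3, hb1, c7, c7.symm, R0, S0, p1, p2, e2] at e3
  · intro e
    have e3 := congrArg comps e
    have e4 := congrArg List.reverse e3
    rw [comps_rl hi, comps_w1, comps_app, e1', c4, c5] at e3
    rw [comps_rl hi, comps_w1, comps_app, e1', c4] at e4
    rcases hB with hB | ⟨b, B1, B2, b', hBn, hb, hb', hb0, hb0'⟩
    · subst hB
      interval_cases i <;>
        simp [rl, hr', hs1, comps, hr1', hs2', R0, S0, p1, p2, c2, e2, c8] at e4 <;>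
        simp [rl, hr, hs', comps, hr1, hs2, R0, S0, p1, p2, c2, e2] at e3
    · have hb1 := lo_ne_nil hb0
      have hb1' := lo_ne_nil hb0'
      interval_cases i <;>
        simp [rl, hr', hs1, hb', comps, hr1', hs2', hb1', R0, S0, p1, p2, c2, e2, c8] at e4 <;>
        simp [rl, hr, hs', hb, comps, hr1, hs2, hb1, R0, S0, p1, p2, c2, e2] at e3
  · intro e
    have e3 := congrArg comps e
    rw [comps_rl hi, comps_w1, comps_app, c3, c4, c5, e1''] at e3
    rcases hB with hB | ⟨b, B1, B2, b', hBn, hb, hb', hb0, hb0'⟩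
    · subst hB
      interval_cases i <;>
        simp [rl, hr, hs', comps, hr1, hs2, hr2, hs3, fS, R0, S0, p1, p2, e2] at e3
    · have hb1 := lo_ne_nil hb0
      have hb2 := lo_ne_pc hb0 (show 1 < 0 + 2 by omega)
      rw [p1] at hb2
      interval_cases i <;>
        simp [rl, hr, hs', hb, comps, hr1, hs2, hr2, hs3, hb1, hb2, fS, R0, S0, p1, p2, e2] at e3

/-- a right word is no word of a triple, if it is not one of the three words -/
theorem tri_not {P Q T : BinaryTree Unit} (h : IsTri P Q T F g) {w : X k}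
    (h1 : w.1 ≠ w1 P Q T) (h2 : w.1 ≠ w1 Q T P) (h3 : w.1 ≠ w1 T P Q) : w ∉ g.B := by
  intro hw
  rcases h.words w hw with e | ⟨_, e | e⟩
  · exact h1 e
  · exact h2 e
  · exact h3 e

/-- **S5**: no word of a link S5 is a right word -/
theorem HM.NodeM.r_S5 (h : NodeM k 0 R B S) (w0 : X k) {i : ℕ} (hi : i < 20) (h' : TyS5 F' g') :
    H1.wX R B S 0 w0 i ∉ g'.B := by
  have ha := h.a0dR
  have hw : comps (H1.wX R B S 0 w0 i).1 = rl R B S i := by rw [h.rW w0 hi, comps_rl hi]
  have hn := nb0_rl ha hi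
  obtain ⟨s, n, hs, hn2, ht | ht | ht⟩ := h'
  · refine tri_not ht ?_ ?_ ?_ <;> intro e
    · rw [e, comps_w1] at hw
      rw [← hw, nb0_app, nb0_lp] at hn
      omega
    · rw [e, comps_w1] at hw
      rw [← hw, nb0_app, nb0_cons, nb0_lp] at hn
      omega
    · rw [e, comps_w1] at hw
      obtain ⟨m, rfl⟩ : ∃ m, n = m + 2 := ⟨n - 2, by omega⟩
      apply lp_not_mem ha hi (n := m)
      rw [← hw]
      simp
  · refine tri_not ht ?_ ?_ ?_ <;> intro e
    · rw [e, comps_w1] at hw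
      rw [← hw, nb0_app, nb0_cons, nb0_lp] at hn
      omega
    · rw [e, comps_w1] at hw
      obtain ⟨m, rfl⟩ : ∃ m, n = m + 2 := ⟨n - 2, by omega⟩
      apply lp_not_mem ha hi (n := m)
      rw [← hw]
      simp
    · rw [e, comps_w1] at hw
      rw [← hw, nb0_app, nb0_lp] at hn
      omega
  · obtain ⟨c1, c2, c3⟩ := rl_K22 ha hi hs hn2
    rw [← h.rW w0 hi] at c1 c2 c3
    exact tri_not ht c1 c2 c3

theorem dj_R3S5 : Dj (k := k) TyR3 TyS5 := by
  intro F g F' g' h h' _ w hw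
  obtain ⟨R, B, S, w0, i, h1, -, -, hi, rfl, -⟩ := h.words w hw
  exact h1.r_S5 w0 hi h'

theorem dj_S3S5 : Dj (k := k) TyS3 TyS5 := by
  intro F g F' g' h h' _ w hw
  obtain ⟨R, B, S, w0, i, h1, -, hi, -, rfl, -⟩ := h.words w hw
  exact h1.r_S5 w0 hi h'

end Pool.OddHC
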