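import Pool.Agent.Work.MP_8f87b2_h58.InA0
import Pool.Agent.Work.MP_8f87b2_h89.R3S

/-!
# MP_8f87b2_co: inner words of the right c = 3 windows (TyR3, TyS3) against Cr, Cl, S5

`TyR3.inner_Cr, inner_Cl, inner_Cl2, inner_Cr2, inner_S5`, the same for `TyS3` (conditions as for `TyA0`).
-/

set_option autoImplicit false
set_option linter.all false

namespace Pool.OddHC

open Finset Equiv BinaryTree Pool.Agent.Work.MP_8f87b2_co HM H1

variable {k : ℕ} {F F' : Set (Cyc k)} {g g' : DG k} {S : BinaryTree Unit} {c : ℕ}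

theorem innR_key {R B S : BinaryTree Unit} (h1 : NodeM k 0 R B S) (w0 : X k) {i : ℕ}
    (hi : i ∈ [0, 1, 3, 6, 8, 9]) (hm : cyc (H1.wX R B S 0 w0 0) ∈ F) :
    H1.InnP 3 (TT (H1.wX R B S 0 w0 i)).1 ∧
      (cyc (TT (H1.wX R B S 0 w0 i)) ∈ F ∨ H1.Sml 3 (TT (H1.wX R B S 0 w0 i)).1) := by
  refine ⟨(h1.inn w0 hi).1, ?_⟩
  by_cases h0 : i = 0
  · subst h0
    left
    have e1 : cyc (TT (H1.wX R B S 0 w0 0)) = cyc (H1.wX R B S 0 w0 0) := cyc_eq.2 ⟨-1, by simp⟩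
    rw [e1]
    exact hm
  · right
    refine (h1.sml w0 ?_).1
    simp only [List.mem_cons, List.not_mem_nil, or_false] at hi ⊢
    omega

theorem TyR3.innpR (h : TyR3 F g) : ∀ p ∈ g.arcs, ∀ w ∈ innA p, H1.InnP 3 w.1 ∧
    (cyc w ∈ F ∨ H1.Sml 3 w.1) := by
  intro p hp w hw
  obtain ⟨R, B, S, w0, i, h1, -, -, hi, e, hm⟩ := h.inn p hp
  have hw' : w = TT p.1 := hw
  rw [e] at hw'
  subst hw'
  exact innR_key h1 w0 hi hm

theorem TyS3.innpR (h : TyS3 F g) : ∀ p ∈ g.arcs, ∀ w ∈ innA p, H1.InnP 3 w.1 ∧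
    (cyc w ∈ F ∨ H1.Sml 3 w.1) := by
  intro p hp w hw
  obtain ⟨R, B, S, w0, i, h1, -, hi, e, hm⟩ := h.inn p hp
  have hw' : w = TT p.1 := hw
  rw [e] at hw'
  subst hw'
  refine innR_key h1 w0 ?_ hm
  simp only [List.mem_cons, List.not_mem_nil, or_false] at hi ⊢
  omega

/-- **Cr** -/
theorem TyR3.inner_Cr (h : TyR3 F g) (h' : TyC c S F' g') (hc : 1 ≤ c) (hv : H1.vb 0 S)
    (hp : ∀ x ∈ cont S, x = 1 ∨ c + 1 ≤ x) (hS : c + 1 ≤ OddHC.ht S) (hd : ∀ c ∈ F, c ∉ F')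
    (hh : ∀ c ∈ F, ∀ d ∈ F', htc c ≤ htc d) : ∀ p ∈ g.arcs, ∀ w ∈ innA p, w ∉ g'.B := by
  intro p hp' w hw
  obtain ⟨h2, h3 | h3⟩ := h.innpR p hp' w hw
  · exact IsTri.not_of_cyc h' h3 hd hh
  · exact h2.not_C h3 h' hc hv hp hS

/-- **Cl** -/
theorem TyR3.inner_Cl (h : TyR3 F g) (h' : TyC' c S F' g') (hc : 1 ≤ c) (hv : H1.vb 0 S)
    (hp : ∀ x ∈ cont S, x = 1 ∨ c + 1 ≤ x) (hS : c + 1 ≤ OddHC.ht S) (hd : ∀ c ∈ F, c ∉ F')
    (hh : ∀ c ∈ F, ∀ d ∈ F', htc c ≤ htc d) : ∀ p ∈ g.arcs, ∀ w ∈ innA p, w ∉ g'.B := by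
  intro p hp' w hw
  obtain ⟨h2, h3 | h3⟩ := h.innpR p hp' w hw
  · exact IsTri.not_of_cyc h' h3 hd hh
  · exact h2.not_C' h3 h' hc hv hp hS

/-- **Cl**, `c = 2`, `S` ends light (`.. 1 0^n`, `n ≤ 2`) -/
theorem TyR3.inner_Cl2 (h : TyR3 F g) (h' : TyC' 2 S F' g') {n : ℕ} {v : List Bool} (hn : n ≤ 2)
    (hS : wd S = v ++ true :: List.replicate n false) : ∀ p ∈ g.arcs, ∀ w ∈ innA p, w ∉ g'.B := by
  intro p hp w hw
  exact (h.innpR p hp w hw).1.not_Cl2 h' hn hS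

/-- **Cr**, `c = 2`, `S` starts light (`1^n 0 ..`, `n ≤ 2`) -/
theorem TyR3.inner_Cr2 (h : TyR3 F g) (h' : TyC 2 S F' g') {n : ℕ} {v : List Bool} (hn : n ≤ 2)
    (hS : wd S = List.replicate n true ++ false :: v) : ∀ p ∈ g.arcs, ∀ w ∈ innA p, w ∉ g'.B := by
  intro p hp w hw
  exact (h.innpR p hp w hw).1.not_Cr2 h' hn hS

/-- **Cr** -/
theorem TyS3.inner_Cr (h : TyS3 F g) (h' : TyC c S F' g') (hc : 1 ≤ c) (hv : H1.vb 0 S)
    (hp : ∀ x ∈ cont S, x = 1 ∨ c + 1 ≤ x) (hS : c + 1 ≤ OddHC.ht S) (hd : ∀ c ∈ F, c ∉ F')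
    (hh : ∀ c ∈ F, ∀ d ∈ F', htc c ≤ htc d) : ∀ p ∈ g.arcs, ∀ w ∈ innA p, w ∉ g'.B := by
  intro p hp' w hw
  obtain ⟨h2, h3 | h3⟩ := h.innpR p hp' w hw
  · exact IsTri.not_of_cyc h' h3 hd hh
  · exact h2.not_C h3 h' hc hv hp hS

/-- **Cl** -/
theorem TyS3.inner_Cl (h : TyS3 F g) (h' : TyC' c S F' g') (hc : 1 ≤ c) (hv : H1.vb 0 S)
    (hp : ∀ x ∈ cont S, x = 1 ∨ c + 1 ≤ x) (hS : c + 1 ≤ OddHC.ht S) (hd : ∀ c ∈ F, c ∉ F')
    (hh : ∀ c ∈ F, ∀ d ∈ F', htc c ≤ htc d) : ∀ p ∈ g.arcs, ∀ w ∈ innA p, w ∉ g'.B := by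
  intro p hp' w hw
  obtain ⟨h2, h3 | h3⟩ := h.innpR p hp' w hw
  · exact IsTri.not_of_cyc h' h3 hd hh
  · exact h2.not_C' h3 h' hc hv hp hS

/-- **Cl**, `c = 2`, `S` ends light (`.. 1 0^n`, `n ≤ 2`) -/
theorem TyS3.inner_Cl2 (h : TyS3 F g) (h' : TyC' 2 S F' g') {n : ℕ} {v : List Bool} (hn : n ≤ 2)
    (hS : wd S = v ++ true :: List.replicate n false) : ∀ p ∈ g.arcs, ∀ w ∈ innA p, w ∉ g'.B := by
  intro p hp w hw
  exact (h.innpR p hp w hw).1.not_Cl2 h' hn hS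

/-- **Cr**, `c = 2`, `S` starts light (`1^n 0 ..`, `n ≤ 2`) -/
theorem TyS3.inner_Cr2 (h : TyS3 F g) (h' : TyC 2 S F' g') {n : ℕ} {v : List Bool} (hn : n ≤ 2)
    (hS : wd S = List.replicate n true ++ false :: v) : ∀ p ∈ g.arcs, ∀ w ∈ innA p, w ∉ g'.B := by
  intro p hp w hw
  exact (h.innpR p hp w hw).1.not_Cr2 h' hn hS

theorem lp_snocR (n : ℕ) : lp (n + 1) = app (lp n) (.nil △ .nil) := by
  induction n with
  | zero => rfl
  | succ n ih =>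
    change .nil △ lp (n + 1) = .nil △ app (lp n) (.nil △ .nil)
    rw [ih]

/-- **S5** -/
theorem H1.InnP.not_S5R {g0 : ℕ} {w : X k} (h : H1.InnP g0 w.1) (h' : TyS5 F' g') : w ∉ g'.B := by
  have g3 := h.g3
  obtain ⟨s, n, hs, hn, ht | ht | ht⟩ := h'
  · refine tri_not ht ?_ ?_ ?_ <;> intro e
    · exact h.not_first (Y := app (lp (n + 1)) (H1.ch s △ .nil)) e
    · apply h.not_last (Y := app (H1.ch s) (.nil △ lp (n + 1)))
      rw [e, w1, lp_snocR, app_assoc]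
      rfl
    · have h1 := h.start (n := 2) (v := wd (lp (n + 1)) ++ false :: wd (H1.ch s)) (by
        rw [e]
        change wd ((.nil △ lp (n + 1)) △ H1.ch s) = _
        rw [wd_node, wd_node]
        simp [wd])
      omega
  · refine tri_not ht ?_ ?_ ?_ <;> intro e
    · apply h.not_last (Y := H1.ch s △ lp (n + 1))
      rw [e]
      change H1.ch s △ lp (n + 1 + 1) = _
      rw [lp_snocR]
      rfl
    · have h1 := h.stop (n := 2) (v := wd (H1.ch s) ++ true :: wd (lp (n + 1))) (by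
        rw [e, w1, lp_snocR, wd_app, wd_node, wd_app, wd_node]
        simp [wd])
      omega
    · exact h.not_first (Y := app (lp (n + 1)) (.nil △ H1.ch s)) e
  · refine tri_not ht ?_ ?_ ?_ <;> intro e
    · exact h.not_first (Y := app (H1.ch s) (lp n) △ H1.ch 2) e
    · apply h.not_last (Y := app (app (H1.ch s) (lp n)) (H1.ch 2 △ .nil))
      rw [e, w1]
      simp only [app_assoc]
      rfl
    · have h1 := h.start (n := 2) (v := false :: wd (lp 1 △ app (H1.ch s) (lp n))) (by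
        rw [e]
        change wd ((.nil △ .nil) △ (lp 1 △ app (H1.ch s) (lp n))) = _
        rw [wd_node, wd_node]
        simp [wd])
      omega

theorem TyR3.inner_S5 (h : TyR3 F g) (h' : TyS5 F' g') : ∀ p ∈ g.arcs, ∀ w ∈ innA p, w ∉ g'.B := by
  intro p hp w hw
  exact (h.innpR p hp w hw).1.not_S5R h'

theorem TyS3.inner_S5 (h : TyS3 F g) (h' : TyS5 F' g') : ∀ p ∈ g.arcs, ∀ w ∈ innA p, w ∉ g'.B := by
  intro p hp w hw
  exact (h.innpR p hp w hw).1.not_S5R h'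

end Pool.OddHC
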