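import Pool.Agent.Work.MP_8f87b2_h60.A0A

/-!
# MP_8f87b2_co: words of the bead free windows in RIGHT orientation against the words of the H1 windows (A)

`W_Wr`: no common word of `W R (ch (q+1)) B S` (`Adm`) and `W R' (ch (q'+1)) B' S'` (`Bare`), if no marker `P` of the
window is `Q'()X`, `X` heavy.
-/

set_option autoImplicit false
set_option linter.all false

namespace Pool.OddHC

namespace HM

open BinaryTree Equiv H1

variable {k q q' : ℕ} {R B S R' B' S' : BinaryTree Unit}

/-- the right words without a marker -/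
theorem am_Wr (h : Bare R B S) {j : ℕ} (hj : j < 20)
    (hx : ¬ (j = 7 ∨ (j = 13 ∧ 1 ≤ q ∧ B = .nil) ∨ (j = 14 ∧ q ≤ 1))) :
    am (W R (ch (q + 1)) B S j) = false := by
  have aR := hv_am h.hR
  have aB := hv_am h.hB
  have aS := hv_am h.hS
  have pR := hv_PB h.hR
  have pB := hv_PB h.hB
  have pS := hv_PB h.hS
  have aQ := am_ch (q + 1)
  have pQ := PB_ch (q + 1)
  have aQ2 : am (ch (q + 1) △ .nil) = false := am_ch (q + 2)
  have pQ2 : PB (ch (q + 1) △ .nil) = false := PB_ch (q + 2)
  have lR := hv_light h.hR h.R0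
  have lS := hv_light h.hS h.S0
  have hPapp : ∀ {X : BinaryTree Unit} (Y : BinaryTree Unit), hv X → X ≠ .nil → PB (app X Y) = false := by
    intro X Y hX hX0
    cases X with
    | nil => exact absurd rfl hX0
    | node _ A Z =>
      change (light A && _) = false
      rw [gd_light hX.1]
      rfl
  interval_cases j
  · simp [W, am_node, am_app, mk_eq, aQ2, pQ2, aR, am_nil]
  · simp [W, am_node, am_app, mk_eq, aQ, aR, PB_nil, am_nil]
  · simp [W, am_node, am_app, mk_eq, aQ, aR, PB_nil, am_nil]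
  · have e1 := hPapp (.nil △ ch (q + 1)) h.hR h.R0
    simp [W, am_node, am_app, mk_eq, aQ, aR, e1, PB_nil, am_nil]
  · have e1 : PB (app (ch (q + 1)) (.nil △ .nil)) = false := by
      change (light (ch q) && (!isNil (.nil △ .nil) && !lastB (.nil △ .nil))) = false
      simp [lastB, isNil]
    simp [W, am_node, am_app, mk_eq, aQ, aR, e1, PB_nil, am_nil]
  · simp [W, am_node, am_app, mk_eq, aR, PB_nil, am_nil, aQ, pQ]
  · simp [W, am_node, am_app, mk_eq, aR, pR, am_nil, aQ, pQ]
  · exact absurd (Or.inl rfl) hx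
  · simp [W, am_node, am_app, mk_eq, aR, pR, am_nil, aQ, PB_nil]
  · have e1 : PB (R △ .nil) = false := by
      rw [PB, lR]
      rfl
    simp [W, am_node, am_app, mk_eq, aR, pR, e1, am_nil, aQ]
  · simp [W, am_node, am_app, mk_eq, aB, aS, aQ2, pQ2]
  · simp [W, am_node, am_app, mk_eq, aB, aS, aQ, PB_nil, am_nil]
  · simp [W, am_node, am_app, mk_eq, aB, aS, pS, aQ, PB_nil, am_nil]
  · by_cases hB0 : B = .nil
    · have hq : q = 0 := by
        by_contra hq
        exact hx (Or.inr (Or.inl ⟨rfl, by omega, hB0⟩))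
      subst hq hB0
      simp [W, am_node, am_app, mk_eq, aS, PB, am, app, ch, lastB, light, isNil]
    · have e1 := hPapp (.nil △ ch (q + 1)) h.hB hB0
      simp [W, am_node, am_app, mk_eq, aB, aS, aQ, e1, PB_nil, am_nil]
  · have e1 : PB (app (ch (q + 1)) (.nil △ S)) = false := by
      change (light (ch q) && (!isNil (.nil △ S) && !lastB (.nil △ S))) = false
      have hq : 2 ≤ q := by
        by_contra hq
        exact hx (Or.inr (Or.inr ⟨rfl, by omega⟩))
      rw [light_ch q hq]
      rfl
    simp [W, am_node, am_app, mk_eq, aB, aS, aQ, e1, PB_nil, am_nil]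
  · simp [W, am_node, am_app, mk_eq, aB, aS, pS, aQ, pQ, am_nil]
  · simp [W, am_node, am_app, mk_eq, aB, aS, pB, aQ, pQ, am_nil]
  · have e1 : PB (S △ B) = false := by
      rw [PB, lS]
      rfl
    simp [W, am_node, am_app, mk_eq, aB, aS, pS, aQ, e1, am_nil]
  · simp [W, am_node, am_app, mk_eq, aB, aS, pB, aQ, PB_nil, am_nil]
  · have e1 := hPapp (B △ .nil) h.hS h.S0
    simp [W, am_node, am_app, mk_eq, aB, aS, pB, aQ, e1, am_nil]

/-- the decomposition of the right words at the first marked component -/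
theorem split_Wr (h : Bare R B S) {j : ℕ} (hj : j < 20) :
    am (split (W R (ch (q + 1)) B S j)).2.1 = false ∧
    ((split (W R (ch (q + 1)) B S j)).2.1 = .nil ∨
    (split (W R (ch (q + 1)) B S j)).1 = ch (q + 1) ∧ (split (W R (ch (q + 1)) B S j)).2.2 = .nil ∨
    (split (W R (ch (q + 1)) B S j)).1 = S ∧ (split (W R (ch (q + 1)) B S j)).2.2 = .nil ∨
    (q ≤ 1 ∧ split (W R (ch (q + 1)) B S j) = (.nil, app (ch (q + 1)) (.nil △ S), B))) := by
  by_cases hx : ¬ (j = 7 ∨ (j = 13 ∧ 1 ≤ q ∧ B = .nil) ∨ (j = 14 ∧ q ≤ 1))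
  · have h1 := split_none (am_Wr h hj hx)
    rw [h1]
    exact ⟨rfl, Or.inl rfl⟩
  · rw [not_not] at hx
    have aR := hv_am h.hR
    have aB := hv_am h.hB
    have aS := hv_am h.hS
    have aQ := am_ch (q + 1)
    rcases hx with rfl | ⟨rfl, hq, hB⟩ | ⟨rfl, hq⟩
    · have e1 : PB (.nil △ R) = true := by
        change (light .nil && (!isNil R && !lastB R)) = true
        rw [hv_last h.hR, isNil_f.2 h.R0]
        rfl
      have e2 : am (.nil △ R) = false := by
        simp [am_node, mk_eq, aR, PB_nil, am_nil]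
      have e3 : split (W R (ch (q + 1)) B S 7) = (ch (q + 1), .nil △ R, .nil) :=
        split_app aQ (mk_of_PB e1)
      rw [e3]
      exact ⟨e2, Or.inr (Or.inl ⟨rfl, rfl⟩)⟩
    · subst hB
      have e1 : PB (.nil △ ch (q + 1)) = true := by
        change (light .nil && (!isNil (ch (q + 1)) && !lastB (ch (q + 1)))) = true
        rw [lastB_ch q hq]
        rfl
      have e2 : am (.nil △ ch (q + 1)) = false := by
        simp [am_node, mk_eq, aQ, PB_nil, am_nil]
      have e3 : split (W R (ch (q + 1)) .nil S 13) = (S, .nil △ ch (q + 1), .nil) :=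
        split_app aS (mk_of_PB e1)
      rw [e3]
      exact ⟨e2, Or.inr (Or.inr (Or.inl ⟨rfl, rfl⟩))⟩
    · have e1 : PB (app (ch (q + 1)) (.nil △ S)) = true := by
        have h1 : light (ch q) = true := by interval_cases q <;> rfl
        change (light (ch q) && (!isNil (.nil △ S) && !lastB (.nil △ S))) = true
        rw [h1, lastB_cons h.S0, hv_last h.hS]
        rfl
      have e2 : am (app (ch (q + 1)) (.nil △ S)) = false := by
        simp [am_node, am_app, mk_eq, aS, aQ, PB_nil, am_nil]
      have e3 : split (W R (ch (q + 1)) B S 14) = (.nil, app (ch (q + 1)) (.nil △ S), B) :=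
        split_node_t (mk_of_PB e1)
      rw [e3]
      exact ⟨e2, Or.inr (Or.inr (Or.inr ⟨hq, rfl⟩))⟩

/-- **no common word** of a window and a bead free absorber in right orientation -/
theorem W_Wr (h : Adm (q + 1) R B S) (h' : Bare R' B' S')
    (hx : ∀ X Y : BinaryTree Unit, hv X → X ≠ .nil → q' ≤ 1 →
      R ≠ (app (ch (q' + 1)) (.nil △ X)) △ Y)
    {i j : ℕ} (hi : i < 20) (hj : j < 20) :
    W R (ch (q + 1)) B S i ≠ W R' (ch (q' + 1)) B' S' j := by
  intro e
  obtain ⟨a0, a1⟩ := split_Wr (q := q') h' hj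
  rw [← e] at a0
  obtain ⟨B1, P, p, s, b1, b2, b3, b4, b5⟩ := split_W h hi a0
  rw [← e, b4] at a1
  have x1 : x4 (ch (q' + 1)) = false := by
    cases q' <;> simp [ch, x4, lastB, len]
  have x2 : x4 ((app (ch (q + 1)) (.nil △ .nil)) △ B1) = true := by
    simp [ch, x4, lastB, len, app, isNil]
  rcases a1 with a1 | ⟨a1, a2⟩ | ⟨a1, a2⟩ | ⟨a1, a3⟩
  · change P = .nil at a1
    rw [a1] at b2
    exact absurd b2 (by simp [PB_nil])
  · change p = ch (q' + 1) at a1
    change s = .nil at a2
    subst a1 a2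
    rcases b5 with b5 | b5 | b5 | b5 | b5
    · exact b5.2 rfl
    · exact b5.2.1 rfl
    · exact b5.2 rfl
    · rw [b5, x2] at x1
      exact absurd x1 (by simp)
    · rw [ch_succ] at b5
      simp at b5
  · change p = S' at a1
    change s = .nil at a2
    subst a1 a2
    rcases b5 with b5 | b5 | b5 | b5 | b5
    · exact b5.2 rfl
    · exact b5.2.1 rfl
    · exact b5.2 rfl
    · have := hv_x4 h'.hS
      rw [b5, x2] at this
      exact absurd this (by simp)
    · have := hv_sb h'.hS
      rw [b5] at this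
      exact absurd this (by simp [sb, fb, isNil])
  · simp only [Prod.mk.injEq] at a3
    obtain ⟨c1, c2, c3⟩ := a3
    subst c1 c3
    rcases b5 with ⟨c5, c6⟩ | ⟨_, _, c5⟩ | b5 | b5 | b5
    · rw [← c5, c2] at b3
      exact hx S' B h'.hS h'.S0 a1 b3
    · rw [hv_last h'.hB] at c5
      exact absurd c5 (by simp)
    · exact b5.1 rfl
    · simp at b5
    · simp at b5

theorem NodeM.a0rA (h : NodeM k q R B S) : A0D q R B S where
  hv := h.part
  memw := h.memw
  top := h.top
  eq := h.eq
  hS := h.dat.htS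

theorem NodeM.bareR (h : NodeM k q R B S) : Bare R B S where
  hR := hv_Hv h.a0rA.hv
  R0 := h.ne
  hB := hv_Hv h.a0rA.hvB
  hS := hv_Hv h.a0rA.hvS
  S0 := h.a0rA.S_ne

/-- **right A0 against A** -/
theorem NodeM.disjGr {B1 H s : BinaryTree Unit} (h' : NodeM k q' R' B' S')
    (h : NodeG k q B1 H s B) (hH : Hok q' H s) (w0 w0' : X k) {i j : ℕ} (hi : i < 20) (hj : j < 20) :
    gX q B1 H s B w0 i ≠ wX R' B' S' q' w0' j := by
  intro e
  have e1 := congrArg Subtype.val e
  rw [h.word w0 hi, wX_eq h'.dat h'.size w0' hj] at e1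
  refine W_Wr h.adm h'.bareR ?_ hi hj e1
  intro X Y hX X0 hq e2
  unfold gR at e2
  have hB1 := h.h1
  cases B1 with
  | nil =>
    exact hH hq X hX X0 (node_inj e2).1
  | node _ A C =>
    have e3 : A = app (ch (q' + 1)) (.nil △ X) := (node_inj e2).1
    rcases hB1.1 with e4 | ⟨_, e4⟩
    · rw [e4] at e3
      have := congrArg len e3
      rw [ch_succ] at this
      simp [len, app] at this
    · rw [e3] at e4
      have := hv_sb e4
      rw [ch_succ] at this
      simp [sb, fb, isNil, app] at this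

end HM

end Pool.OddHC
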