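import Pool.Agent.Work.MP_8f87b2_h3.A0T2
import Pool.Agent.Work.MP_8f87b2_h13.TyR3
import Pool.Agent.Work.MP_8f87b2_h89.R3A

/-!
# MP_8f87b2_co: the right c = 3 windows (TyR3, TyS3) against the windows of height 3 (T), words and inner words

`dj_TR3`, `dj_TS3`, `TyT.inner_R3`, `TyT.inner_S3`, `TyR3.inner_T`, `TyS3.inner_T`.
-/

set_option autoImplicit false
set_option linter.all false

namespace Pool.OddHC

open BinaryTree Multiset Equiv Pool.Agent.Work.MP_8f87b2_co HM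

variable {k : ℕ}

namespace H1

variable {b m a : ℕ}

/-- the right words with `()(())` -/
theorem p12_Wr {R B S : BinaryTree Unit} (h : Bare R B S) {j : ℕ} (hj : j < 20)
    (hp : p12 (W R (ch 1) B S j) = true) : j = 16 ∧ B = .nil := by
  have aR := fun X => p12_hv X h.hR
  have aB := fun X => p12_hv X h.hB
  have aS := fun X => p12_hv X h.hS
  have bR := p12_hv0 h.hR
  have bB := p12_hv0 h.hB
  have bS := p12_hv0 h.hS
  have cR := fun X => hd12_hv X h.hR h.R0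
  have cS := fun X => hd12_hv X h.hS h.S0
  have dR := hd12_hv0 h.hR
  have dB := hd12_hv0 h.hB
  have dS := hd12_hv0 h.hS
  have eR := isNil_f.2 h.R0
  have eS := isNil_f.2 h.S0
  have iR := is1_gd (hv_gd h.hR h.R0)
  have iS := is1_gd (hv_gd h.hS h.S0)
  have lRn : ∀ Y, isNil (app R Y) = false := fun Y => isNil_f.2 (app_ne' h.R0)
  have lSn : ∀ Y, isNil (app S Y) = false := fun Y => isNil_f.2 (app_ne' h.S0)
  have kn : ∀ A X : BinaryTree Unit, isNil (A △ X) = false := fun A X => rfl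
  have k1 : ∀ A X : BinaryTree Unit, is1 (A △ X) = (isNil A && isNil X) := fun A X => rfl
  have k0 : isNil (BinaryTree.nil : BinaryTree Unit) = true := rfl
  have k2 : is1 (BinaryTree.nil : BinaryTree Unit) = false := rfl
  have k3 : hd12 (BinaryTree.nil : BinaryTree Unit) = false := rfl
  have k4 : p12 (BinaryTree.nil : BinaryTree Unit) = false := rfl
  by_cases hB0 : B = .nil
  · subst hB0
    interval_cases j <;>
      simp [W, ch, app, p12_node, hd12_node, aR, aS, bR, bS, cR, cS, dR, dS, eR, eS, iR, iS,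
        lRn, lSn, kn, k1, k0, k2, k3, k4] at hp ⊢
  · have eB := isNil_f.2 hB0
    have cB := fun X => hd12_hv X h.hB hB0
    have iB := is1_gd (hv_gd h.hB hB0)
    have lBn : ∀ Y, isNil (app B Y) = false := fun Y => isNil_f.2 (app_ne' hB0)
    interval_cases j <;>
      simp [W, ch, app, p12_node, hd12_node, aR, aB, aS, bR, bB, bS, cR, cB, cS, dR, dB, dS, eR, eB, eS, iR, iB, iS,
        lRn, lSn, lBn, kn, k1, k0, k2, k3, k4] at hp ⊢

/-- **no common word** -/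
theorem w3_ne_Wr {R B S : BinaryTree Unit} (hm : 1 ≤ m) (ha : 1 ≤ a) (h : Bare R B S)
    (ht : 3 < OddHC.ht S) {i j : ℕ} (hi : i < 20) (hj : j < 20) :
    w3 b m a i ≠ W R (ch 1) B S j := by
  intro e
  have hp := p12_w3 (b := b) hm ha hi
  rw [e] at hp
  obtain ⟨rfl, rfl⟩ := p12_Wr h hj hp
  exact t3_R12 hm ha h.hS ht hi e

/-- **right A0 (c = 3) against T** -/
theorem NodeT.ne_r3 {R B S : BinaryTree Unit} (h1 : NodeM k 0 R B S) (h2 : NodeT k b m a)
    (w0 w0' : X k) {i j : ℕ} (hi : i < 20) (hj : j < 20) : tX b m a w0' i ≠ wX R B S 0 w0 j := by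
  intro e
  have e1 := congrArg Subtype.val e
  rw [h2.word w0' hi, wX_eq h1.dat h1.size w0 hj] at e1
  have ht := h1.top
  have hs := h1.dat.htS
  exact w3_ne_Wr h2.mpos h2.pos h1.bareR (by omega) hi hj e1

theorem Y3_ne_Wr {R B S : BinaryTree Unit} (hm : 1 ≤ m) (h : Bare R B S)
    (ht : 3 < OddHC.ht R) {i j : ℕ} (hj : j < 20) : t3Y b m a i ≠ W R (ch 1) B S j := by
  intro e
  obtain ⟨X, hX⟩ := F3_two hm
  have e1 := congrArg t3hd e
  rw [Y3_hd, hX] at e1
  have hB : ∀ Y Z : BinaryTree Unit, (B ≠ .nil → t3hd (app B Y) ≠ .nil △ (.nil △ Z)) := by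
    intro Y Z h0 e2
    have := hv_hd h.hB h0 Y
    exact gd_ne_two this e2
  have hR : ∀ Y Z : BinaryTree Unit, t3hd (app R Y) ≠ .nil △ (.nil △ Z) := by
    intro Y Z e2
    exact gd_ne_two (hv_hd h.hR h.R0 Y) e2
  have hS : ∀ Y Z : BinaryTree Unit, t3hd (app S Y) ≠ .nil △ (.nil △ Z) := by
    intro Y Z e2
    exact gd_ne_two (hv_hd h.hS h.S0 Y) e2
  interval_cases j
  · exact hR _ _ e1.symm
  · exact hR _ _ e1.symm
  · exact absurd e1 (by simp [W, t3hd])
  · exact hv_app_ne_two h.hR h.R0 e1.symm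
  · have e2 : t3Y b m a i = (app (ch 1) (.nil △ .nil)) △ R := e
    rw [Y3_eq] at e2
    have e3 := (node_inj e2).2
    have h1 := h.hR
    rw [← e3, hv_app, hv_app] at h1
    have h2 := ht_Z3 i h1.2
    have h3 : OddHC.ht R ≤ 3 := by
      rw [← e3, OddHC.ht_app, OddHC.ht_app]
      have g1 := ht_th b
      have g2 : OddHC.ht (lv2 a .nil) ≤ 2 := by
        rw [← H1.ht_eq]
        exact bl_ht (bl_H a 0)
      omega
    omega
  · exact absurd e1 (by simp [W, t3hd, ch])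
  · exact hv_ne_two h.hR e1.symm
  · exact absurd e1 (by simp [W, t3hd, ch, app])
  · exact absurd e1 (by simp [W, t3hd, ch, app])
  · exact absurd (node_inj e1).1.symm h.R0
  · by_cases h0 : B = .nil
    · subst h0
      exact absurd e1 (by simp [W, t3hd, ch, app])
    · exact hB _ _ h0 e1.symm
  · by_cases h0 : B = .nil
    · subst h0
      exact absurd e1 (by simp [W, t3hd, ch, app])
    · exact hB _ _ h0 e1.symm
  · exact hv_ne_two h.hS e1.symm
  · exact hS _ _ e1.symm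
  · have e2 : t3Y b m a i = (.nil △ (.nil △ S)) △ B := e
    rw [Y3_eq] at e2
    have e3 := (node_inj e2).1
    obtain ⟨m, rfl⟩ : ∃ m', m = m' + 1 := ⟨m - 1, by omega⟩
    unfold t3F at e3
    cases m with
    | zero =>
      have e4 : (BinaryTree.nil : BinaryTree Unit) = S := (node_inj (node_inj e3).2).2
      exact h.S0 e4.symm
    | succ m =>
      have e4 : app (lv m .nil) (.nil △ .nil) = S := (node_inj (node_inj e3).2).2
      have h5 := h.hS
      rw [← e4] at h5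
      cases m with
      | zero => exact gd_ne h5.1 rfl
      | succ m => exact gd_ne h5.1 rfl
  · exact absurd e1 (by simp [W, t3hd, ch])
  · exact hS _ _ e1.symm
  · exact absurd e1 (by simp [W, t3hd, ch, app])
  · exact absurd e1 (by simp [W, t3hd, ch, app])
  · exact hv_app_ne_two h.hS h.S0 e1.symm

end H1

/-- **T - R3: no common word** -/
theorem dj_TR3 : Dj (k := k) TyT TyR3 := by
  intro F g F' g' h h' _ w hw hw'
  obtain ⟨R, B, S, w0, j, h1, -, -, hj, rfl, -⟩ := h'.words w hw'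
  obtain ⟨b, m, a, w0', h2, rfl, rfl⟩ := h
  obtain ⟨i, hi, e⟩ := mem_gad20.1 hw
  exact H1.NodeT.ne_r3 h1 h2 w0 w0' hi hj e

/-- **T - S3: no common word** -/
theorem dj_TS3 : Dj (k := k) TyT TyS3 := by
  intro F g F' g' h h' _ w hw hw'
  obtain ⟨R, B, S, w0, j, h1, -, hj, -, rfl, -⟩ := h'.words w hw'
  obtain ⟨b, m, a, w0', h2, rfl, rfl⟩ := h
  obtain ⟨i, hi, e⟩ := mem_gad20.1 hw
  exact H1.NodeT.ne_r3 h1 h2 w0 w0' hi hj e

/-- inner words of T in R3 -/
theorem TyT.inner_R3 {F F' : Set (Cyc k)} {g g' : DG k} (h : TyT F g) (h' : TyR3 F' g') :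
    ∀ p ∈ g.arcs, ∀ w ∈ innA p, w ∉ g'.B := by
  intro p hp w hw hw'
  obtain ⟨b, m, a, i, hm, e⟩ := h.innerm p hp w hw
  obtain ⟨R, B, S, w0, j, h1, -, -, hj, rfl, -⟩ := h'.words w hw'
  rw [H1.wX_eq h1.dat h1.size w0 hj] at e
  exact H1.Y3_ne_Wr hm h1.bareR h1.top hj e.symm

/-- inner words of T in S3 -/
theorem TyT.inner_S3 {F F' : Set (Cyc k)} {g g' : DG k} (h : TyT F g) (h' : TyS3 F' g') :
    ∀ p ∈ g.arcs, ∀ w ∈ innA p, w ∉ g'.B := by
  intro p hp w hw hw'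
  obtain ⟨b, m, a, i, hm, e⟩ := h.innerm p hp w hw
  obtain ⟨R, B, S, w0, j, h1, -, hj, -, rfl, -⟩ := h'.words w hw'
  rw [H1.wX_eq h1.dat h1.size w0 hj] at e
  exact H1.Y3_ne_Wr hm h1.bareR h1.top hj e.symm

theorem HM.NodeM.rht {R B S : BinaryTree Unit} (h : NodeM k 0 R B S) (w0 : X k) :
    htc (cyc (H1.wX R B S 0 w0 0)) = ht R := by
  rw [htc_cyc, ← ht_wX, h.ht012 w0 (Or.inl rfl)]

theorem TyR3.ht4 {F : Set (Cyc k)} {g : DG k} (h : TyR3 F g) : ∀ c ∈ F, 4 ≤ htc c := by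
  obtain ⟨R, B, S, w0, h1, hne, hR, hc, rfl, rfl⟩ := h
  rintro c rfl
  rw [h1.rht w0]
  exact h1.top

theorem TyS3.ht4 {F : Set (Cyc k)} {g : DG k} (h : TyS3 F g) : ∀ c ∈ F, 4 ≤ htc c := by
  have hg := h.htg
  obtain ⟨R, B, S, w0, h1, hne, h12, h18, hc, rfl, rfl⟩ := h
  intro c hc
  rw [hg c hc (cyc (H1.wX R B S 0 w0 0)) (Or.inl rfl), h1.rht w0]
  exact h1.top

/-- inner words of R3 in T: T is lower -/
theorem TyR3.inner_T {F F' : Set (Cyc k)} {g g' : DG k} (h : TyR3 F g) (h' : TyT F' g')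
    (hle : ∀ c ∈ F, ∀ d ∈ F', htc c ≤ htc d) : ∀ p ∈ g.arcs, ∀ w ∈ innA p, w ∉ g'.B := by
  exfalso
  have h4 := h.ht4
  have h3 := h'.ht3
  obtain ⟨R, B, S, w0, h1, hne, hR, hc, rfl, rfl⟩ := h
  obtain ⟨b, m, a, w0', h1', rfl, rfl⟩ := h'
  have e1 := h4 _ rfl
  have e2 := h3 _ rfl
  have e3 := hle _ rfl _ rfl
  omega

theorem TyS3.inner_T {F F' : Set (Cyc k)} {g g' : DG k} (h : TyS3 F g) (h' : TyT F' g')
    (hle : ∀ c ∈ F, ∀ d ∈ F', htc c ≤ htc d) : ∀ p ∈ g.arcs, ∀ w ∈ innA p, w ∉ g'.B := by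
  exfalso
  have h4 := h.ht4
  have h3 := h'.ht3
  obtain ⟨R, B, S, w0, h1, hne, h12, h18, hc, rfl, rfl⟩ := h
  obtain ⟨b, m, a, w0', h1', rfl, rfl⟩ := h'
  have e1 := h4 _ (Or.inl rfl)
  have e2 := h3 _ rfl
  have e3 := hle _ (Or.inl rfl) _ rfl
  omega

end Pool.OddHC
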