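import Pool.Agent.Work.MP_8f87b2_h89.RqW

/-!
# MP_8f87b2_co: the right windows TyRq q, TySq q, every q, against the windows of height 3 (T)
-/

set_option autoImplicit false
set_option linter.all false

namespace Pool.OddHC

open Finset Equiv BinaryTree Pool.Agent.Work.MP_8f87b2_co HM

variable {k : ℕ} {F F' : Set (Cyc k)} {g g' : DG k} {q : ℕ} {R B S U : BinaryTree Unit}

theorem ht_W_ge (R Q B S : BinaryTree Unit) {i : ℕ} (hi : i < 20) :
    min (ht R) (ht S) ≤ ht (H1.W R Q B S i) := by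
  interval_cases i <;> simp only [H1.W, ht_app, ht] <;> omega

theorem ht_w3_le {b m a i : ℕ} (hi : i < 20) (h9 : i ≠ 9) (h17 : i ≠ 17) (h19 : i ≠ 19) :
    ht (H1.w3 b m a i) ≤ 4 := by
  have h1 := H1.ht_R3 b m a
  have h2 := H1.ht_th b
  have h3 := H1.ht_L3 m a
  have h4 : ht (H1.S3 m a) ≤ 3 := by
    unfold H1.S3
    simp only [ht]
    omega
  unfold H1.w3
  interval_cases i <;> simp only [H1.W, H1.ch, ht_app, ht] <;> omega

/-- no right word, `q ≥ 1`, has two components one of which is a bead -/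
theorem rq_pair (hq : 1 ≤ q) (h : RqD q R B S) {i : ℕ} (hi : i < 20) (X : BinaryTree Unit) :
    rq q R B S i ≠ [X, .nil] ∧ rq q R B S i ≠ [.nil, X] := by
  obtain ⟨q, rfl⟩ : ∃ m, q = m + 1 := ⟨q - 1, by omega⟩
  obtain ⟨r, R1, hr, hr0⟩ := h.hR.cons h.R0
  obtain ⟨s0, S1, hs', hs0⟩ := h.hS.cons h.S0
  have hr1 := lo_ne_nil hr0
  have hs1 := lo_ne_nil hs0
  have R0 := h.R0
  have S0 := h.S0
  have p1 : ∀ n : ℕ, pc (n + 1) = pc n △ .nil := fun _ => rfl
  have p2 : ∀ n : ℕ, pc (n + 1 + 2) = (pc (n + 1) △ .nil) △ .nil := fun _ => rfl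
  have happ : ∀ P A Y : BinaryTree Unit, app P (A △ Y) ≠ .nil := fun P A Y => app_ne' (by simp)
  constructor
  · intro e
    have e4 := congrArg List.length e
    have e5 := congrArg List.reverse e
    by_cases hB : B = .nil
    · subst hB
      interval_cases i <;>
        simp [rq, hr, hs', comps, hr1, hs1, R0, S0, p1, p2, happ] at e e4 e5 <;> omega
    · obtain ⟨b, B1, hb, hb0⟩ := h.hB.cons hB
      have hb1 := lo_ne_nil hb0
      interval_cases i <;>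
        simp [rq, hr, hs', hb, comps, hr1, hs1, hb1, R0, S0, p1, p2, happ] at e e4 e5 <;> omega
  · intro e
    have e4 := congrArg List.length e
    by_cases hB : B = .nil
    · subst hB
      interval_cases i <;>
        simp [rq, hr, hs', comps, hr1, hs1, R0, S0, p1, p2, happ] at e e4
    · obtain ⟨b, B1, hb, hb0⟩ := h.hB.cons hB
      have hb1 := lo_ne_nil hb0
      interval_cases i <;>
        simp [rq, hr, hs', hb, comps, hr1, hs1, hb1, R0, S0, p1, p2, happ] at e e4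

/-- words of T and right words -/
theorem w3_ne_rq {b m a : ℕ} (hm : 1 ≤ m) (ha : 1 ≤ a) (h1 : NodeM k q R B S) {i j : ℕ}
    (hi : i < 20) (hj : j < 20) : H1.w3 b m a i ≠ H1.W R (pc (q + 1)) B S j := by
  rcases Nat.eq_zero_or_pos q with rfl | hq
  · have ht := h1.top
    have hs := h1.dat.htS
    have h2 : pc (0 + 1) = H1.ch 1 := by rw [H1.ch_eq]
    rw [h2]
    exact H1.w3_ne_Wr hm ha h1.bareR (by omega) hi hj
  · intro e
    have ha' := h1.rqd
    have h5 := ht_W_ge R (pc (q + 1)) B S hj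
    have h6 := ha'.top
    have h7 := ha'.topS
    have h8 : 5 ≤ ht (H1.w3 b m a i) := by
      rw [e]
      refine le_trans ?_ h5
      rw [le_min_iff]
      omega
    by_cases h9 : i = 9 ∨ i = 17 ∨ i = 19
    · have e2 := congrArg comps e
      rw [comps_rq hj] at e2
      obtain ⟨c1, -⟩ := rq_pair hq ha' hj ((H1.R3 b m a) △ .nil)
      obtain ⟨-, c2⟩ := rq_pair hq ha' hj ((H1.S3 m a) △ (H1.th b .nil))
      obtain ⟨c3, -⟩ := rq_pair hq ha' hj (app (H1.S3 m a) ((H1.th b .nil) △ .nil))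
      rcases h9 with rfl | rfl | rfl
      · exact c1 e2.symm
      · exact c2 e2.symm
      · exact c3 e2.symm
    · have := ht_w3_le (b := b) (m := m) (a := a) hi (fun hh => h9 (Or.inl hh))
        (fun hh => h9 (Or.inr (Or.inl hh))) (fun hh => h9 (Or.inr (Or.inr hh)))
      omega

/-- inner words of T and right words -/
theorem Y3_ne_rq {b m a : ℕ} (hm : 1 ≤ m) (h1 : NodeM k q R B S) {i j : ℕ}
    (hj : j < 20) : H1.t3Y b m a i ≠ H1.W R (pc (q + 1)) B S j := by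
  rcases Nat.eq_zero_or_pos q with rfl | hq
  · have h2 : pc (0 + 1) = H1.ch 1 := by rw [H1.ch_eq]
    rw [h2]
    exact H1.Y3_ne_Wr hm h1.bareR h1.top hj
  · intro e
    have e2 := congrArg comps e
    rw [comps_rq hj, H1.Y3_eq] at e2
    obtain ⟨X, hX⟩ := H1.F3_two hm
    rw [hX] at e2
    exact rq_two hq h1.rqd hj X (by rw [← e2]; simp [comps])

/-- **T - Rq: no common word** -/
theorem dj_TRq : Dj (k := k) TyT (TyRq q) := by
  intro F g F' g' h h' _ w hw hw'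
  obtain ⟨R, B, S, w0, h1, hne, rfl, rfl⟩ := h'
  obtain ⟨j, hj, rfl⟩ := mem_gad20.1 hw'
  obtain ⟨b, m, a, w0', h2, rfl, rfl⟩ := h
  obtain ⟨i, hi, e⟩ := mem_gad20.1 hw
  have e1 := congrArg Subtype.val e
  rw [h2.word w0' hi, h1.rW w0 hj] at e1
  exact w3_ne_rq h2.mpos h2.pos h1 hi hj e1

/-- **T - Sq: no common word** -/
theorem dj_TSq : Dj (k := k) TyT (TySq q) := by
  intro F g F' g' h h' _ w hw hw'
  obtain ⟨R, B, S, w0, h1, hne, -, -, rfl, rfl⟩ := h'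
  obtain ⟨j, hj, -, rfl⟩ := memR_gadS.1 hw'
  obtain ⟨b, m, a, w0', h2, rfl, rfl⟩ := h
  obtain ⟨i, hi, e⟩ := mem_gad20.1 hw
  have e1 := congrArg Subtype.val e
  rw [h2.word w0' hi, h1.rW w0 hj] at e1
  exact w3_ne_rq h2.mpos h2.pos h1 hi hj e1

/-- inner words of T in Rq -/
theorem TyT.inner_Rq (h : TyT F g) (h' : TyRq q F' g') : ∀ p ∈ g.arcs, ∀ w ∈ innA p, w ∉ g'.B := by
  intro p hp w hw hw'
  obtain ⟨b, m, a, i, hm, e⟩ := h.innerm p hp w hw
  obtain ⟨R, B, S, w0, h1, hne, rfl, rfl⟩ := h'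
  obtain ⟨j, hj, rfl⟩ := mem_gad20.1 hw'
  rw [h1.rW w0 hj] at e
  exact Y3_ne_rq hm h1 hj e.symm

/-- inner words of T in Sq -/
theorem TyT.inner_Sq (h : TyT F g) (h' : TySq q F' g') : ∀ p ∈ g.arcs, ∀ w ∈ innA p, w ∉ g'.B := by
  intro p hp w hw hw'
  obtain ⟨b, m, a, i, hm, e⟩ := h.innerm p hp w hw
  obtain ⟨R, B, S, w0, h1, hne, -, -, rfl, rfl⟩ := h'
  obtain ⟨j, hj, -, rfl⟩ := memR_gadS.1 hw'
  rw [h1.rW w0 hj] at e
  exact Y3_ne_rq hm h1 hj e.symm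

theorem HM.NodeM.rhtq (h : NodeM k q R B S) (w0 : X k) :
    htc (cyc (H1.wX R B S q w0 0)) = ht R := by
  rw [htc_cyc, ← ht_wX, h.ht012 w0 (Or.inl rfl)]

theorem TyRq.ht4 (h : TyRq q F g) : ∀ c ∈ F, q + 4 ≤ htc c := by
  obtain ⟨R, B, S, w0, h1, hne, rfl, rfl⟩ := h
  rintro c rfl
  rw [h1.rhtq w0]
  exact h1.top

theorem TySq.ht4 (h : TySq q F g) : ∀ c ∈ F, q + 4 ≤ htc c := by
  have hg := h.htg
  obtain ⟨R, B, S, w0, h1, hne, h12, h18, rfl, rfl⟩ := h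
  intro c hc
  rw [hg c hc (cyc (H1.wX R B S q w0 0)) (Or.inl rfl), h1.rhtq w0]
  exact h1.top

/-- inner words of Rq in T: T is lower -/
theorem TyRq.inner_T (h : TyRq q F g) (h' : TyT F' g')
    (hle : ∀ c ∈ F, ∀ d ∈ F', htc c ≤ htc d) : ∀ p ∈ g.arcs, ∀ w ∈ innA p, w ∉ g'.B := by
  exfalso
  have h4 := h.ht4
  have h3 := h'.ht3
  obtain ⟨R, B, S, w0, h1, hne, rfl, rfl⟩ := h
  obtain ⟨b, m, a, w0', h1', rfl, rfl⟩ := h'
  have e1 := h4 _ rfl
  have e2 := h3 _ rfl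
  have e3 := hle _ rfl _ rfl
  omega

theorem TySq.inner_T (h : TySq q F g) (h' : TyT F' g')
    (hle : ∀ c ∈ F, ∀ d ∈ F', htc c ≤ htc d) : ∀ p ∈ g.arcs, ∀ w ∈ innA p, w ∉ g'.B := by
  exfalso
  have h4 := h.ht4
  have h3 := h'.ht3
  obtain ⟨R, B, S, w0, h1, hne, h12, h18, rfl, rfl⟩ := h
  obtain ⟨b, m, a, w0', h1', rfl, rfl⟩ := h'
  have e1 := h4 _ (Or.inl rfl)
  have e2 := h3 _ rfl
  have e3 := hle _ (Or.inl rfl) _ rfl
  omega

end Pool.OddHC
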