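import Pool.Agent.Work.MP_8f87b2_h89.R3C

/-!
# MP_8f87b2_co: words of the right c = 3 windows (TyR3, TyS3) against the content links Cl
-/

set_option autoImplicit false
set_option linter.all false

namespace Pool.OddHC

open Finset Equiv BinaryTree Pool.Agent.Work.MP_8f87b2_co HM

variable {k : ℕ} {F F' : Set (Cyc k)} {g g' : DG k} {R B S U : BinaryTree Unit}

/-- `(B()())`, `B` bare, not `[3]` -/
theorem r3_pile (hv : Hv 0 B) (h3 : 3 ∈ cont B) (hB : B ≠ pc 3) :
    3 ∈ raise (cont (app B (.nil △ (.nil △ .nil)))) := by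
  have hL : cont (app B (.nil △ (.nil △ .nil))) = cont B + cont (.nil △ (.nil △ .nil)) := cont_app _ _
  have h4 : 3 ∈ cont (app B (.nil △ (.nil △ .nil))) := by
    rw [hL]
    exact Multiset.mem_add.2 (Or.inl h3)
  by_cases h5 : 3 = (cont (app B (.nil △ (.nil △ .nil)))).sup
  · have h6 : ht B ≤ 3 := by
      rw [h5, ← OddHC.ht_eq, ht_app]
      exact le_max_left _ _
    cases B with
    | nil => exact absurd h3 (by rw [cont_nil]; simp)
    | node u b D =>
      have h7 : b = pc 2 := by
        refine pc_two (hv.all b (by simp [comps])) ?_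
        rw [ht] at h6
        omega
      subst h7
      have hD : D ≠ .nil := by
        rintro rfl
        exact hB rfl
      have hvD : ∀ x ∈ cont D, x = 3 := by
        intro x hx
        have h8 : 3 ≤ x := hv x (by
          change x ∈ cont (pc 2 △ D)
          rw [cont_node]
          exact Multiset.mem_add.2 (Or.inr hx))
        have h9 := r3_htc hx
        rw [ht] at h6
        omega
      have h10 : 3 ∈ cont D := by
        obtain ⟨x, hx⟩ := Multiset.exists_mem_of_ne_zero (cont_ne hD)
        rw [← hvD x hx]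
        exact hx
      have hL' : cont (app (pc 2 △ D) (.nil △ (.nil △ .nil))) = {3} + (cont D + cont (.nil △ (.nil △ .nil))) := by
        rw [cont_app, cont_node, raise_pc, add_assoc]
      change 3 ∈ raise (cont (app (pc 2 △ D) (.nil △ (.nil △ .nil))))
      have h5' : 3 = (cont (app (pc 2 △ D) (.nil △ (.nil △ .nil)))).sup := h5
      unfold raise
      rw [← h5', hL', Multiset.singleton_add, Multiset.erase_cons_head]
      simp [h10]
  · exact mem_raise h4 h5

theorem cl0 (h : A0D 0 R B S) {i c : ℕ} (hi : i < 20) (hU : c + 3 ≤ ht U) (hc1 : c ≠ 1)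
    (hp : 1 ≤ c → ∀ x ∈ cont U, x = 1 ∨ c + 3 ≤ x)
    (e : rl R B S i = [pc (c + 1), U]) : c = 0 ∧ B = .nil ∧ U = S := by
  obtain ⟨⟨r, R1, R2, r', hr, hr', hr0, hr0'⟩, ⟨s0, S1, S2, s1, hs', hs1, hs0, hs0'⟩, hB⟩ := h.dat
  have hr1 := lo_ne_nil hr0
  have hr1' := lo_ne_nil hr0'
  have hs2 := lo_ne_nil hs0
  have hs2' := lo_ne_nil hs0'
  have e2 : lp 2 = .nil △ (.nil △ .nil) := rfl
  have p1 : pc 1 = .nil △ .nil := rfl
  have p2 : pc 2 = (.nil △ .nil) △ .nil := rfl
  have pp : pc (c + 1) = pc c △ .nil := rfl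
  have R0 := h.R_ne
  have S0 := h.S_ne
  have u1 : U ≠ .nil := by rintro rfl; rw [ht] at hU; omega
  have u2 : comps U ≠ [] := comps_ne u1
  have c8 : ∀ Y : BinaryTree Unit, app Y (.nil △ (.nil △ .nil)) ≠ .nil := by
    intro Y
    cases Y <;> simp [app]
  have c9 : ∀ Y : BinaryTree Unit, app S (Y △ .nil) ≠ .nil := by
    intro Y
    exact app_ne' (by simp)
  have len : ∀ {a b : List (BinaryTree Unit)}, a = b → a.length = b.length := fun e => by rw [e]
  have big : ∀ {n : ℕ}, (∀ A ∈ (comps U).reverse, ht A + 1 ≤ n) → c + 3 ≤ n := fun hh =>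
    hU.trans (r3_low (fun A hA => hh A (List.mem_reverse.2 hA)))
  have b1 : 1 ≤ c → (BinaryTree.nil △ BinaryTree.nil : BinaryTree Unit) ∈ (comps U).reverse → False := by
    intro h0 hh
    have h2 : 2 ∈ cont U := mem_comps (List.mem_reverse.1 hh) (by
      change 2 ∈ raise (cont (pc 1)); rw [raise_pc]; exact Multiset.mem_singleton_self _)
    have := hp h0 2 h2
    omega
  have b4 : 1 ≤ c → 3 ∉ cont U := by
    intro h0 h2
    have := hp h0 3 h2
    omega
  have hBS : ht B ≤ ht S := by
    rw [h.hS, OddHC.ht_eq, OddHC.ht_eq, ← h.eq, Multiset.sup_add]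
    exact le_sup_left
  have bigf : ∀ {n : ℕ}, (∀ A ∈ comps U, ht A + 1 ≤ n) → c + 3 ≤ n := fun hh =>
    hU.trans (r3_low hh)
  have nR : ∀ a ∈ comps R, a ≠ .nil := fun a ha => lo_ne_nil (h.hv.all a ha)
  have nB : ∀ a ∈ comps B, a ≠ .nil := fun a ha => lo_ne_nil (h.hvB.all a ha)
  have nS : ∀ a ∈ comps S, a ≠ .nil := fun a ha => lo_ne_nil (h.hvS.all a ha)
  have k3 : 1 ≤ c → ∀ A, 3 ∈ raise (cont A) → A ∈ (comps U).reverse → False := fun h0 A h1 h2 =>
    b4 h0 (mem_comps (List.mem_reverse.1 h2) h1)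
  have kp : 1 ≤ c → 3 ∉ raise (cont (pc (c + 2))) := by
    intro h0
    rw [raise_pc, Multiset.mem_singleton]
    omega
  have k4 : 3 ∈ cont S → 3 ∈ raise (cont (.nil △ (.nil △ S))) := by
    intro hh
    have h5 : 3 ∈ cont (.nil △ (.nil △ S)) := by
      rw [cont_node, cont_node, Multiset.mem_add, Multiset.mem_add]
      exact Or.inr (Or.inr hh)
    apply mem_raise h5
    rw [← OddHC.ht_eq]
    have h6 := h.topSr3
    simp only [ht]
    omega
  have e4 := congrArg List.reverse e
  have e0 := e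
  rcases hB with hB | ⟨b, B1, B2, b', hBn, hb, hb', hb0, hb0'⟩
  · subst hB
    have m3 : 3 ∈ cont S := by
      rcases r3_mem h with hh | hh
      · exact absurd hh (by rw [cont_nil]; simp)
      · exact hh
    interval_cases i <;>
      simp [rl, hr', hs1, comps, hr1', hs2', R0, S0, p1, p2, e2, u1, u1.symm, u2, u2.symm, c8, c9, pp] at e4 <;>
      simp [rl, hr, hs', comps, hr1, hs2, R0, S0, p1, p2, e2, u1, u1.symm, u2, u2.symm, c8, c9, pp] at e <;>
      simp only [rl] at e0
    all_goals try (exfalso; rw [← e.1] at hU; simp [ht] at hU; done)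
    all_goals try (exfalso; rw [← e.2] at hU; simp [ht] at hU; done)
    all_goals try (exfalso; have e7 := len e.2; simp at e7; done)
    all_goals try (exfalso; have e7 := len e.2; simp at e7; omega)
    all_goals try (exfalso; have e7 := len e4.2; simp at e7; done)
    all_goals try (exfalso; have e7 := len e4.2; simp at e7; omega)
    all_goals try (exfalso; have e7 := congrArg comps e4.1; rw [comps_app] at e7; have e8 := len e7; simp [comps] at e8; done)
    all_goals try (exfalso; rw [← e4.2] at big; have e7 := big (n := 2); simp [ht] at e7; done)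
    · exfalso
      rw [← e4.1] at hU
      simp [ht] at hU
    · exact absurd (pc_o e.1.symm) hc1
    · exfalso
      rw [← e4.1] at hU
      have h5 : ht S = c + 2 := by
        have h6 : S = pc (c + 2) := comps_inj (by rw [hs1, e4.2.1, e4.2.2]; rfl)
        rw [h6, ht_pc]
      rw [ht_app] at hU
      simp only [ht] at hU hBS
      have h6 := h.topSr3
      omega
    · exact ⟨pc_z e.1.symm, rfl, e.2.symm⟩

  · have hb1 := lo_ne_nil hb0
    have hb1' := lo_ne_nil hb0'
    interval_cases i <;>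
      simp [rl, hr', hs1, hb', comps, hr1', hs2', hb1', R0, S0, p1, p2, e2, u1, u1.symm, u2, u2.symm, c8, c9, pp] at e4 <;>
      simp [rl, hr, hs', hb, comps, hr1, hs2, hb1, R0, S0, p1, p2, e2, u1, u1.symm, u2, u2.symm, c8, c9, pp] at e <;>
      simp only [rl] at e0
    all_goals try (exfalso; rw [← e.1] at hU; simp [ht] at hU; done)
    all_goals try (exfalso; rw [← e.2] at hU; simp [ht] at hU; done)
    all_goals try (exfalso; have e7 := len e.2; simp at e7; done)
    all_goals try (exfalso; have e7 := len e.2; simp at e7; omega)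
    all_goals try (exfalso; have e7 := len e4.2; simp at e7; done)
    all_goals try (exfalso; have e7 := len e4.2; simp at e7; omega)
    all_goals try (exfalso; have e7 := congrArg comps e4.1; rw [comps_app] at e7; have e8 := len e7; simp [comps] at e8; done)
    all_goals try (exfalso; rw [← e4.2] at big; have e7 := big (n := 2); simp [ht] at e7; done)
    · exfalso
      rw [← e4.1] at hU
      simp [ht] at hU
    · exfalso
      rw [← e4.1] at hU
      have h5 : ht S = c + 2 := by
        have h6 : S = pc (c + 2) := comps_inj (by rw [hs1, e4.2.1, e4.2.2]; rfl)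
        rw [h6, ht_pc]
      rw [ht_app] at hU
      simp only [ht] at hU hBS
      have h6 := h.topSr3
      omega


theorem cl1 (h : A0D 0 R B S) {i c : ℕ} (hi : i < 20) (hU : c + 3 ≤ ht U) (hc1 : c ≠ 1)
    (hp : 1 ≤ c → ∀ x ∈ cont U, x = 1 ∨ c + 3 ≤ x)
    (e : rl R B S i = comps U ++ [.nil, pc (c + 1)]) : c = 0 ∧ B = .nil ∧ U = S := by
  obtain ⟨⟨r, R1, R2, r', hr, hr', hr0, hr0'⟩, ⟨s0, S1, S2, s1, hs', hs1, hs0, hs0'⟩, hB⟩ := h.dat
  have hr1 := lo_ne_nil hr0
  have hr1' := lo_ne_nil hr0'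
  have hs2 := lo_ne_nil hs0
  have hs2' := lo_ne_nil hs0'
  have e2 : lp 2 = .nil △ (.nil △ .nil) := rfl
  have p1 : pc 1 = .nil △ .nil := rfl
  have p2 : pc 2 = (.nil △ .nil) △ .nil := rfl
  have pp : pc (c + 1) = pc c △ .nil := rfl
  have R0 := h.R_ne
  have S0 := h.S_ne
  have u1 : U ≠ .nil := by rintro rfl; rw [ht] at hU; omega
  have u2 : comps U ≠ [] := comps_ne u1
  have c8 : ∀ Y : BinaryTree Unit, app Y (.nil △ (.nil △ .nil)) ≠ .nil := by
    intro Y
    cases Y <;> simp [app]
  have c9 : ∀ Y : BinaryTree Unit, app S (Y △ .nil) ≠ .nil := by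
    intro Y
    exact app_ne' (by simp)
  have len : ∀ {a b : List (BinaryTree Unit)}, a = b → a.length = b.length := fun e => by rw [e]
  have big : ∀ {n : ℕ}, (∀ A ∈ (comps U).reverse, ht A + 1 ≤ n) → c + 3 ≤ n := fun hh =>
    hU.trans (r3_low (fun A hA => hh A (List.mem_reverse.2 hA)))
  have b1 : 1 ≤ c → (BinaryTree.nil △ BinaryTree.nil : BinaryTree Unit) ∈ (comps U).reverse → False := by
    intro h0 hh
    have h2 : 2 ∈ cont U := mem_comps (List.mem_reverse.1 hh) (by
      change 2 ∈ raise (cont (pc 1)); rw [raise_pc]; exact Multiset.mem_singleton_self _)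
    have := hp h0 2 h2
    omega
  have b4 : 1 ≤ c → 3 ∉ cont U := by
    intro h0 h2
    have := hp h0 3 h2
    omega
  have hBS : ht B ≤ ht S := by
    rw [h.hS, OddHC.ht_eq, OddHC.ht_eq, ← h.eq, Multiset.sup_add]
    exact le_sup_left
  have bigf : ∀ {n : ℕ}, (∀ A ∈ comps U, ht A + 1 ≤ n) → c + 3 ≤ n := fun hh =>
    hU.trans (r3_low hh)
  have nR : ∀ a ∈ comps R, a ≠ .nil := fun a ha => lo_ne_nil (h.hv.all a ha)
  have nB : ∀ a ∈ comps B, a ≠ .nil := fun a ha => lo_ne_nil (h.hvB.all a ha)
  have nS : ∀ a ∈ comps S, a ≠ .nil := fun a ha => lo_ne_nil (h.hvS.all a ha)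
  have k3 : 1 ≤ c → ∀ A, 3 ∈ raise (cont A) → A ∈ (comps U).reverse → False := fun h0 A h1 h2 =>
    b4 h0 (mem_comps (List.mem_reverse.1 h2) h1)
  have kp : 1 ≤ c → 3 ∉ raise (cont (pc (c + 2))) := by
    intro h0
    rw [raise_pc, Multiset.mem_singleton]
    omega
  have k4 : 3 ∈ cont S → 3 ∈ raise (cont (.nil △ (.nil △ S))) := by
    intro hh
    have h5 : 3 ∈ cont (.nil △ (.nil △ S)) := by
      rw [cont_node, cont_node, Multiset.mem_add, Multiset.mem_add]
      exact Or.inr (Or.inr hh)
    apply mem_raise h5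
    rw [← OddHC.ht_eq]
    have h6 := h.topSr3
    simp only [ht]
    omega
  have e4 := congrArg List.reverse e
  have e0 := e
  rcases hB with hB | ⟨b, B1, B2, b', hBn, hb, hb', hb0, hb0'⟩
  · subst hB
    have m3 : 3 ∈ cont S := by
      rcases r3_mem h with hh | hh
      · exact absurd hh (by rw [cont_nil]; simp)
      · exact hh
    interval_cases i <;>
      simp [rl, hr', hs1, comps, hr1', hs2', R0, S0, p1, p2, e2, u1, u1.symm, u2, u2.symm, c8, c9, pp] at e4 <;>
      simp [rl, hr, hs', comps, hr1, hs2, R0, S0, p1, p2, e2, u1, u1.symm, u2, u2.symm, c8, c9, pp] at e <;>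
      simp only [rl] at e0
    all_goals try (exfalso; rw [← e.1] at hU; simp [ht] at hU; done)
    all_goals try (exfalso; rw [← e.2] at hU; simp [ht] at hU; done)
    all_goals try (exfalso; have e7 := len e.2; simp at e7; done)
    all_goals try (exfalso; have e7 := len e.2; simp at e7; omega)
    all_goals try (exfalso; have e7 := len e4.2; simp at e7; done)
    all_goals try (exfalso; have e7 := len e4.2; simp at e7; omega)
    all_goals try (exfalso; have e7 := congrArg comps e4.1; rw [comps_app] at e7; have e8 := len e7; simp [comps] at e8; done)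
    all_goals try (exfalso; rw [← e4.2] at big; have e7 := big (n := 2); simp [ht] at e7; done)
    · exfalso
      rcases hq : R2.reverse with _ | ⟨a, L⟩
      · rw [hq] at e4
        simp at e4
      · rw [hq] at e4
        simp at e4
        exact nR a (by rw [hr', List.mem_append, ← List.mem_reverse, hq]; simp) e4.2.1
    · exfalso
      rcases hq : R2.reverse with _ | ⟨a, L⟩
      · rw [hq] at e4
        simp at e4
        rw [← e4.2] at big
        have e7 := big (n := 2)
        simp [ht] at e7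
      · rw [hq] at e4
        simp at e4
        exact nR a (by rw [hr', List.mem_append, ← List.mem_reverse, hq]; simp) e4.2.1
    · exfalso
      rcases hq : S2.reverse with _ | ⟨a, L⟩
      · rw [hq] at e4
        simp at e4
      · rw [hq] at e4
        simp at e4
        exact nS a (by rw [hs1, List.mem_append, ← List.mem_reverse, hq]; simp) e4.2.1
    · exfalso
      rcases hq : S2.reverse with _ | ⟨a, L⟩
      · rw [hq] at e4
        simp at e4
        rw [← e4.2] at big
        have e7 := big (n := 2)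
        simp [ht] at e7
      · rw [hq] at e4
        simp at e4
        exact nS a (by rw [hs1, List.mem_append, ← List.mem_reverse, hq]; simp) e4.2.1
    · refine ⟨pc_z e4.1.symm, rfl, comps_inj ?_⟩
      rw [hs1, ← List.reverse_reverse (comps U), ← e4.2]
      simp

  · have hb1 := lo_ne_nil hb0
    have hb1' := lo_ne_nil hb0'
    interval_cases i <;>
      simp [rl, hr', hs1, hb', comps, hr1', hs2', hb1', R0, S0, p1, p2, e2, u1, u1.symm, u2, u2.symm, c8, c9, pp] at e4 <;>
      simp [rl, hr, hs', hb, comps, hr1, hs2, hb1, R0, S0, p1, p2, e2, u1, u1.symm, u2, u2.symm, c8, c9, pp] at e <;>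
      simp only [rl] at e0
    all_goals try (exfalso; rw [← e.1] at hU; simp [ht] at hU; done)
    all_goals try (exfalso; rw [← e.2] at hU; simp [ht] at hU; done)
    all_goals try (exfalso; have e7 := len e.2; simp at e7; done)
    all_goals try (exfalso; have e7 := len e.2; simp at e7; omega)
    all_goals try (exfalso; have e7 := len e4.2; simp at e7; done)
    all_goals try (exfalso; have e7 := len e4.2; simp at e7; omega)
    all_goals try (exfalso; have e7 := congrArg comps e4.1; rw [comps_app] at e7; have e8 := len e7; simp [comps] at e8; done)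
    all_goals try (exfalso; rw [← e4.2] at big; have e7 := big (n := 2); simp [ht] at e7; done)
    · exfalso
      rcases hq : R2.reverse with _ | ⟨a, L⟩
      · rw [hq] at e4
        simp at e4
      · rw [hq] at e4
        simp at e4
        exact nR a (by rw [hr', List.mem_append, ← List.mem_reverse, hq]; simp) e4.2.1
    · exfalso
      rcases hq : R2.reverse with _ | ⟨a, L⟩
      · rw [hq] at e4
        simp at e4
        rw [← e4.2] at big
        have e7 := big (n := 2)
        simp [ht] at e7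
      · rw [hq] at e4
        simp at e4
        exact nR a (by rw [hr', List.mem_append, ← List.mem_reverse, hq]; simp) e4.2.1
    · exfalso
      rcases hq : S2.reverse with _ | ⟨a, L⟩
      · rw [hq] at e4
        simp at e4
      · rw [hq] at e4
        simp at e4
        exact nS a (by rw [hs1, List.mem_append, ← List.mem_reverse, hq]; simp) e4.2.1
    · exfalso
      rcases hq : S2.reverse with _ | ⟨a, L⟩
      · have h5 : ht S = c + 2 := by
          have h6 : S = pc (c + 2) := comps_inj (by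
            rw [hs1, e4.1, ← List.reverse_reverse S2, hq]; rfl)
          rw [h6, ht_pc]
        rw [hq] at e4
        simp at e4
        have e7 : comps U = comps (app B (.nil △ (.nil △ .nil))) := by
          rw [comps_app, ← List.reverse_reverse (comps U), ← e4.2]
          simp [comps, hb']
        rw [comps_inj e7, ht_app] at hU
        simp only [ht] at hU hBS
        have h6 := h.topSr3
        omega
      · rw [hq] at e4
        simp at e4
        exact nS a (by rw [hs1, List.mem_append, ← List.mem_reverse, hq]; simp) e4.2.1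
    · exfalso
      rcases hq : B2.reverse with _ | ⟨a, L⟩
      · rw [hq] at e4
        simp at e4
      · rw [hq] at e4
        simp at e4
        exact nB a (by rw [hb', List.mem_append, ← List.mem_reverse, hq]; simp) e4.2.1
    · exfalso
      rcases hq : B2.reverse with _ | ⟨a, L⟩
      · rw [hq] at e4
        simp at e4
        exact S0 e4.2.1
      · rw [hq] at e4
        simp at e4
        exact nB a (by rw [hb', List.mem_append, ← List.mem_reverse, hq]; simp) e4.2.1
    · exact absurd e4.2.1 hBn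


theorem cl2 (h : A0D 0 R B S) {i c : ℕ} (hi : i < 20) (hU : c + 3 ≤ ht U) (hc1 : c ≠ 1)
    (hp : 1 ≤ c → ∀ x ∈ cont U, x = 1 ∨ c + 3 ≤ x)
    (h0 : i ≠ 0) (h10 : i ≠ 10) (h1 : i ≠ 1) (h11 : i ≠ 11) (hS3 : ¬ St3 S) (hB3 : 1 ≤ c → ¬ (B = pc 3 ∧ 3 ∉ cont S))
    (e : rl R B S i = pc (c + 2) :: comps U) : False := by
  obtain ⟨⟨r, R1, R2, r', hr, hr', hr0, hr0'⟩, ⟨s0, S1, S2, s1, hs', hs1, hs0, hs0'⟩, hB⟩ := h.dat
  have hr1 := lo_ne_nil hr0
  have hr1' := lo_ne_nil hr0'
  have hs2 := lo_ne_nil hs0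
  have hs2' := lo_ne_nil hs0'
  have e2 : lp 2 = .nil △ (.nil △ .nil) := rfl
  have p1 : pc 1 = .nil △ .nil := rfl
  have p2 : pc 2 = (.nil △ .nil) △ .nil := rfl
  have pp : pc (c + 2) = (pc c △ .nil) △ .nil := rfl
  have R0 := h.R_ne
  have S0 := h.S_ne
  have u1 : U ≠ .nil := by rintro rfl; rw [ht] at hU; omega
  have u2 : comps U ≠ [] := comps_ne u1
  have c8 : ∀ Y : BinaryTree Unit, app Y (.nil △ (.nil △ .nil)) ≠ .nil := by
    intro Y
    cases Y <;> simp [app]
  have c9 : ∀ Y : BinaryTree Unit, app S (Y △ .nil) ≠ .nil := by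
    intro Y
    exact app_ne' (by simp)
  have len : ∀ {a b : List (BinaryTree Unit)}, a = b → a.length = b.length := fun e => by rw [e]
  have big : ∀ {n : ℕ}, (∀ A ∈ (comps U).reverse, ht A + 1 ≤ n) → c + 3 ≤ n := fun hh =>
    hU.trans (r3_low (fun A hA => hh A (List.mem_reverse.2 hA)))
  have b1 : 1 ≤ c → (BinaryTree.nil △ BinaryTree.nil : BinaryTree Unit) ∈ (comps U).reverse → False := by
    intro h0 hh
    have h2 : 2 ∈ cont U := mem_comps (List.mem_reverse.1 hh) (by
      change 2 ∈ raise (cont (pc 1)); rw [raise_pc]; exact Multiset.mem_singleton_self _)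
    have := hp h0 2 h2
    omega
  have b4 : 1 ≤ c → 3 ∉ cont U := by
    intro h0 h2
    have := hp h0 3 h2
    omega
  have hBS : ht B ≤ ht S := by
    rw [h.hS, OddHC.ht_eq, OddHC.ht_eq, ← h.eq, Multiset.sup_add]
    exact le_sup_left
  have bigf : ∀ {n : ℕ}, (∀ A ∈ comps U, ht A + 1 ≤ n) → c + 3 ≤ n := fun hh =>
    hU.trans (r3_low hh)
  have st : s0 = (pc c △ .nil) △ .nil → 1 ≤ c := by
    intro h5
    by_contra h6
    have h7 : c = 0 := by omega
    subst h7
    apply hS3
    cases S with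
    | nil => exact absurd rfl S0
    | node u A D =>
      have h8 : A :: comps D = s0 :: S1 := hs'
      exact ⟨D, by rw [(List.cons.inj h8).1, h5]; rfl⟩
  have nR : ∀ a ∈ comps R, a ≠ .nil := fun a ha => lo_ne_nil (h.hv.all a ha)
  have nB : ∀ a ∈ comps B, a ≠ .nil := fun a ha => lo_ne_nil (h.hvB.all a ha)
  have nS : ∀ a ∈ comps S, a ≠ .nil := fun a ha => lo_ne_nil (h.hvS.all a ha)
  have k3 : 1 ≤ c → ∀ A, 3 ∈ raise (cont A) → A ∈ (comps U).reverse → False := fun h0 A h1 h2 =>
    b4 h0 (mem_comps (List.mem_reverse.1 h2) h1)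
  have kp : 1 ≤ c → 3 ∉ raise (cont (pc (c + 2))) := by
    intro h0
    rw [raise_pc, Multiset.mem_singleton]
    omega
  have k4 : 3 ∈ cont S → 3 ∈ raise (cont (.nil △ (.nil △ S))) := by
    intro hh
    have h5 : 3 ∈ cont (.nil △ (.nil △ S)) := by
      rw [cont_node, cont_node, Multiset.mem_add, Multiset.mem_add]
      exact Or.inr (Or.inr hh)
    apply mem_raise h5
    rw [← OddHC.ht_eq]
    have h6 := h.topSr3
    simp only [ht]
    omega
  have e4 := congrArg List.reverse e
  have e0 := e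
  rcases hB with hB | ⟨b, B1, B2, b', hBn, hb, hb', hb0, hb0'⟩
  · subst hB
    have m3 : 3 ∈ cont S := by
      rcases r3_mem h with hh | hh
      · exact absurd hh (by rw [cont_nil]; simp)
      · exact hh
    interval_cases i <;>
      simp [rl, hr', hs1, comps, hr1', hs2', R0, S0, p1, p2, e2, u1, u1.symm, u2, u2.symm, c8, c9, pp] at e4 <;>
      simp [rl, hr, hs', comps, hr1, hs2, R0, S0, p1, p2, e2, u1, u1.symm, u2, u2.symm, c8, c9, pp] at e <;>
      simp only [rl] at e0
    all_goals try (exfalso; rw [← e.1] at hU; simp [ht] at hU; done)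
    all_goals try (exfalso; rw [← e.2] at hU; simp [ht] at hU; done)
    all_goals try (exfalso; have e7 := len e.2; simp at e7; done)
    all_goals try (exfalso; have e7 := len e.2; simp at e7; omega)
    all_goals try (exfalso; have e7 := len e4.2; simp at e7; done)
    all_goals try (exfalso; have e7 := len e4.2; simp at e7; omega)
    all_goals try (exfalso; have e7 := congrArg comps e4.1; rw [comps_app] at e7; have e8 := len e7; simp [comps] at e8; done)
    all_goals try (exfalso; rw [← e4.2] at big; have e7 := big (n := 2); simp [ht] at e7; done)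
    all_goals try (exfalso; rw [← e.2] at bigf; have e7 := bigf (n := 2); simp [ht] at e7; done)
    · have hc0 := st e.1
      obtain ⟨A, hA, hx⟩ := r3_comps m3
      rw [hs', List.mem_cons] at hA
      rcases hA with hA | hA
      · rw [hA, e.1] at hx
        exact kp hc0 hx
      · exact k3 hc0 A hx (by rw [← e.2]; simp [hA])
    · have hc0 := st e.1
      exact b1 hc0 (by rw [← e.2]; simp)

  · have hb1 := lo_ne_nil hb0
    have hb1' := lo_ne_nil hb0'
    interval_cases i <;>
      simp [rl, hr', hs1, hb', comps, hr1', hs2', hb1', R0, S0, p1, p2, e2, u1, u1.symm, u2, u2.symm, c8, c9, pp] at e4 <;>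
      simp [rl, hr, hs', hb, comps, hr1, hs2, hb1, R0, S0, p1, p2, e2, u1, u1.symm, u2, u2.symm, c8, c9, pp] at e <;>
      simp only [rl] at e0
    all_goals try (exfalso; rw [← e.1] at hU; simp [ht] at hU; done)
    all_goals try (exfalso; rw [← e.2] at hU; simp [ht] at hU; done)
    all_goals try (exfalso; have e7 := len e.2; simp at e7; done)
    all_goals try (exfalso; have e7 := len e.2; simp at e7; omega)
    all_goals try (exfalso; have e7 := len e4.2; simp at e7; done)
    all_goals try (exfalso; have e7 := len e4.2; simp at e7; omega)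
    all_goals try (exfalso; have e7 := congrArg comps e4.1; rw [comps_app] at e7; have e8 := len e7; simp [comps] at e8; done)
    all_goals try (exfalso; rw [← e4.2] at big; have e7 := big (n := 2); simp [ht] at e7; done)
    all_goals try (exfalso; rw [← e.2] at bigf; have e7 := bigf (n := 2); simp [ht] at e7; done)
    · have h5 : ht S = c + 2 := by rw [e.1]; change ht (pc (c + 2)) = c + 2; rw [ht_pc]
      have e7 : comps U = comps (app B (.nil △ (.nil △ .nil))) := by
        rw [comps_app, ← e.2, hb]; rfl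
      rw [comps_inj e7, ht_app] at hU
      simp only [ht] at hU hBS
      have h6 := h.topSr3
      omega
    · have hc0 := st e.1
      by_cases m3 : 3 ∈ cont S
      · obtain ⟨A, hA, hx⟩ := r3_comps m3
        rw [hs', List.mem_cons] at hA
        rcases hA with hA | hA
        · rw [hA, e.1] at hx
          exact kp hc0 hx
        · exact k3 hc0 A hx (by rw [← e.2]; simp [hA])
      · have m4 : 3 ∈ cont B := by
          rcases r3_mem h with hh | hh
          · exact hh
          · exact absurd hh m3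
        exact k3 hc0 _ (r3_pile h.hvB m4 (fun hh => hB3 hc0 ⟨hh, m3⟩)) (by rw [← e.2]; simp)
    · have hc0 := st e.1
      exact b1 hc0 (by rw [← e.2]; simp)


theorem r3_up {A : BinaryTree Unit} (h : A ∈ comps U) : ht A + 1 ≤ ht U := by
  induction U with
  | nil => exact absurd h (by simp [comps])
  | node u C D _ ih =>
    have h' : A ∈ C :: comps D := h
    rw [List.mem_cons] at h'
    rw [ht]
    rcases h' with rfl | h1
    · exact le_max_left _ _
    · exact (ih h1).trans (le_max_right _ _)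

/-- words 1 and 11 against `[c + 1]U` -/
theorem cl3 (h : A0D 0 R B S) {i c : ℕ} (hi : i = 1 ∨ i = 11)
    (hp : 1 ≤ c → ∀ x ∈ cont U, x = 1 ∨ c + 3 ≤ x) (e : rl R B S i = pc (c + 2) :: comps U) :
    c = 0 ∧ 3 < ht U ∧ ∃ P Q : List (BinaryTree Unit), (∀ A ∈ P ++ Q, lo 0 A = 0) ∧
      comps U = P ++ (.nil :: .nil :: .nil :: Q) := by
  have pp : pc (c + 2) = (pc c △ .nil) △ .nil := rfl
  have b4 : 1 ≤ c → 3 ∉ cont U := by
    intro h0 h2
    have := hp h0 3 h2
    omega
  have kp : 1 ≤ c → 3 ∉ raise (cont (pc (c + 2))) := by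
    intro h0
    rw [raise_pc, Multiset.mem_singleton]
    omega
  rcases hi with rfl | rfl
  · obtain ⟨r, R1, hr, hr0⟩ := h.hv.cons h.R_ne
    have hvR := h.hv.all
    have e' : comps R ++ [.nil, .nil, .nil] = pc (c + 2) :: comps U := e
    rw [hr, List.cons_append, List.cons.injEq] at e'
    obtain ⟨h1, h2⟩ := e'
    have hc : c = 0 := by
      by_contra hc0
      have hc1 : 1 ≤ c := by omega
      obtain ⟨A, hA, hx⟩ := r3_comps h.mem
      rw [hr, List.mem_cons] at hA
      rcases hA with hA | hA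
      · rw [hA, h1] at hx
        exact kp hc1 hx
      · exact b4 hc1 (mem_comps (by rw [← h2]; simp [hA]) hx)
    refine ⟨hc, ?_, R1, [], ?_, h2.symm⟩
    · by_contra h5
      have h6 : ht R ≤ 3 := by
        refine r3_low (fun A hA => ?_)
        rw [hr, List.mem_cons] at hA
        rcases hA with hA | hA
        · rw [hA, h1, ht_pc]
          omega
        · have := r3_up (U := U) (A := A) (by rw [← h2]; simp [hA])
          omega
      have h7 := h.top
      omega
    · intro A hA
      rw [List.append_nil] at hA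
      exact hvR A (by rw [hr]; simp [hA])
  · have e' : comps B ++ (.nil :: .nil :: .nil :: comps S) = pc (c + 2) :: comps U := e
    by_cases hB : B = .nil
    · exfalso
      rw [hB] at e'
      have e2 : (.nil :: .nil :: .nil :: comps S : List (BinaryTree Unit)) = pc (c + 2) :: comps U := e'
      rw [List.cons.injEq, pp] at e2
      exact absurd e2.1 (by simp)
    · obtain ⟨b, B1, hb, hb0⟩ := h.hvB.cons hB
      rw [hb, List.cons_append, List.cons.injEq] at e'
      obtain ⟨h1, h2⟩ := e'
      have hc : c = 0 := by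
        by_contra hc0
        have hc1 : 1 ≤ c := by omega
        rcases r3_mem h with m | m
        · obtain ⟨A, hA, hx⟩ := r3_comps m
          rw [hb, List.mem_cons] at hA
          rcases hA with hA | hA
          · rw [hA, h1] at hx
            exact kp hc1 hx
          · exact b4 hc1 (mem_comps (by rw [← h2]; simp [hA]) hx)
        · obtain ⟨A, hA, hx⟩ := r3_comps m
          exact b4 hc1 (mem_comps (by rw [← h2]; simp [hA]) hx)
      refine ⟨hc, ?_, B1, comps S, ?_, h2.symm⟩
      · by_contra h5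
        have h6 : ht S ≤ 3 := by
          refine r3_low (fun A hA => ?_)
          have := r3_up (U := U) (A := A) (by rw [← h2]; simp [hA])
          omega
        have h7 := h.topSr3
        omega
      · intro A hA
        rw [List.mem_append] at hA
        rcases hA with hA | hA
        · exact h.hvB.all A (by rw [hb]; simp [hA])
        · exact h.hvS.all A hA

namespace HM

/-- **Cr**, `c ≥ 3`: no word of the link is a right word -/
theorem NodeM.r_Cr (h : NodeM k 0 R B S) (hB3 : ¬ (B = pc 3 ∧ 3 ∉ cont S)) (w0 : X k) {i c : ℕ}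
    (hi : i < 20) (h' : TyC c U F' g') (hc : 3 ≤ c) (hU : c + 1 ≤ ht U)
    (hp : ∀ x ∈ cont U, x = 1 ∨ c + 1 ≤ x) : H1.wX R B S 0 w0 i ∉ g'.B := by
  have ha := h.a0dR
  obtain ⟨c, rfl⟩ : ∃ m, c = m + 3 := ⟨c - 3, by omega⟩
  have hw : comps (H1.wX R B S 0 w0 i).1 = rl R B S i := by rw [h.rW w0 hi, comps_rl hi]
  have hbad : ¬ (B = pc (c + 3) ∧ U = .nil △ (.nil △ S)) := by
    rintro ⟨e1, e2⟩
    have h3 : 3 ∉ cont S := by
      intro hh
      have h4 : 3 ∈ cont U := by
        rw [e2, cont_node, cont_node, Multiset.mem_add, Multiset.mem_add]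
        exact Or.inr (Or.inr hh)
      have := hp 3 h4
      omega
    rcases r3_mem ha with hh | hh
    · rw [e1, cont_pc, Multiset.mem_singleton] at hh
      have hc0 : c = 0 := by omega
      subst hc0
      exact hB3 ⟨e1, h3⟩
    · exact h3 hh
  have f1 : comps (H1.ch (c + 3)) = [pc (c + 2)] := by rw [H1.ch_eq]; rfl
  have f2 : comps (.nil : BinaryTree Unit) = [] := rfl
  refine tri_not h' ?_ ?_ ?_ <;> intro e
  · rw [e, comps_w1, f1, f2, List.nil_append] at hw
    exact hbad (cr0 ha hi hU hp hw.symm)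
  · rw [e, comps_w1, f2, H1.ch_eq] at hw
    exact hbad (cr1 ha hi hU hp hw.symm)
  · rw [e, comps_w1, f1, List.cons_append, List.nil_append] at hw
    exact hbad (cr2 ha hi hU hp hw.symm)

/-- **Cl**, `c` even: the only common words are `[3]U` with `U` the word 1 or 11 without its first component -/
theorem NodeM.r_Cl {c : ℕ} (h : NodeM k 0 R B S) (hS3 : ¬ St3 S) (hB3 : 3 ≤ c → ¬ (B = pc 3 ∧ 3 ∉ cont S)) (w0 : X k)
    {i : ℕ} (hi : i < 20) (h' : TyC' c U F' g') (hc : 2 ≤ c) (hc3 : c ≠ 3) (hU : c + 1 ≤ ht U)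
    (hp : 3 ≤ c → ∀ x ∈ cont U, x = 1 ∨ c + 1 ≤ x) (hz : cyc (H1.wX R B S 0 w0 0) ∉ F')
    (hw : H1.wX R B S 0 w0 i ∈ g'.B) :
    (i = 1 ∨ i = 11) ∧ cyc (H1.wX R B S 0 w0 i) ∈ F' ∧ c = 2 ∧ 3 < ht U ∧
      ∃ P Q : List (BinaryTree Unit), (∀ A ∈ P ++ Q, lo 0 A = 0) ∧
        comps U = P ++ (.nil :: .nil :: .nil :: Q) := by
  have ha := h.a0dR
  obtain ⟨c, rfl⟩ : ∃ m, c = m + 2 := ⟨c - 2, by omega⟩
  have hw' : comps (H1.wX R B S 0 w0 i).1 = rl R B S i := by rw [h.rW w0 hi, comps_rl hi]
  have hp' : 1 ≤ c → ∀ x ∈ cont U, x = 1 ∨ c + 3 ≤ x := fun h0 => hp (by omega)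
  have hc1 : c ≠ 1 := by omega
  have f1 : comps (H1.ch (c + 2)) = [pc (c + 1)] := by rw [H1.ch_eq]; rfl
  have f2 : comps (.nil : BinaryTree Unit) = [] := rfl
  have hbad : ¬ (c = 0 ∧ B = .nil ∧ U = S) := by
    rintro ⟨e0, e1, e2⟩
    subst e0
    obtain ⟨a, b, d, h1, h2, h3, h4, h5, h6, h7, h8⟩ := h'
    apply hz
    have e3 : d = H1.wX R B S 0 w0 10 := by
      apply Subtype.ext
      rw [h3, h.rW w0 (by norm_num)]
      apply comps_inj
      rw [comps_rl (by norm_num), comps_w1, e1, e2, H1.ch_eq]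
      rfl
    rw [h7, cyc_eq.2 (h.rsame10 w0), ← e3]
    exact Or.inr rfl
  rcases h'.words _ hw with e | ⟨hF, e | e⟩
  · exfalso
    rw [e, comps_w1, f1, f2] at hw'
    exact hbad (cl0 ha hi hU hc1 hp' hw'.symm)
  · exfalso
    rw [e, comps_w1, f1] at hw'
    exact hbad (cl1 ha hi hU hc1 hp' hw'.symm)
  · rw [e, comps_w1, f2, List.nil_append, H1.ch_eq] at hw'
    have h0 : i ≠ 0 := by
      rintro rfl
      exact hz hF
    have h10 : i ≠ 10 := by
      rintro rfl
      rw [← cyc_eq.2 (h.rsame10 w0)] at hF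
      exact hz hF
    by_cases h1 : i = 1 ∨ i = 11
    · obtain ⟨q1, q2, q3⟩ := cl3 ha h1 hp' hw'.symm
      exact ⟨h1, hF, by omega, q2, q3⟩
    · exfalso
      exact cl2 ha hi hU hc1 hp' h0 h10 (fun hh => h1 (Or.inl hh)) (fun hh => h1 (Or.inr hh)) hS3 (fun h0 => hB3 (by omega)) hw'.symm

end HM

/-- **row R3 - Cr** (`c` odd, `c ≥ 3`) -/
theorem TyR3.disj_Cr (h : TyR3 F g) {c : ℕ} (h' : TyC c U F' g') (hc : 3 ≤ c) (hU : c + 1 ≤ ht U)
    (hp : ∀ x ∈ cont U, x = 1 ∨ c + 1 ≤ x) : ∀ w ∈ g.B, w ∉ g'.B := by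
  intro w hw
  obtain ⟨R, B, S, w0, i, h1, -, hcl, hi, rfl, -⟩ := h.words w hw
  exact h1.r_Cr hcl.2 w0 hi h' hc hU hp

/-- **row S3 - Cr** (`c` odd, `c ≥ 3`) -/
theorem TyS3.disj_Cr (h : TyS3 F g) {c : ℕ} (h' : TyC c U F' g') (hc : 3 ≤ c) (hU : c + 1 ≤ ht U)
    (hp : ∀ x ∈ cont U, x = 1 ∨ c + 1 ≤ x) : ∀ w ∈ g.B, w ∉ g'.B := by
  intro w hw
  obtain ⟨R, B, S, w0, i, h1, hcl, hi, -, rfl, -⟩ := h.words w hw
  exact h1.r_Cr hcl.2 w0 hi h' hc hU hp

/-- `U` is no `P()()()Q` with bare `P`, `Q` of height `≥ 4` -/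
def NoT (U : BinaryTree Unit) : Prop :=
  ht U ≤ 3 ∨ ∀ P Q : List (BinaryTree Unit), (∀ A ∈ P ++ Q, lo 0 A = 0) →
    comps U ≠ P ++ (.nil :: .nil :: .nil :: Q)

/-- **row R3 - Cl** (`c` even) -/
theorem TyR3.disj_Cl (h : TyR3 F g) {c : ℕ} (h' : TyC' c U F' g') (hc : 2 ≤ c) (hc3 : c ≠ 3)
    (hU : c + 1 ≤ ht U) (hp : 3 ≤ c → ∀ x ∈ cont U, x = 1 ∨ c + 1 ≤ x) (hN : c = 2 → NoT U)
    (hd : ∀ c ∈ F, c ∉ F') : ∀ w ∈ g.B, w ∉ g'.B := by
  intro w hw hw'
  obtain ⟨R, B, S, w0, i, h1, -, hcl, hi, rfl, hm⟩ := h.words w hw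
  obtain ⟨-, -, h2, h3, P, Q, h4, h5⟩ := h1.r_Cl hcl.1 (fun _ => hcl.2) w0 hi h' hc hc3 hU hp (hd _ hm) hw'
  rcases hN h2 with h6 | h6
  · omega
  · exact h6 P Q h4 h5

/-- **row S3 - Cl** (`c` even) -/
theorem TyS3.disj_Cl (h : TyS3 F g) {c : ℕ} (h' : TyC' c U F' g') (hc : 2 ≤ c) (hc3 : c ≠ 3)
    (hU : c + 1 ≤ ht U) (hp : 3 ≤ c → ∀ x ∈ cont U, x = 1 ∨ c + 1 ≤ x)
    (hd : ∀ c ∈ F, c ∉ F') : ∀ w ∈ g.B, w ∉ g'.B := by
  obtain ⟨R, B, S, w0, h1, hne, h12, h18, hcl, rfl, rfl⟩ := h
  intro w hw hw'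
  obtain ⟨i, hi, h9, rfl⟩ := memR_gadS.1 hw
  obtain ⟨h2, h3, -⟩ := h1.r_Cl hcl.1 (fun _ => hcl.2) w0 hi h' hc hc3 hU hp (hd _ (Or.inl rfl)) hw'
  have h4 : cyc (H1.wX R B S 0 w0 i) = cyc (H1.wX R B S 0 w0 1) := by
    rcases h2 with rfl | rfl
    · rfl
    · exact (cyc_eq.2 (h1.rsame11 w0)).symm
  rw [h4] at h3
  exact hd _ (Or.inr (Or.inl rfl)) h3

/-- number of parts 1 -/
theorem noT_of_count (h : (cont U).count 1 ≠ 3) : NoT U := by
  right
  intro P Q hPQ e
  apply h
  have key : ∀ (L : List (BinaryTree Unit)) (V : BinaryTree Unit), comps V = L →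
      (cont V).count 1 = (L.map (fun A => (raise (cont A)).count 1)).sum := by
    intro L
    induction L with
    | nil =>
      intro V hV
      have : V = .nil := comps_inj hV
      rw [this, cont_nil]
      rfl
    | cons A L ih =>
      intro V hV
      cases V with
      | nil => exact absurd hV (by simp [comps])
      | node u C D =>
        have hV' : C :: comps D = A :: L := hV
        rw [List.cons.injEq] at hV'
        change (cont (C △ D)).count 1 = _
        rw [cont_node, Multiset.count_add, ih D hV'.2, hV'.1, List.map_cons, List.sum_cons]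
  rw [key _ U e]
  have z : ∀ A : BinaryTree Unit, lo 0 A = 0 → (raise (cont A)).count 1 = 0 := by
    intro A hA
    rw [Multiset.count_eq_zero]
    intro h1
    unfold lo at hA
    rw [Multiset.card_eq_zero, Multiset.filter_eq_nil] at hA
    exact hA 1 h1 (by norm_num)
  have zs : ∀ L : List (BinaryTree Unit), (∀ A ∈ L, lo 0 A = 0) →
      (L.map (fun A => (raise (cont A)).count 1)).sum = 0 := by
    intro L hL
    rw [List.sum_eq_zero_iff]
    intro x hx
    obtain ⟨A, hA, rfl⟩ := List.mem_map.1 hx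
    exact z A (hL A hA)
  have zn : (raise (cont (.nil : BinaryTree Unit))).count 1 = 1 := by
    rw [cont_nil, raise_zero, Multiset.count_singleton_self]
  rw [List.map_append, List.sum_append, zs P (fun A hA => hPQ A (by simp [hA])), List.map_cons,
    List.map_cons, List.map_cons, List.sum_cons, List.sum_cons, List.sum_cons,
    zs Q (fun A hA => hPQ A (by simp [hA])), zn]

end Pool.OddHC
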