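import Pool.Agent.Work.MP_8f87b2_h13.TyRq
import Pool.Agent.Work.MP_8f87b2_h89.R3T
import Pool.Agent.Work.MP_8f87b2_h89.R3I
import Pool.Agent.Work.MP_8f87b2_h89.R3D

/-!
# MP_8f87b2_co: the right windows TyRq q, every q, against S5 and T

The words as lists of components (`rq`), data `RqD` (only the parts, the top and the square of the node).
-/

set_option autoImplicit false
set_option linter.all false

namespace Pool.OddHC

open Finset Equiv BinaryTree Pool.Agent.Work.MP_8f87b2_co HM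

variable {k : ℕ} {F F' : Set (Cyc k)} {g g' : DG k} {q : ℕ} {R B S U : BinaryTree Unit}

/-- the data of a right window which are used here -/
structure RqD (q : ℕ) (R B S : BinaryTree Unit) : Prop where
  hR : Hv q R
  hB : Hv q B
  hS : Hv q S
  top : q + 3 < ht R
  topS : q + 3 < ht S

theorem HM.NodeM.rqd (h : NodeM k q R B S) : RqD q R B S where
  hR := h.part
  hB := fun x hx => h.part x (by rw [← h.eq]; exact Multiset.mem_add.2 (Or.inl hx))
  hS := fun x hx => h.part x (by rw [← h.eq]; exact Multiset.mem_add.2 (Or.inr hx))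
  top := h.top
  topS := by
    have h1 := h.dat.htS
    have h2 := h.top
    omega

theorem RqD.R0 (h : RqD q R B S) : R ≠ .nil := by
  rintro rfl
  have := h.top
  rw [ht] at this
  omega

theorem RqD.S0 (h : RqD q R B S) : S ≠ .nil := by
  rintro rfl
  have := h.topS
  rw [ht] at this
  omega

/-- the components of the right words -/
def rq (q : ℕ) (R B S : BinaryTree Unit) : ℕ → List (BinaryTree Unit)
  | 0 => comps R ++ [pc (q + 2)]
  | 1 => comps R ++ [.nil, pc q, .nil]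
  | 2 => .nil :: (comps R ++ [.nil, pc q])
  | 3 => [app R (.nil △ pc (q + 1))]
  | 4 => (pc q △ (.nil △ .nil)) :: comps R
  | 5 => pc (q + 1) :: .nil :: comps R
  | 6 => [R, pc (q + 1)]
  | 7 => [pc q, .nil △ R]
  | 8 => [pc q, .nil, R]
  | 9 => [R △ .nil, pc q]
  | 10 => comps B ++ (pc (q + 2) :: comps S)
  | 11 => comps B ++ (.nil :: pc q :: .nil :: comps S)
  | 12 => S :: (comps B ++ [.nil, pc q])
  | 13 => comps S ++ [app B (.nil △ pc (q + 1))]
  | 14 => (pc q △ (.nil △ S)) :: comps B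
  | 15 => pc (q + 1) :: S :: comps B
  | 16 => comps S ++ [B, pc (q + 1)]
  | 17 => [pc q, S △ B]
  | 18 => pc q :: .nil :: (comps S ++ [B])
  | _ => [app S (B △ .nil), pc q]

theorem comps_rq {i : ℕ} (hi : i < 20) : comps (H1.W R (pc (q + 1)) B S i) = rq q R B S i := by
  have e1 : pc (q + 1) = pc q △ .nil := rfl
  have e2 : pc (q + 2) = (pc q △ .nil) △ .nil := rfl
  interval_cases i <;> simp [H1.W, rq, comps_node, comps_app, comps, e1, e2, app]

theorem rq_nb0 (hq : 1 ≤ q) (h : RqD q R B S) {i : ℕ} (hi : i < 20) : nb0 (rq q R B S i) ≤ 2 := by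
  obtain ⟨q, rfl⟩ : ∃ m, q = m + 1 := ⟨q - 1, by omega⟩
  have hR := nb0_hv h.hR
  have hB := nb0_hv h.hB
  have hS := nb0_hv h.hS
  have R0 := H1.isNil_f.2 h.R0
  have S0 := H1.isNil_f.2 h.S0
  have aR : ∀ Y, H1.isNil (app R Y) = false := fun Y => H1.isNil_f.2 (H1.app_ne' h.R0)
  have aS : ∀ Y, H1.isNil (app S Y) = false := fun Y => H1.isNil_f.2 (H1.app_ne' h.S0)
  have hb : ∀ X : BinaryTree Unit, (if H1.isNil X = true then 1 else 0) ≤ 1 := fun X => by split <;> omega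
  have h2 := hb B
  have h5 := hb (app B (.nil △ pc (q + 1 + 1)))
  have n0 : ∀ X Y : BinaryTree Unit, H1.isNil (X △ Y) = false := fun _ _ => rfl
  have n1 : H1.isNil (.nil : BinaryTree Unit) = true := rfl
  have n2 : ∀ n : ℕ, H1.isNil (pc (n + 1)) = false := fun _ => rfl
  have n3 : ∀ n : ℕ, H1.isNil (pc (n + 1 + 1)) = false := fun _ => rfl
  have n4 : ∀ n : ℕ, H1.isNil (pc (n + 1 + 2)) = false := fun _ => rfl
  interval_cases i <;> simp only [rq, nb0_cons, nb0_app, nb0_nil, hR, hB, hS, n0, n1, n2, n3, n4, R0, S0, aR, aS] <;>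
    simp <;> omega

/-- no component is `()()...` -/
theorem rq_two (hq : 1 ≤ q) (h : RqD q R B S) {i : ℕ} (hi : i < 20) (X : BinaryTree Unit) :
    (.nil △ (.nil △ X)) ∉ rq q R B S i := by
  obtain ⟨q, rfl⟩ : ∃ m, q = m + 1 := ⟨q - 1, by omega⟩
  have hm : ∀ {Y : BinaryTree Unit}, Hv (q + 1) Y → ∀ Z, (.nil △ Z) ∉ comps Y → (.nil △ (.nil △ X)) ∉ comps Y := by
    intro Y hY Z _ hx
    have h1 := hY.all _ hx
    unfold lo at h1
    rw [Multiset.card_eq_zero, Multiset.filter_eq_nil] at h1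
    have h3 : (1 : ℕ) ∈ raise (cont (.nil △ (.nil △ X))) := by
      rw [cont_node, cont_node, cont_nil, raise_zero]
      unfold raise
      rw [Multiset.mem_cons]
      right
      have h4 : (1 : ℕ) ∈ ({1} + cont X : Multiset ℕ) := by simp
      by_cases h5 : ({1} + ({1} + cont X) : Multiset ℕ).sup = 1
      · rw [h5, Multiset.singleton_add, Multiset.erase_cons_head]
        exact h4
      · rw [Multiset.mem_erase_of_ne (fun e => h5 e.symm)]
        simp
    exact h1 1 h3 (by omega)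
  have hm' : ∀ {Y : BinaryTree Unit}, Hv (q + 1) Y → (.nil △ (.nil △ X)) ∉ comps Y := by
    intro Y hY
    by_cases hz : (.nil △ .nil) ∈ comps Y
    · exfalso
      exact lo_ne_pc (hY.all _ hz) (show 1 < q + 1 + 2 by omega) rfl
    · exact hm hY .nil hz
  have mR := hm' h.hR
  have mB := hm' h.hB
  have mS := hm' h.hS
  have sR := fun Y => (h.hR.ne_bd Y).symm
  have sB := fun Y => (h.hB.ne_bd Y).symm
  have sS := fun Y => (h.hS.ne_bd Y).symm
  have tR := fun Y Z => (h.hR.app_ne_bd h.R0 Y Z).symm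
  have tS := fun Y Z => (h.hS.app_ne_bd h.S0 Y Z).symm
  have R0 := h.R0
  have S0 := h.S0
  have p1 : ∀ n : ℕ, pc (n + 1) = pc n △ .nil := fun _ => rfl
  have p2 : ∀ n : ℕ, pc (n + 1 + 2) = (pc (n + 1) △ .nil) △ .nil := fun _ => rfl
  by_cases hB : B = .nil
  · subst hB
    interval_cases i <;> simp [rq, mR, mS] <;>
      simp [p1, p2, app, sR, sS, tR, tS, R0, S0, R0.symm, S0.symm, comps]
  · have tB := fun Y Z => (h.hB.app_ne_bd hB Y Z).symm
    interval_cases i <;> simp [rq, mR, mB, mS] <;>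
      simp [p1, p2, app, sR, sB, sS, tR, tB, tS, R0, S0, R0.symm, S0.symm, hB]

/-- the three words of `tri((), [s]()^n, (()))`, `q ≥ 1` -/
theorem rq_K22 (hq : 1 ≤ q) (h : RqD q R B S) {i s n : ℕ} (hi : i < 20) (hs : 3 ≤ s) (hn : 2 ≤ n) :
    H1.W R (pc (q + 1)) B S i ≠ w1 (lp 1) (app (H1.ch s) (lp n)) (H1.ch 2) ∧
    H1.W R (pc (q + 1)) B S i ≠ w1 (app (H1.ch s) (lp n)) (H1.ch 2) (lp 1) ∧
    H1.W R (pc (q + 1)) B S i ≠ w1 (H1.ch 2) (lp 1) (app (H1.ch s) (lp n)) := by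
  have hnb := rq_nb0 hq h hi
  obtain ⟨q, rfl⟩ : ∃ m, q = m + 1 := ⟨q - 1, by omega⟩
  obtain ⟨r, R1, hr, hr0⟩ := h.hR.cons h.R0
  obtain ⟨s0, S1, hs', hs0⟩ := h.hS.cons h.S0
  obtain ⟨s, rfl⟩ : ∃ m, s = m + 3 := ⟨s - 3, by omega⟩
  have hr1 := lo_ne_nil hr0
  have hs1 := lo_ne_nil hs0
  have hr2 := lo_ne_pc hr0 (show 1 < q + 1 + 2 by omega)
  have hs2 := lo_ne_pc hs0 (show 1 < q + 1 + 2 by omega)
  have fR := h.hR.ne_bd
  have fS := h.hS.ne_bd
  have R0 := h.R0
  have S0 := h.S0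
  have e1' : comps (lp 1) = [.nil] := rfl
  have e1'' : lp 1 = .nil △ .nil := rfl
  have c3 : comps (H1.ch 2) = [.nil △ .nil] := rfl
  have c4 : comps (H1.ch (s + 3)) = [(H1.ch (s + 1)) △ .nil] := rfl
  have p1 : ∀ n : ℕ, pc (n + 1) = pc n △ .nil := fun _ => rfl
  have p2 : ∀ n : ℕ, pc (n + 1 + 2) = (pc (n + 1) △ .nil) △ .nil := fun _ => rfl
  rw [p1] at hr2 hs2
  have p0 : pc 0 = .nil := rfl
  rw [p0] at hr2 hs2
  have nl : nb0 (comps (lp n)) = n := nb0_lp n
  have ni : ∀ X Y : BinaryTree Unit, H1.isNil (X △ Y) = false := fun _ _ => rfl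
  have n1 : H1.isNil (.nil : BinaryTree Unit) = true := rfl
  refine ⟨?_, ?_, ?_⟩
  · intro e
    have e3 := congrArg comps e
    rw [comps_rq hi, comps_w1, e1', c3] at e3
    have e4 := congrArg List.length e3
    by_cases hB : B = .nil
    · subst hB
      interval_cases i <;>
        simp [rq, hr, hs', comps, hr1, hs1, R0, S0, p1, p2] at e3 e4
    · obtain ⟨b, B1, hb, hb0⟩ := h.hB.cons hB
      have hb1 := lo_ne_nil hb0
      interval_cases i <;>
        simp [rq, hr, hs', hb, comps, hr1, hs1, hb1, R0, S0, p1, p2] at e3 e4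
  · intro e
    have e3 := congrArg comps e
    rw [comps_rq hi, comps_w1, comps_app, e1', c4] at e3
    rw [e3] at hnb
    simp only [nb0_cons, nb0_app, nl, nb0_nil, ni, n1, H1.ch, List.cons_append, List.nil_append] at hnb
    simp at hnb
    omega
  · intro e
    have e3 := congrArg comps e
    rw [comps_rq hi, comps_w1, comps_app, c3, c4, e1''] at e3
    rw [e3] at hnb
    by_cases hB : B = .nil
    · subst hB
      interval_cases i <;>
        simp [rq, hr, hs', comps, hr1, hs1, hr2, hs2, fS, R0, S0, p1, p2] at e3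
    · obtain ⟨b, B1, hb, hb0⟩ := h.hB.cons hB
      have hb1 := lo_ne_nil hb0
      have hb2 := lo_ne_pc hb0 (show 1 < q + 1 + 2 by omega)
      rw [p1, p0] at hb2
      interval_cases i <;>
        simp [rq, hr, hs', hb, comps, hr1, hs1, hr2, hs2, hb1, hb2, fS, R0, S0, p1, p2] at e3

/-- **S5**: no word of a link S5 is a right word, every `q` -/
theorem HM.NodeM.rq_S5 (h : NodeM k q R B S) (w0 : X k) {i : ℕ} (hi : i < 20) (h' : TyS5 F' g') :
    H1.wX R B S q w0 i ∉ g'.B := by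
  rcases Nat.eq_zero_or_pos q with rfl | hq
  · exact h.r_S5 w0 hi h'
  have ha := h.rqd
  have hw : comps (H1.wX R B S q w0 i).1 = rq q R B S i := by rw [h.rW w0 hi, comps_rq hi]
  have hn := rq_nb0 hq ha hi
  have two := rq_two hq ha hi
  obtain ⟨s, n, hs, hn2, ht | ht | ht⟩ := h'
  · refine tri_not ht ?_ ?_ ?_ <;> intro e
    · rw [e, comps_w1] at hw
      rw [← hw, nb0_app, nb0_lp] at hn
      omega
    · rw [e, comps_w1] at hw
      rw [← hw, nb0_app, nb0_cons, nb0_lp] at hn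
      omega
    · rw [e, comps_w1] at hw
      apply two (lp n)
      rw [← hw]
      change lp (n + 2) ∈ _
      simp
  · refine tri_not ht ?_ ?_ ?_ <;> intro e
    · rw [e, comps_w1] at hw
      rw [← hw, nb0_app, nb0_cons, nb0_lp] at hn
      omega
    · rw [e, comps_w1] at hw
      apply two (lp n)
      rw [← hw]
      change lp (n + 2) ∈ _
      simp
    · rw [e, comps_w1] at hw
      rw [← hw, nb0_app, nb0_lp] at hn
      omega
  · obtain ⟨c1, c2, c3⟩ := rq_K22 hq ha hi hs hn2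
    rw [← h.rW w0 hi] at c1 c2 c3
    exact tri_not ht c1 c2 c3

theorem TyRq.disj_S5 (h : TyRq q F g) (h' : TyS5 F' g') : ∀ w ∈ g.B, w ∉ g'.B := by
  obtain ⟨R, B, S, w0, h1, hne, rfl, rfl⟩ := h
  intro w hw
  obtain ⟨i, hi, rfl⟩ := mem_gad20.1 hw
  exact h1.rq_S5 w0 hi h'

theorem TySq.disj_S5 (h : TySq q F g) (h' : TyS5 F' g') : ∀ w ∈ g.B, w ∉ g'.B := by
  obtain ⟨R, B, S, w0, h1, hne, -, -, rfl, rfl⟩ := h
  intro w hw
  obtain ⟨i, hi, -, rfl⟩ := memR_gadS.1 hw
  exact h1.rq_S5 w0 hi h'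

theorem TyRq.inner_S5 (h : TyRq q F g) (h' : TyS5 F' g') : ∀ p ∈ g.arcs, ∀ w ∈ innA p, w ∉ g'.B := by
  intro p hp w hw
  exact (h.innP p hp w hw).1.not_S5R h'

theorem TySq.inner_S5 (h : TySq q F g) (h' : TyS5 F' g') : ∀ p ∈ g.arcs, ∀ w ∈ innA p, w ∉ g'.B := by
  intro p hp w hw
  exact (h.innP p hp w hw).1.not_S5R h'

end Pool.OddHC
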