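import Pool.Agent.Work.MP_8f87b2_h89.RqW
import Pool.Agent.Work.MP_8f87b2_h13.R3X

/-!
# MP_8f87b2_co: the right windows TyRq q, TySq q, every q, against the content links `TyC' 2 U`
(host `[2](U)`, new words `[3]U`, `U()[2]`)
-/

set_option autoImplicit false
set_option linter.all false

namespace Pool.OddHC

open Finset Equiv BinaryTree Pool.Agent.Work.MP_8f87b2_co HM

variable {k : ℕ} {F F' : Set (Cyc k)} {g g' : DG k} {q : ℕ} {R B S U : BinaryTree Unit}

/-- the exceptional `U` -/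
def ExU (q : ℕ) (R B S U : BinaryTree Unit) : Prop :=
  (q = 1 ∧ (U = .nil △ R ∨ U = S △ B)) ∨
  (q = 2 ∧ (U = (.nil △ R) △ .nil ∨ U = .nil △ (R △ .nil) ∨ U = (S △ B) △ .nil ∨
    U = .nil △ app S (B △ .nil)))

theorem clq0 (hq : 1 ≤ q) (h : RqD q R B S) {i : ℕ} (hi : i < 20) (hU : 3 ≤ ht U)
    (e : rq q R B S i = [.nil △ .nil, U]) : ExU q R B S U := by
  obtain ⟨q, rfl⟩ : ∃ m, q = m + 1 := ⟨q - 1, by omega⟩
  obtain ⟨r, R1, hr, hr0⟩ := h.hR.cons h.R0
  obtain ⟨s0, S1, hs', hs0⟩ := h.hS.cons h.S0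
  have hr1 := lo_ne_nil hr0
  have hs1 := lo_ne_nil hs0
  have hr2 := lo_ne_pc hr0 (show 1 < q + 1 + 2 by omega)
  have hs2 := lo_ne_pc hs0 (show 1 < q + 1 + 2 by omega)
  have R0 := h.R0
  have S0 := h.S0
  have u1 : U ≠ .nil := by rintro rfl; rw [ht] at hU; omega
  have p0 : pc 0 = .nil := rfl
  have p1 : ∀ n : ℕ, pc (n + 1) = pc n △ .nil := fun _ => rfl
  have p2 : ∀ n : ℕ, pc (n + 1 + 2) = (pc (n + 1) △ .nil) △ .nil := fun _ => rfl
  have happ : ∀ P A Y : BinaryTree Unit, app P (A △ Y) ≠ .nil := fun P A Y => app_ne' (by simp)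
  have fR := h.hR.ne_bd
  have fS := h.hS.ne_bd
  have gS := fun Y => h.hS.app_ne_bd h.S0 Y
  rw [p1, p0] at hr2 hs2
  have e4 := congrArg List.length e
  by_cases hB : B = .nil
  · subst hB
    interval_cases i <;>
      simp [rq, hr, hs', comps, hr1, hs1, hr2, hs2, R0, S0, p1, p2, u1, u1.symm, happ, fR, fS, gS] at e e4
    · exact Or.inl ⟨by have := pc_z e.1; omega, Or.inl e.2.symm⟩
    · exact Or.inl ⟨by have := pc_z e.1; omega, Or.inr e.2.symm⟩
  · obtain ⟨b, B1, hb, hb0⟩ := h.hB.cons hB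
    have hb1 := lo_ne_nil hb0
    have hb2 := lo_ne_pc hb0 (show 1 < q + 1 + 2 by omega)
    rw [p1, p0] at hb2
    interval_cases i <;>
      simp [rq, hr, hs', hb, comps, hr1, hs1, hb1, hr2, hs2, hb2, R0, S0, p1, p2, u1, u1.symm, happ, fR, fS, gS] at e e4
    · exact Or.inl ⟨by have := pc_z e.1; omega, Or.inl e.2.symm⟩
    · exact Or.inl ⟨by have := pc_z e.1; omega, Or.inr e.2.symm⟩

theorem clq1 (hq : 1 ≤ q) (h : RqD q R B S) {i : ℕ} (hi : i < 20) (hU : 3 ≤ ht U)
    (e : rq q R B S i = comps U ++ [.nil, .nil △ .nil]) : ExU q R B S U := by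
  obtain ⟨q, rfl⟩ : ∃ m, q = m + 1 := ⟨q - 1, by omega⟩
  obtain ⟨R2, r', hr', hr0'⟩ := h.hR.snoc h.R0
  obtain ⟨S2, s1, hs1, hs0'⟩ := h.hS.snoc h.S0
  have hr1 := lo_ne_nil hr0'
  have hs2 := lo_ne_nil hs0'
  have hr2 := lo_ne_pc hr0' (show 1 < q + 1 + 2 by omega)
  have hs3 := lo_ne_pc hs0' (show 1 < q + 1 + 2 by omega)
  have R0 := h.R0
  have S0 := h.S0
  have u1 : U ≠ .nil := by rintro rfl; rw [ht] at hU; omega
  have u2 : comps U ≠ [] := comps_ne u1
  have p0 : pc 0 = .nil := rfl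
  have p1 : ∀ n : ℕ, pc (n + 1) = pc n △ .nil := fun _ => rfl
  have p2 : ∀ n : ℕ, pc (n + 1 + 2) = (pc (n + 1) △ .nil) △ .nil := fun _ => rfl
  have happ : ∀ P A Y : BinaryTree Unit, app P (A △ Y) ≠ .nil := fun P A Y => app_ne' (by simp)
  have fR := h.hR.ne_bd
  have fS := h.hS.ne_bd
  have gS := fun Y => h.hS.app_ne_bd h.S0 Y
  rw [p1, p0] at hr2 hs3
  have e4 := congrArg List.reverse e
  have e0 := e
  by_cases hB : B = .nil
  · subst hB
    interval_cases i <;>
      simp [rq, hr', hs1, comps, hr1, hs2, hr2, hs3, R0, S0, p1, p2, u1, u1.symm, u2, u2.symm, happ, fR, fS, gS] at e4 <;>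
      simp only [rq] at e0
    · have hq0 := pc_z e4.1
      subst hq0
      refine Or.inl ⟨rfl, Or.inl (comps_inj ?_)⟩
      have e5 : (.nil :: comps R) ++ [.nil, .nil △ .nil] = comps U ++ [.nil, .nil △ .nil] := e0
      exact (List.append_cancel_right e5).symm
    · have hq0 := pc_z e4.1
      subst hq0
      refine Or.inl ⟨rfl, Or.inr (comps_inj ?_)⟩
      have e5 : (S :: comps .nil) ++ [.nil, .nil △ .nil] = comps U ++ [.nil, .nil △ .nil] := e0
      exact (List.append_cancel_right e5).symm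
  · obtain ⟨B2, b', hb', hb0'⟩ := h.hB.snoc hB
    have hb1 := lo_ne_nil hb0'
    have hb2 := lo_ne_pc hb0' (show 1 < q + 1 + 2 by omega)
    rw [p1, p0] at hb2
    interval_cases i <;>
      simp [rq, hr', hs1, hb', comps, hr1, hs2, hb1, hr2, hs3, hb2, R0, S0, p1, p2, u1, u1.symm, u2, u2.symm, happ, fR, fS, gS] at e4 <;>
      simp only [rq] at e0
    · have hq0 := pc_z e4.1
      subst hq0
      refine Or.inl ⟨rfl, Or.inl (comps_inj ?_)⟩
      have e5 : (.nil :: comps R) ++ [.nil, .nil △ .nil] = comps U ++ [.nil, .nil △ .nil] := e0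
      exact (List.append_cancel_right e5).symm
    · have hq0 := pc_z e4.1
      subst hq0
      refine Or.inl ⟨rfl, Or.inr (comps_inj ?_)⟩
      have e5 : (S :: comps B) ++ [.nil, .nil △ .nil] = comps U ++ [.nil, .nil △ .nil] := e0
      exact (List.append_cancel_right e5).symm

theorem clq2 (hq : 1 ≤ q) (h : RqD q R B S) {i : ℕ} (hi : i < 20) (hU : 3 ≤ ht U)
    (e : rq q R B S i = ((.nil △ .nil) △ .nil) :: comps U) : ExU q R B S U := by
  obtain ⟨q, rfl⟩ : ∃ m, q = m + 1 := ⟨q - 1, by omega⟩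
  obtain ⟨r, R1, hr, hr0⟩ := h.hR.cons h.R0
  obtain ⟨s0, S1, hs', hs0⟩ := h.hS.cons h.S0
  have hr1 := lo_ne_nil hr0
  have hs1 := lo_ne_nil hs0
  have hr2 := lo_ne_pc hr0 (show 2 < q + 1 + 2 by omega)
  have hs2 := lo_ne_pc hs0 (show 2 < q + 1 + 2 by omega)
  have R0 := h.R0
  have S0 := h.S0
  have u1 : U ≠ .nil := by rintro rfl; rw [ht] at hU; omega
  have u2 : comps U ≠ [] := comps_ne u1
  have p0 : pc 0 = .nil := rfl
  have p1 : ∀ n : ℕ, pc (n + 1) = pc n △ .nil := fun _ => rfl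
  have p2 : ∀ n : ℕ, pc (n + 1 + 2) = (pc (n + 1) △ .nil) △ .nil := fun _ => rfl
  have p3 : pc 2 = (.nil △ .nil) △ .nil := rfl
  have happ : ∀ P A Y : BinaryTree Unit, app P (A △ Y) ≠ .nil := fun P A Y => app_ne' (by simp)
  have fR := h.hR.ne_bd
  have fS := h.hS.ne_bd
  have gS := fun Y => h.hS.app_ne_bd h.S0 Y
  rw [p3] at hr2 hs2
  have e4 := congrArg List.length e
  have e0 := e
  by_cases hB : B = .nil
  · subst hB
    interval_cases i <;>
      simp [rq, hr, hs', comps, hr1, hs1, hr2, hs2, R0, S0, p1, p2, u1, u1.symm, u2, u2.symm, happ, fR, fS, gS] at e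
    · refine Or.inl ⟨by have := pc_z e.1; omega, Or.inl (comps_inj ?_)⟩
      rw [← e.2, ← hr]
      rfl
    · exfalso
      have h5 := h.top
      rw [e.1] at h5
      simp [ht] at h5
    · refine Or.inr ⟨by have := pc_o e.1; omega, Or.inl (comps_inj ?_)⟩
      rw [← e.2]
      rfl
    · refine Or.inr ⟨by have := pc_o e.1; omega, Or.inr (Or.inl (comps_inj ?_))⟩
      rw [← e.2]
      rfl
    · exfalso
      have h5 := h.topS
      rw [e.1] at h5
      simp [ht] at h5
    · refine Or.inl ⟨by have := pc_z e.1; omega, Or.inr (comps_inj ?_)⟩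
      rw [← e.2]
      rfl
    · refine Or.inr ⟨by have := pc_o e.1; omega, Or.inr (Or.inr (Or.inl (comps_inj ?_)))⟩
      rw [← e.2]
      rfl
    · refine Or.inr ⟨by have := pc_o e.1; omega, Or.inr (Or.inr (Or.inr (comps_inj ?_)))⟩
      rw [← e.2, comps_node, comps_app, hs']
      rfl
    · exfalso
      have h5 := h.topS
      have h6 : ht (app S (.nil △ .nil)) = 2 := by
        rw [e.1]
        rfl
      rw [ht_app] at h6
      omega
  · obtain ⟨b, B1, hb, hb0⟩ := h.hB.cons hB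
    have hb1 := lo_ne_nil hb0
    have hb2 := lo_ne_pc hb0 (show 2 < q + 1 + 2 by omega)
    rw [p3] at hb2
    interval_cases i <;>
      simp [rq, hr, hs', hb, comps, hr1, hs1, hb1, hr2, hs2, hb2, R0, S0, p1, p2, u1, u1.symm, u2, u2.symm, happ, fR, fS, gS] at e
    · refine Or.inl ⟨by have := pc_z e.1; omega, Or.inl (comps_inj ?_)⟩
      rw [← e.2, ← hr]
      rfl
    · exfalso
      have h5 := h.top
      rw [e.1] at h5
      simp [ht] at h5
    · refine Or.inr ⟨by have := pc_o e.1; omega, Or.inl (comps_inj ?_)⟩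
      rw [← e.2]
      rfl
    · refine Or.inr ⟨by have := pc_o e.1; omega, Or.inr (Or.inl (comps_inj ?_))⟩
      rw [← e.2]
      rfl
    · exfalso
      have h5 := h.topS
      rw [e.1] at h5
      simp [ht] at h5
    · refine Or.inl ⟨by have := pc_z e.1; omega, Or.inr (comps_inj ?_)⟩
      rw [← e.2, ← hb]
      rfl
    · refine Or.inr ⟨by have := pc_o e.1; omega, Or.inr (Or.inr (Or.inl (comps_inj ?_)))⟩
      rw [← e.2]
      rfl
    · refine Or.inr ⟨by have := pc_o e.1; omega, Or.inr (Or.inr (Or.inr (comps_inj ?_)))⟩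
      rw [← e.2, comps_node, comps_app, hs']
      rfl
    · exfalso
      have h5 := h.topS
      have h6 : ht (app S (B △ .nil)) = 2 := by
        rw [e.1]
        rfl
      rw [ht_app] at h6
      omega

/-- **Cl with `[2]`**: the common words of the link and a right window -/
theorem HM.NodeM.rq_Cl2 (hq : 1 ≤ q) (h : NodeM k q R B S) (w0 : X k) {i : ℕ} (hi : i < 20)
    (h' : TyC' 2 U F' g') (hU : 3 ≤ ht U) (hw : H1.wX R B S q w0 i ∈ g'.B) : ExU q R B S U := by
  have ha := h.rqd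
  have hw' : comps (H1.wX R B S q w0 i).1 = rq q R B S i := by rw [h.rW w0 hi, comps_rq hi]
  have f1 : comps (H1.ch 2) = [.nil △ .nil] := rfl
  have f2 : comps (.nil : BinaryTree Unit) = [] := rfl
  have f3 : H1.ch 2 = (.nil △ .nil) △ .nil := rfl
  rcases h'.words _ hw with e | ⟨-, e | e⟩
  · rw [e, comps_w1, f1, f2] at hw'
    exact clq0 hq ha hi hU hw'.symm
  · rw [e, comps_w1, f1] at hw'
    exact clq1 hq ha hi hU hw'.symm
  · rw [e, comps_w1, f2, List.nil_append, f3] at hw'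
    exact clq2 hq ha hi hU hw'.symm

/-- a clean `U` for the links `TyC' 2 U` -/
def ClC (U : BinaryTree Unit) : Prop :=
  ht U ≤ 3 ∨ 2 ∈ cont U ∨ 4 ≤ (cont U).count 1 ∨ ((cont U).count 1 = 3 ∧ NoT U) ∨
    (1 ∈ cont U ∧ H1.fb U = false ∧ (∀ A, U ≠ A △ .nil) ∧ NoT U)

theorem r3_up1 {n x : ℕ} {Y : BinaryTree Unit} (h : ∀ y ∈ cont Y, n ≤ y) (hx : x ∈ raise (cont Y))
    (h0 : Y ≠ .nil) : n ≤ x := by
  rcases r3_raise hx with h1 | h1
  · have := h _ (sup_mem (cont_ne h0))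
    omega
  · exact h x h1

/-- the exceptional `U` are not clean -/
theorem ExU.not (h : RqD q R B S) (hE : ExU q R B S U) : ¬ ClC U := by
  have hq : 1 ≤ q := by
    rcases hE with ⟨h1, _⟩ | ⟨h1, _⟩ <;> omega
  have pR : ∀ x ∈ cont R, 4 ≤ x := fun x hx => by have := h.hR x hx; omega
  have pB : ∀ x ∈ cont B, 4 ≤ x := fun x hx => by have := h.hB x hx; omega
  have pS : ∀ x ∈ cont S, 4 ≤ x := fun x hx => by have := h.hS x hx; omega
  have tR := h.top
  have tS := h.topS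
  have r1 : ∀ x ∈ raise (cont R), 4 ≤ x := fun x hx => r3_up1 pR hx h.R0
  have r2 : ∀ x ∈ raise (cont S), 4 ≤ x := fun x hx => r3_up1 pS hx h.S0
  have c1 : ∀ {M : Multiset ℕ}, (∀ x ∈ M, 4 ≤ x) → M.count 1 = 0 := by
    intro M hM
    rw [Multiset.count_eq_zero]
    intro h1
    have := hM 1 h1
    omega
  have s1 : ({1} : Multiset ℕ).count 1 = 1 := Multiset.count_singleton_self 1
  -- the parts are 1 or at least 4, at most two parts 1, height at least 4, no clean shape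
  have key : (∀ x ∈ cont U, x = 1 ∨ 4 ≤ x) ∧ (cont U).count 1 ≤ 2 ∧ 4 ≤ ht U ∧
      (1 ∈ cont U → H1.fb U = false → ∃ A, U = A △ .nil) := by
    rcases hE with ⟨-, rfl | rfl⟩ | ⟨-, rfl | rfl | rfl | rfl⟩
    · refine ⟨?_, ?_, ?_, ?_⟩
      · intro x hx
        rw [cont_node, cont_nil, raise_zero, Multiset.mem_add, Multiset.mem_singleton] at hx
        exact hx.imp id (pR x)
      · rw [cont_node, cont_nil, raise_zero, Multiset.count_add, s1, c1 pR]
        norm_num
      · simp only [ht]; omega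
      · intro _ hf
        exact absurd hf (by simp [H1.fb, H1.isNil])
    · refine ⟨?_, ?_, ?_, ?_⟩
      · intro x hx
        rw [cont_node, Multiset.mem_add] at hx
        exact Or.inr (hx.elim (r2 x) (pB x))
      · rw [cont_node, Multiset.count_add, c1 r2, c1 pB]
        norm_num
      · simp only [ht]; omega
      · intro h1 _
        rw [cont_node, Multiset.mem_add] at h1
        have := h1.elim (r2 1) (pB 1)
        omega
    · have hc : cont (.nil △ R) = {1} + cont R := by rw [cont_node, cont_nil, raise_zero]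
      have hsup : (cont (.nil △ R)).sup ≠ 1 := by
        rw [← OddHC.ht_eq]
        simp only [ht]
        omega
      have h5 : ∀ x ∈ raise (cont (.nil △ R)), x = 1 ∨ 4 ≤ x := by
        intro x hx
        rcases r3_raise hx with h1 | h1
        · rw [← OddHC.ht_eq] at h1
          simp only [ht] at h1
          omega
        · rw [hc, Multiset.mem_add, Multiset.mem_singleton] at h1
          exact h1.imp id (pR x)
      refine ⟨?_, ?_, ?_, ?_⟩
      · intro x hx
        rw [cont_node, cont_nil, add_zero] at hx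
        exact h5 x hx
      · rw [cont_node, cont_nil, add_zero]
        unfold raise
        rw [Multiset.count_cons_of_ne (by
          rw [← OddHC.ht_eq]
          simp only [ht]
          omega), Multiset.count_erase_of_ne hsup.symm, hc, Multiset.count_add, s1, c1 pR]
        norm_num
      · simp only [ht]; omega
      · intro _ _
        exact ⟨_, rfl⟩
    · refine ⟨?_, ?_, ?_, ?_⟩
      · intro x hx
        rw [cont_node, cont_node, cont_nil, raise_zero, add_zero, Multiset.mem_add, Multiset.mem_singleton] at hx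
        exact hx.imp id (r1 x)
      · rw [cont_node, cont_node, cont_nil, raise_zero, add_zero, Multiset.count_add, s1, c1 r1]
        norm_num
      · simp only [ht]; omega
      · intro _ hf
        exact absurd hf (by simp [H1.fb, H1.isNil])
    · have h5 : ∀ x ∈ cont (S △ B), 4 ≤ x := by
        intro x hx
        rw [cont_node, Multiset.mem_add] at hx
        exact hx.elim (r2 x) (pB x)
      have h6 : ∀ x ∈ raise (cont (S △ B)), 4 ≤ x := fun x hx => r3_up1 h5 hx (by simp)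
      refine ⟨?_, ?_, ?_, ?_⟩
      · intro x hx
        rw [cont_node, cont_nil, add_zero] at hx
        exact Or.inr (h6 x hx)
      · rw [cont_node, cont_nil, add_zero, c1 h6]
        norm_num
      · simp only [ht]; omega
      · intro _ _
        exact ⟨_, rfl⟩
    · have h7 : (∀ x ∈ raise (cont B), x = 1 ∨ 4 ≤ x) ∧ (raise (cont B)).count 1 ≤ 1 := by
        by_cases hB : B = .nil
        · rw [hB, cont_nil, raise_zero]
          refine ⟨?_, by rw [s1]⟩
          intro x hx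
          exact Or.inl (Multiset.mem_singleton.1 hx)
        · have h8 : ∀ x ∈ raise (cont B), 4 ≤ x := fun x hx => r3_up1 pB hx hB
          exact ⟨fun x hx => Or.inr (h8 x hx), by rw [c1 h8]; norm_num⟩
      refine ⟨?_, ?_, ?_, ?_⟩
      · intro x hx
        rw [cont_node, cont_nil, raise_zero, cont_app, cont_node, cont_nil, add_zero, Multiset.mem_add,
          Multiset.mem_singleton, Multiset.mem_add] at hx
        rcases hx with hx | hx | hx
        · exact Or.inl hx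
        · exact Or.inr (pS x hx)
        · exact h7.1 x hx
      · rw [cont_node, cont_nil, raise_zero, cont_app, cont_node, cont_nil, add_zero, Multiset.count_add,
          Multiset.count_add, s1, c1 pS]
        have := h7.2
        omega
      · simp only [ht, ht_app]; omega
      · intro _ hf
        exact absurd hf (by simp [H1.fb, H1.isNil])
  obtain ⟨k1, k2, k3, k4⟩ := key
  rintro (h1 | h1 | h1 | h1 | h1)
  · omega
  · have := k1 2 h1
    omega
  · omega
  · omega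
  · obtain ⟨A, hA⟩ := k4 h1.1 h1.2.1
    exact h1.2.2.1 A hA

/-- **row Rq - Cl2** -/
theorem TyRq.disj_Cl2 (h : TyRq q F g) (h' : TyC' 2 U F' g') (hU : 3 ≤ ht U) (hC : ClC U)
    (hd : ∀ c ∈ F, c ∉ F') : ∀ w ∈ g.B, w ∉ g'.B := by
  obtain ⟨R, B, S, w0, h1, hne, rfl, rfl⟩ := h
  intro w hw hw'
  obtain ⟨i, hi, rfl⟩ := mem_gad20.1 hw
  rcases Nat.eq_zero_or_pos q with rfl | hq
  · have hn : NoT U := by
      rcases hC with h2 | h2 | h2 | h2 | h2
      · exact Or.inl h2
      · right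
        intro P Q hPQ e
        obtain ⟨A, hA, hx⟩ := r3_comps h2
        rw [e] at hA
        have h3 : A = .nil ∨ lo 0 A = 0 := by
          rw [List.mem_append, List.mem_cons, List.mem_cons, List.mem_cons] at hA
          rcases hA with hA | hA | hA | hA | hA
          · exact Or.inr (hPQ A (by simp [hA]))
          · exact Or.inl hA
          · exact Or.inl hA
          · exact Or.inl hA
          · exact Or.inr (hPQ A (by simp [hA]))
        rcases h3 with h3 | h3
        · rw [h3, cont_nil, raise_zero, Multiset.mem_singleton] at hx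
          omega
        · unfold lo at h3
          rw [Multiset.card_eq_zero, Multiset.filter_eq_nil] at h3
          exact h3 2 hx (by norm_num)
      · exact noT_of_count (by omega)
      · exact h2.2
      · exact h2.2.2.2
    obtain ⟨-, -, -, h3, P, Q, h4, h5⟩ := h1.r_Cl h1.not_St3 (fun hh => absurd hh (by norm_num)) w0 hi h' (le_refl 2) (by norm_num) hU
      (fun hh => absurd hh (by norm_num)) (hd _ rfl) hw'
    rcases hn with h6 | h6
    · omega
    · exact h6 P Q h4 h5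
  · exact (h1.rq_Cl2 hq w0 hi h' hU hw').not h1.rqd hC

/-- **row Sq - Cl2** -/
theorem TySq.disj_Cl2 (h : TySq q F g) (h' : TyC' 2 U F' g') (hU : 3 ≤ ht U) (hC : 1 ≤ q → ClC U)
    (hd : ∀ c ∈ F, c ∉ F') : ∀ w ∈ g.B, w ∉ g'.B := by
  obtain ⟨R, B, S, w0, h1, hne, h12, h18, rfl, rfl⟩ := h
  intro w hw hw'
  obtain ⟨i, hi, h9, rfl⟩ := memR_gadS.1 hw
  rcases Nat.eq_zero_or_pos q with rfl | hq
  · obtain ⟨h2, h3, -⟩ := h1.r_Cl h1.not_St3 (fun hh => absurd hh (by norm_num)) w0 hi h' (le_refl 2)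
      (by norm_num) hU (fun hh => absurd hh (by norm_num)) (hd _ (Or.inl rfl)) hw'
    have h4 : cyc (H1.wX R B S 0 w0 i) = cyc (H1.wX R B S 0 w0 1) := by
      rcases h2 with rfl | rfl
      · rfl
      · exact (cyc_eq.2 (h1.rsame11 w0)).symm
    rw [h4] at h3
    exact hd _ (Or.inr (Or.inl rfl)) h3
  · exact (h1.rq_Cl2 hq w0 hi h' hU hw').not h1.rqd (hC hq)

/-! ### Inner words -/

/-- **Cr** -/
theorem TyRq.inner_Cr {c : ℕ} (h : TyRq q F g) (h' : TyC c U F' g') (hc : 1 ≤ c) (hv : H1.vb 0 U)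
    (hp : ∀ x ∈ cont U, x = 1 ∨ c + 1 ≤ x) (hS : c + 1 ≤ OddHC.ht U) (hd : ∀ c ∈ F, c ∉ F')
    (hh : ∀ c ∈ F, ∀ d ∈ F', htc c ≤ htc d) : ∀ p ∈ g.arcs, ∀ w ∈ innA p, w ∉ g'.B := by
  intro p hp' w hw
  obtain ⟨h2, h3 | h3⟩ := h.innP p hp' w hw
  · exact IsTri.not_of_cyc h' h3 hd hh
  · exact h2.not_C h3 h' hc hv hp hS

/-- **Cl** -/
theorem TyRq.inner_Cl {c : ℕ} (h : TyRq q F g) (h' : TyC' c U F' g') (hc : 1 ≤ c) (hv : H1.vb 0 U)
    (hp : ∀ x ∈ cont U, x = 1 ∨ c + 1 ≤ x) (hS : c + 1 ≤ OddHC.ht U) (hd : ∀ c ∈ F, c ∉ F')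
    (hh : ∀ c ∈ F, ∀ d ∈ F', htc c ≤ htc d) : ∀ p ∈ g.arcs, ∀ w ∈ innA p, w ∉ g'.B := by
  intro p hp' w hw
  obtain ⟨h2, h3 | h3⟩ := h.innP p hp' w hw
  · exact IsTri.not_of_cyc h' h3 hd hh
  · exact h2.not_C' h3 h' hc hv hp hS

/-- **Cl**, `c = 2`, `U` ends light (`.. 1 0^n`, `n ≤ 2`) -/
theorem TyRq.inner_Cl2 (h : TyRq q F g) (h' : TyC' 2 U F' g') {n : ℕ} {v : List Bool} (hn : n ≤ 2)
    (hS : wd U = v ++ true :: List.replicate n false) : ∀ p ∈ g.arcs, ∀ w ∈ innA p, w ∉ g'.B := by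
  intro p hp w hw
  exact (h.innP p hp w hw).1.not_Cl2 h' hn hS

/-- **Cr**, `c = 2`, `U` starts light (`1^n 0 ..`, `n ≤ 2`) -/
theorem TyRq.inner_Cr2 (h : TyRq q F g) (h' : TyC 2 U F' g') {n : ℕ} {v : List Bool} (hn : n ≤ 2)
    (hS : wd U = List.replicate n true ++ false :: v) : ∀ p ∈ g.arcs, ∀ w ∈ innA p, w ∉ g'.B := by
  intro p hp w hw
  exact (h.innP p hp w hw).1.not_Cr2 h' hn hS

/-- **Cr** -/
theorem TySq.inner_Cr {c : ℕ} (h : TySq q F g) (h' : TyC c U F' g') (hc : 1 ≤ c) (hv : H1.vb 0 U)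
    (hp : ∀ x ∈ cont U, x = 1 ∨ c + 1 ≤ x) (hS : c + 1 ≤ OddHC.ht U) :
    ∀ p ∈ g.arcs, ∀ w ∈ innA p, w ∉ g'.B := by
  intro p hp' w hw
  obtain ⟨h2, h3⟩ := h.innP p hp' w hw
  exact h2.not_C h3 h' hc hv hp hS

/-- **Cl** -/
theorem TySq.inner_Cl {c : ℕ} (h : TySq q F g) (h' : TyC' c U F' g') (hc : 1 ≤ c) (hv : H1.vb 0 U)
    (hp : ∀ x ∈ cont U, x = 1 ∨ c + 1 ≤ x) (hS : c + 1 ≤ OddHC.ht U) :
    ∀ p ∈ g.arcs, ∀ w ∈ innA p, w ∉ g'.B := by
  intro p hp' w hw
  obtain ⟨h2, h3⟩ := h.innP p hp' w hw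
  exact h2.not_C' h3 h' hc hv hp hS

/-- **Cl**, `c = 2`, `U` ends light (`.. 1 0^n`, `n ≤ 2`) -/
theorem TySq.inner_Cl2 (h : TySq q F g) (h' : TyC' 2 U F' g') {n : ℕ} {v : List Bool} (hn : n ≤ 2)
    (hS : wd U = v ++ true :: List.replicate n false) : ∀ p ∈ g.arcs, ∀ w ∈ innA p, w ∉ g'.B := by
  intro p hp w hw
  exact (h.innP p hp w hw).1.not_Cl2 h' hn hS

/-- **Cr**, `c = 2`, `U` starts light (`1^n 0 ..`, `n ≤ 2`) -/
theorem TySq.inner_Cr2 (h : TySq q F g) (h' : TyC 2 U F' g') {n : ℕ} {v : List Bool} (hn : n ≤ 2)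
    (hS : wd U = List.replicate n true ++ false :: v) : ∀ p ∈ g.arcs, ∀ w ∈ innA p, w ∉ g'.B := by
  intro p hp w hw
  exact (h.innP p hp w hw).1.not_Cr2 h' hn hS

end Pool.OddHC
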