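import Pool.Agent.Work.MP_8f87b2_h89.RqC
import Pool.Agent.Work.MP_8f87b2_h69w.TyBw
import Pool.Agent.Work.MP_8f87b2_h63.WCont

/-!
# MP_8f87b2_co: the B-windows (marker `c >= 3`) against the content links (words)

`BwDt q R B S`: the data used. `TyBw.disj_Cl2` (`TyC' 2 U`, `ClC U`), `TyBw.disj_Cr` (`TyC c U`, `3 <= c`), `TyBw.disj_Cl`
(`TyC' c U`, `4 <= c`), DOWN (`TyC 2 U`).
-/

set_option autoImplicit false
set_option linter.all false

namespace Pool.OddHC

open Finset Equiv BinaryTree Pool.Agent.Work.MP_8f87b2_co HM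

variable {k : ℕ} {F F' : Set (Cyc k)} {g g' : DG k} {q : ℕ} {R B S U : BinaryTree Unit}

/-- the word with given components -/
def oflBw : List (BinaryTree Unit) → BinaryTree Unit
  | [] => .nil
  | A :: L => A △ oflBw L

theorem comps_oflBw (L : List (BinaryTree Unit)) : comps (oflBw L) = L := by
  induction L with
  | nil => rfl
  | cons A L ih => rw [oflBw, comps_node, ih]

/-- the data of a B-window which are used here -/
structure BwDt (q : ℕ) (R B S : BinaryTree Unit) : Prop where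
  q1 : 1 ≤ q
  hR : Hv 0 R
  hB : Hv q B
  hS : Hv 0 S
  top : q + 3 ≤ ht R
  topS : q + 3 ≤ ht S
  hcR : BW.hcp 4 R
  fS : ∀ Y, S ≠ pc 2 △ Y

theorem BwDt.R0 (h : BwDt q R B S) : R ≠ .nil := by
  rintro rfl
  have := h.top
  rw [ht] at this
  omega

theorem BwDt.S0 (h : BwDt q R B S) : S ≠ .nil := by
  rintro rfl
  have := h.topS
  rw [ht] at this
  omega

theorem BwDt.r2 (h : BwDt q R B S) {r : BinaryTree Unit} {L : List (BinaryTree Unit)} (e : comps R = r :: L) : r ≠ pc 2 := by
  rintro rfl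
  have h1 := h.hcR
  cases R with
  | nil => simp [comps] at e
  | node _ A C =>
    have e1 : A = pc 2 := by
      have e2 : A :: comps C = pc 2 :: L := e
      injection e2
    have h2 : 4 ≤ ht A + 1 := h1.1
    rw [e1, ht_pc] at h2
    omega

theorem BwDt.s2 (h : BwDt q R B S) {r : BinaryTree Unit} {L : List (BinaryTree Unit)} (e : comps S = r :: L) : r ≠ pc 2 := by
  rintro rfl
  cases S with
  | nil => simp [comps] at e
  | node _ A C =>
    have e1 : A = pc 2 := by
      have e2 : A :: comps C = pc 2 :: L := e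
      injection e2
    exact h.fS C (by rw [← e1])

theorem hcp_mono {n m : ℕ} {t : BinaryTree Unit} (hn : m ≤ n) (h : BW.hcp n t) : BW.hcp m t := by
  induction t with
  | nil => trivial
  | node _ A C _ ih =>
    change BW.hcp n (A △ C) at h
    change BW.hcp m (A △ C)
    rw [BW.hcp_node] at h ⊢
    exact ⟨by omega, ih h.2⟩

theorem NodeBw.bwd {c : ℕ} (h : NodeBw k c q R B S) (h3 : 3 ≤ c) : BwDt q R B S where
  q1 := by have := h.lt; omega
  hR := by
    intro x hx
    rcases h.part x hx with h1 | h1 <;> omega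
  hB := fun x hx => h.bare x hx
  hS := by
    intro x hx
    rcases h.partS x hx with h1 | h1 <;> omega
  top := h.top
  topS := by
    have h1 := h.dat.htS
    have h2 := h.top
    omega
  hcR := by
    have h1 := h.hcR
    have h2 := h.lt
    exact hcp_mono (by omega) h1
  fS := by
    intro Y e
    have hR : R ≠ .nil := by
      rintro rfl
      have := h.top
      rw [ht] at this
      omega
    obtain ⟨X, Y', e1, hX⟩ := sq_top13 R hR
    rw [h.sq] at e1
    change S = _ at e1
    rw [e] at e1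
    injection e1 with _ e2
    rw [← e2] at hX
    have h1 : Tsq.ht R = ht R := H1.ht_eq R
    have h2 := h.top
    have h3 : Tsq.ht (pc 2) = 2 := rfl
    have h4 := h.lt
    omega

theorem clb0 (h : BwDt q R B S) {i : ℕ} (hi : i < 20) (hU : 3 ≤ ht U)
    (e : rq q R B S i = [.nil △ .nil, U]) : ExU q R B S U := by
  have hq := h.q1
  obtain ⟨q, rfl⟩ : ∃ m, q = m + 1 := ⟨q - 1, by omega⟩
  obtain ⟨r, R1, hr, hr0⟩ := h.hR.cons h.R0
  obtain ⟨s0, S1, hs', hs0⟩ := h.hS.cons h.S0
  have hr1 := lo_ne_nil hr0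
  have hs1 := lo_ne_nil hs0
  have hr2 := lo_ne_pc hr0 (show 1 < 0 + 2 by omega)
  have hs2 := lo_ne_pc hs0 (show 1 < 0 + 2 by omega)
  have R0 := h.R0
  have S0 := h.S0
  have u1 : U ≠ .nil := by rintro rfl; rw [ht] at hU; omega
  have p0 : pc 0 = .nil := rfl
  have p1 : ∀ n : ℕ, pc (n + 1) = pc n △ .nil := fun _ => rfl
  have p2 : ∀ n : ℕ, pc (n + 1 + 2) = (pc (n + 1) △ .nil) △ .nil := fun _ => rfl
  have happ : ∀ P A Y : BinaryTree Unit, app P (A △ Y) ≠ .nil := fun P A Y => app_ne' (by simp)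
  have fR := h.hR.ne_bd
  have fS := h.hS.ne_bd
  have gS := fun Y => h.hS.app_ne_bd h.S0 Y
  rw [p1, p0] at hr2 hs2
  have e4 := congrArg List.length e
  by_cases hB : B = .nil
  · subst hB
    interval_cases i <;>
      simp [rq, hr, hs', comps, hr1, hs1, hr2, hs2, R0, S0, p1, p2, u1, u1.symm, happ, fR, fS, gS] at e e4
    · exact Or.inl ⟨by have := pc_z e.1; omega, Or.inl e.2.symm⟩
    · exact Or.inl ⟨by have := pc_z e.1; omega, Or.inr e.2.symm⟩
  · obtain ⟨b, B1, hb, hb0⟩ := h.hB.cons hB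
    have hb1 := lo_ne_nil hb0
    have hb2 := lo_ne_pc hb0 (show 1 < q + 1 + 2 by omega)
    rw [p1, p0] at hb2
    interval_cases i <;>
      simp [rq, hr, hs', hb, comps, hr1, hs1, hb1, hr2, hs2, hb2, R0, S0, p1, p2, u1, u1.symm, happ, fR, fS, gS] at e e4
    · exact Or.inl ⟨by have := pc_z e.1; omega, Or.inl e.2.symm⟩
    · exact Or.inl ⟨by have := pc_z e.1; omega, Or.inr e.2.symm⟩

theorem clb1 (h : BwDt q R B S) {i : ℕ} (hi : i < 20) (hU : 3 ≤ ht U)
    (e : rq q R B S i = comps U ++ [.nil, .nil △ .nil]) : ExU q R B S U := by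
  have hq := h.q1
  obtain ⟨q, rfl⟩ : ∃ m, q = m + 1 := ⟨q - 1, by omega⟩
  obtain ⟨R2, r', hr', hr0'⟩ := h.hR.snoc h.R0
  obtain ⟨S2, s1, hs1, hs0'⟩ := h.hS.snoc h.S0
  have hr1 := lo_ne_nil hr0'
  have hs2 := lo_ne_nil hs0'
  have hr2 := lo_ne_pc hr0' (show 1 < 0 + 2 by omega)
  have hs3 := lo_ne_pc hs0' (show 1 < 0 + 2 by omega)
  have R0 := h.R0
  have S0 := h.S0
  have u1 : U ≠ .nil := by rintro rfl; rw [ht] at hU; omega
  have u2 : comps U ≠ [] := comps_ne u1
  have p0 : pc 0 = .nil := rfl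
  have p1 : ∀ n : ℕ, pc (n + 1) = pc n △ .nil := fun _ => rfl
  have p2 : ∀ n : ℕ, pc (n + 1 + 2) = (pc (n + 1) △ .nil) △ .nil := fun _ => rfl
  have happ : ∀ P A Y : BinaryTree Unit, app P (A △ Y) ≠ .nil := fun P A Y => app_ne' (by simp)
  have fR := h.hR.ne_bd
  have fS := h.hS.ne_bd
  have gS := fun Y => h.hS.app_ne_bd h.S0 Y
  rw [p1, p0] at hr2 hs3
  have e4 := congrArg List.reverse e
  have e0 := e
  by_cases hB : B = .nil
  · subst hB
    interval_cases i <;>
      simp [rq, hr', hs1, comps, hr1, hs2, hr2, hs3, R0, S0, p1, p2, u1, u1.symm, u2, u2.symm, happ, fR, fS, gS] at e4 <;>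
      simp only [rq] at e0
    · have hq0 := pc_z e4.1
      subst hq0
      refine Or.inl ⟨rfl, Or.inl (comps_inj ?_)⟩
      have e5 : (.nil :: comps R) ++ [.nil, .nil △ .nil] = comps U ++ [.nil, .nil △ .nil] := e0
      exact (List.append_cancel_right e5).symm
    · have hq0 := pc_z e4.1
      subst hq0
      refine Or.inl ⟨rfl, Or.inr (comps_inj ?_)⟩
      have e5 : (S :: comps .nil) ++ [.nil, .nil △ .nil] = comps U ++ [.nil, .nil △ .nil] := e0
      exact (List.append_cancel_right e5).symm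
  · obtain ⟨B2, b', hb', hb0'⟩ := h.hB.snoc hB
    have hb1 := lo_ne_nil hb0'
    have hb2 := lo_ne_pc hb0' (show 1 < q + 1 + 2 by omega)
    rw [p1, p0] at hb2
    interval_cases i <;>
      simp [rq, hr', hs1, hb', comps, hr1, hs2, hb1, hr2, hs3, hb2, R0, S0, p1, p2, u1, u1.symm, u2, u2.symm, happ, fR, fS, gS] at e4 <;>
      simp only [rq] at e0
    · have hq0 := pc_z e4.1
      subst hq0
      refine Or.inl ⟨rfl, Or.inl (comps_inj ?_)⟩
      have e5 : (.nil :: comps R) ++ [.nil, .nil △ .nil] = comps U ++ [.nil, .nil △ .nil] := e0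
      exact (List.append_cancel_right e5).symm
    · have hq0 := pc_z e4.1
      subst hq0
      refine Or.inl ⟨rfl, Or.inr (comps_inj ?_)⟩
      have e5 : (S :: comps B) ++ [.nil, .nil △ .nil] = comps U ++ [.nil, .nil △ .nil] := e0
      exact (List.append_cancel_right e5).symm

theorem clb2 (h : BwDt q R B S) {i : ℕ} (hi : i < 20) (hU : 3 ≤ ht U)
    (e : rq q R B S i = ((.nil △ .nil) △ .nil) :: comps U) : ExU q R B S U := by
  have hq := h.q1
  obtain ⟨q, rfl⟩ : ∃ m, q = m + 1 := ⟨q - 1, by omega⟩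
  obtain ⟨r, R1, hr, hr0⟩ := h.hR.cons h.R0
  obtain ⟨s0, S1, hs', hs0⟩ := h.hS.cons h.S0
  have hr1 := lo_ne_nil hr0
  have hs1 := lo_ne_nil hs0
  have hr2 := h.r2 hr
  have hs2 := h.s2 hs'
  have R0 := h.R0
  have S0 := h.S0
  have u1 : U ≠ .nil := by rintro rfl; rw [ht] at hU; omega
  have u2 : comps U ≠ [] := comps_ne u1
  have p0 : pc 0 = .nil := rfl
  have p1 : ∀ n : ℕ, pc (n + 1) = pc n △ .nil := fun _ => rfl
  have p2 : ∀ n : ℕ, pc (n + 1 + 2) = (pc (n + 1) △ .nil) △ .nil := fun _ => rfl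
  have p3 : pc 2 = (.nil △ .nil) △ .nil := rfl
  have happ : ∀ P A Y : BinaryTree Unit, app P (A △ Y) ≠ .nil := fun P A Y => app_ne' (by simp)
  have fR := h.hR.ne_bd
  have fS := h.hS.ne_bd
  have gS := fun Y => h.hS.app_ne_bd h.S0 Y
  rw [p3] at hr2 hs2
  have e4 := congrArg List.length e
  have e0 := e
  by_cases hB : B = .nil
  · subst hB
    interval_cases i <;>
      simp [rq, hr, hs', comps, hr1, hs1, hr2, hs2, R0, S0, p1, p2, u1, u1.symm, u2, u2.symm, happ, fR, fS, gS] at e
    · refine Or.inl ⟨by have := pc_z e.1; omega, Or.inl (comps_inj ?_)⟩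
      rw [← e.2, ← hr]
      rfl
    · exfalso
      have h5 := h.top
      rw [e.1] at h5
      simp [ht] at h5
    · refine Or.inr ⟨by have := pc_o e.1; omega, Or.inl (comps_inj ?_)⟩
      rw [← e.2]
      rfl
    · refine Or.inr ⟨by have := pc_o e.1; omega, Or.inr (Or.inl (comps_inj ?_))⟩
      rw [← e.2]
      rfl
    · exfalso
      have h5 := h.topS
      rw [e.1] at h5
      simp [ht] at h5
    · refine Or.inl ⟨by have := pc_z e.1; omega, Or.inr (comps_inj ?_)⟩
      rw [← e.2]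
      rfl
    · refine Or.inr ⟨by have := pc_o e.1; omega, Or.inr (Or.inr (Or.inl (comps_inj ?_)))⟩
      rw [← e.2]
      rfl
    · refine Or.inr ⟨by have := pc_o e.1; omega, Or.inr (Or.inr (Or.inr (comps_inj ?_)))⟩
      rw [← e.2, comps_node, comps_app, hs']
      rfl
    · exfalso
      have h5 := h.topS
      have h6 : ht (app S (.nil △ .nil)) = 2 := by
        rw [e.1]
        rfl
      rw [ht_app] at h6
      omega
  · obtain ⟨b, B1, hb, hb0⟩ := h.hB.cons hB
    have hb1 := lo_ne_nil hb0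
    have hb2 := lo_ne_pc hb0 (show 2 < q + 1 + 2 by omega)
    rw [p3] at hb2
    interval_cases i <;>
      simp [rq, hr, hs', hb, comps, hr1, hs1, hb1, hr2, hs2, hb2, R0, S0, p1, p2, u1, u1.symm, u2, u2.symm, happ, fR, fS, gS] at e
    · refine Or.inl ⟨by have := pc_z e.1; omega, Or.inl (comps_inj ?_)⟩
      rw [← e.2, ← hr]
      rfl
    · exfalso
      have h5 := h.top
      rw [e.1] at h5
      simp [ht] at h5
    · refine Or.inr ⟨by have := pc_o e.1; omega, Or.inl (comps_inj ?_)⟩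
      rw [← e.2]
      rfl
    · refine Or.inr ⟨by have := pc_o e.1; omega, Or.inr (Or.inl (comps_inj ?_))⟩
      rw [← e.2]
      rfl
    · exfalso
      have h5 := h.topS
      rw [e.1] at h5
      simp [ht] at h5
    · refine Or.inl ⟨by have := pc_z e.1; omega, Or.inr (comps_inj ?_)⟩
      rw [← e.2, ← hb]
      rfl
    · refine Or.inr ⟨by have := pc_o e.1; omega, Or.inr (Or.inr (Or.inl (comps_inj ?_)))⟩
      rw [← e.2]
      rfl
    · refine Or.inr ⟨by have := pc_o e.1; omega, Or.inr (Or.inr (Or.inr (comps_inj ?_)))⟩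
      rw [← e.2, comps_node, comps_app, hs']
      rfl
    · exfalso
      have h5 := h.topS
      have h6 : ht (app S (B △ .nil)) = 2 := by
        rw [e.1]
        rfl
      rw [ht_app] at h6
      omega


/-! ### The rows -/

/-- **Cl with `[2]`**: the common words of the link and a B-window -/
theorem NodeBw.bw_Cl2 {c : ℕ} (h : NodeBw k c q R B S) (h3 : 3 ≤ c) (w0 : X k) {i : ℕ} (hi : i < 20)
    (h' : TyC' 2 U F' g') (hU : 3 ≤ ht U) (hw : H1.wX R B S q w0 i ∈ g'.B) : ExU q R B S U := by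
  have ha := h.bwd h3
  have hw' : comps (H1.wX R B S q w0 i).1 = rq q R B S i := by rw [h.word w0 hi, H1.ch_eq, comps_rq hi]
  have f1 : comps (H1.ch 2) = [.nil △ .nil] := rfl
  have f2 : comps (.nil : BinaryTree Unit) = [] := rfl
  have f3 : H1.ch 2 = (.nil △ .nil) △ .nil := rfl
  rcases h'.words _ hw with e | ⟨-, e | e⟩
  · rw [e, comps_w1, f1, f2] at hw'
    exact clb0 ha hi hU hw'.symm
  · rw [e, comps_w1, f1] at hw'
    exact clb1 ha hi hU hw'.symm
  · rw [e, comps_w1, f2, List.nil_append, f3] at hw'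
    exact clb2 ha hi hU hw'.symm

theorem BwDt.np3R (h : BwDt q R B S) : np3 (cont R) = Multiset.card (cont R) := np3_all fun x hx => h.hR x hx

theorem BwDt.np3S (h : BwDt q R B S) : np3 (cont S) = Multiset.card (cont S) := np3_all fun x hx => h.hS x hx

/-- two parts -/
theorem NodeBw.card2 {c : ℕ} (h : NodeBw k c q R B S) : 2 ≤ Multiset.card (cont R) ∧ 2 ≤ Multiset.card (cont S) := by
  have key : ∀ T : BinaryTree Unit, (cont T).count c = 1 → q + 3 ≤ ht T → 2 ≤ Multiset.card (cont T) := by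
    intro T h1 h2
    have hm : c ∈ cont T := by
      rw [← Multiset.one_le_count_iff_mem, h1]
    by_contra hn
    have h3 : Multiset.card (cont T) = 1 := by
      have := Multiset.card_pos_iff_exists_mem.2 ⟨c, hm⟩
      omega
    obtain ⟨a, ha⟩ := Multiset.card_eq_one.1 h3
    rw [ha, Multiset.mem_singleton] at hm
    rw [ht_eq, ha, Multiset.sup_singleton, ← hm] at h2
    have := h.lt
    omega
  refine ⟨key R h.one h.top, key S h.cS ?_⟩
  have h1 := h.dat.htS
  have h2 := h.top
  omega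

/-- the exceptional `U` of a B-window: at least two parts `>= 3`, and not clean -/
theorem ExU.np3b {c : ℕ} (h : NodeBw k c q R B S) (h3 : 3 ≤ c) (hE : ExU q R B S U) : 2 ≤ np3 (cont U) := by
  have hb := h.bwd h3
  have k1 := h.card2.1
  have k2 := h.card2.2
  rw [← hb.np3R] at k1
  rw [← hb.np3S] at k2
  have r1 := np3_raise_ge (cont R)
  have r2 := np3_raise_ge (cont S)
  have r3 := np3_raise_ge (cont (.nil △ R))
  have r4 := np3_raise_ge (cont (S △ B))
  have r5 : np3 (cont (.nil △ R)) = np3 (raise (cont .nil)) + np3 (cont R) := by rw [cont_node, np3_add]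
  have r6 : np3 (cont (S △ B)) = np3 (raise (cont S)) + np3 (cont B) := by rw [cont_node, np3_add]
  rcases hE with ⟨-, rfl | rfl⟩ | ⟨-, rfl | rfl | rfl | rfl⟩
  · omega
  · omega
  · rw [cont_node, np3_add]
    omega
  · rw [cont_node, np3_add, cont_node, np3_add]
    omega
  · rw [cont_node, np3_add]
    omega
  · rw [cont_node, np3_add, cont_app, np3_add]
    omega

/-- the exceptional `U` are not clean -/
theorem ExU.notB (h : BwDt q R B S) (hE : ExU q R B S U) : ¬ ClC U := by
  have hq := h.q1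
  have pR : ∀ x ∈ cont R, 3 ≤ x := fun x hx => by have := h.hR x hx; omega
  have pB : ∀ x ∈ cont B, 3 ≤ x := fun x hx => by have := h.hB x hx; omega
  have pS : ∀ x ∈ cont S, 3 ≤ x := fun x hx => by have := h.hS x hx; omega
  have tR := h.top
  have tS := h.topS
  have r1 : ∀ x ∈ raise (cont R), 3 ≤ x := fun x hx => r3_up1 pR hx h.R0
  have r2 : ∀ x ∈ raise (cont S), 3 ≤ x := fun x hx => r3_up1 pS hx h.S0
  have c1 : ∀ {M : Multiset ℕ}, (∀ x ∈ M, 3 ≤ x) → M.count 1 = 0 := by
    intro M hM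
    rw [Multiset.count_eq_zero]
    intro h1
    have := hM 1 h1
    omega
  have s1 : ({1} : Multiset ℕ).count 1 = 1 := Multiset.count_singleton_self 1
  -- the parts are 1 or at least 4, at most two parts 1, height at least 4, no clean shape
  have key : (∀ x ∈ cont U, x = 1 ∨ 3 ≤ x) ∧ (cont U).count 1 ≤ 2 ∧ 4 ≤ ht U ∧
      (1 ∈ cont U → H1.fb U = false → ∃ A, U = A △ .nil) := by
    rcases hE with ⟨-, rfl | rfl⟩ | ⟨-, rfl | rfl | rfl | rfl⟩
    · refine ⟨?_, ?_, ?_, ?_⟩
      · intro x hx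
        rw [cont_node, cont_nil, raise_zero, Multiset.mem_add, Multiset.mem_singleton] at hx
        exact hx.imp id (pR x)
      · rw [cont_node, cont_nil, raise_zero, Multiset.count_add, s1, c1 pR]
        norm_num
      · simp only [ht]; omega
      · intro _ hf
        exact absurd hf (by simp [H1.fb, H1.isNil])
    · refine ⟨?_, ?_, ?_, ?_⟩
      · intro x hx
        rw [cont_node, Multiset.mem_add] at hx
        exact Or.inr (hx.elim (r2 x) (pB x))
      · rw [cont_node, Multiset.count_add, c1 r2, c1 pB]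
        norm_num
      · simp only [ht]; omega
      · intro h1 _
        rw [cont_node, Multiset.mem_add] at h1
        have := h1.elim (r2 1) (pB 1)
        omega
    · have hc : cont (.nil △ R) = {1} + cont R := by rw [cont_node, cont_nil, raise_zero]
      have hsup : (cont (.nil △ R)).sup ≠ 1 := by
        rw [← OddHC.ht_eq]
        simp only [ht]
        omega
      have h5 : ∀ x ∈ raise (cont (.nil △ R)), x = 1 ∨ 3 ≤ x := by
        intro x hx
        rcases r3_raise hx with h1 | h1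
        · rw [← OddHC.ht_eq] at h1
          simp only [ht] at h1
          omega
        · rw [hc, Multiset.mem_add, Multiset.mem_singleton] at h1
          exact h1.imp id (pR x)
      refine ⟨?_, ?_, ?_, ?_⟩
      · intro x hx
        rw [cont_node, cont_nil, add_zero] at hx
        exact h5 x hx
      · rw [cont_node, cont_nil, add_zero]
        unfold raise
        rw [Multiset.count_cons_of_ne (by
          rw [← OddHC.ht_eq]
          simp only [ht]
          omega), Multiset.count_erase_of_ne hsup.symm, hc, Multiset.count_add, s1, c1 pR]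
        norm_num
      · simp only [ht]; omega
      · intro _ _
        exact ⟨_, rfl⟩
    · refine ⟨?_, ?_, ?_, ?_⟩
      · intro x hx
        rw [cont_node, cont_node, cont_nil, raise_zero, add_zero, Multiset.mem_add, Multiset.mem_singleton] at hx
        exact hx.imp id (r1 x)
      · rw [cont_node, cont_node, cont_nil, raise_zero, add_zero, Multiset.count_add, s1, c1 r1]
        norm_num
      · simp only [ht]; omega
      · intro _ hf
        exact absurd hf (by simp [H1.fb, H1.isNil])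
    · have h5 : ∀ x ∈ cont (S △ B), 3 ≤ x := by
        intro x hx
        rw [cont_node, Multiset.mem_add] at hx
        exact hx.elim (r2 x) (pB x)
      have h6 : ∀ x ∈ raise (cont (S △ B)), 3 ≤ x := fun x hx => r3_up1 h5 hx (by simp)
      refine ⟨?_, ?_, ?_, ?_⟩
      · intro x hx
        rw [cont_node, cont_nil, add_zero] at hx
        exact Or.inr (h6 x hx)
      · rw [cont_node, cont_nil, add_zero, c1 h6]
        norm_num
      · simp only [ht]; omega
      · intro _ _
        exact ⟨_, rfl⟩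
    · have h7 : (∀ x ∈ raise (cont B), x = 1 ∨ 3 ≤ x) ∧ (raise (cont B)).count 1 ≤ 1 := by
        by_cases hB : B = .nil
        · rw [hB, cont_nil, raise_zero]
          refine ⟨?_, by rw [s1]⟩
          intro x hx
          exact Or.inl (Multiset.mem_singleton.1 hx)
        · have h8 : ∀ x ∈ raise (cont B), 3 ≤ x := fun x hx => r3_up1 pB hx hB
          exact ⟨fun x hx => Or.inr (h8 x hx), by rw [c1 h8]; norm_num⟩
      refine ⟨?_, ?_, ?_, ?_⟩
      · intro x hx
        rw [cont_node, cont_nil, raise_zero, cont_app, cont_node, cont_nil, add_zero, Multiset.mem_add,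
          Multiset.mem_singleton, Multiset.mem_add] at hx
        rcases hx with hx | hx | hx
        · exact Or.inl hx
        · exact Or.inr (pS x hx)
        · exact h7.1 x hx
      · rw [cont_node, cont_nil, raise_zero, cont_app, cont_node, cont_nil, add_zero, Multiset.count_add,
          Multiset.count_add, s1, c1 pS]
        have := h7.2
        omega
      · simp only [ht, ht_app]; omega
      · intro _ hf
        exact absurd hf (by simp [H1.fb, H1.isNil])
  obtain ⟨k1, k2, k3, k4⟩ := key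
  rintro (h1 | h1 | h1 | h1 | h1)
  · omega
  · have := k1 2 h1
    omega
  · omega
  · omega
  · obtain ⟨A, hA⟩ := k4 h1.1 h1.2.1
    exact h1.2.2.1 A hA


theorem NodeBw.c3m {c : ℕ} (h : NodeBw k c q R B S) (w0 : X k) (h2 : 2 ∉ contc (cyc (H1.wX R B S q w0 0))) : 3 ≤ c := by
  by_contra hn
  have h3 := h.c2
  obtain rfl : c = 2 := by omega
  apply h2
  change 2 ∈ cont (H1.wX R B S q w0 0).1
  rw [h.word w0 (by norm_num), H1.cont_all h.dat (by norm_num)]
  exact Multiset.mem_add.2 (Or.inl h.memR)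

/-- **W Bw - Cl** (`TyC' 2 U`), marker `>= 3` -/
theorem TyBw.disj_Cl2 (h : TyBw F g) (h2 : ∀ d ∈ F, 2 ∉ contc d) (h' : TyC' 2 U F' g') (hU : 3 ≤ ht U)
    (hC : ClC U ∨ np3 (cont U) ≤ 1) : ∀ w ∈ g.B, w ∉ g'.B := by
  intro w hw hw'
  obtain ⟨c, q, R, B, S, w0, i, h1, hi, rfl, hm⟩ := h.words w hw
  have c3 := h1.c3m w0 (h2 _ hm)
  have hE := h1.bw_Cl2 c3 w0 hi h' hU hw'
  rcases hC with hC | hC
  · exact hE.notB (h1.bwd c3) hC
  · have := hE.np3b h1 c3
    omega


/-- every word of a B-window has three parts `>= 2` (`q >= 1`) -/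
theorem NodeBw.n2w {c : ℕ} (h : NodeBw k c q R B S) (hq : 1 ≤ q) (w0 : X k) {i : ℕ} (hi : i < 20) :
    3 ≤ H1.n2 (cont (H1.wX R B S q w0 i).1) := by
  rw [h.word w0 hi]
  have h1 := H1.n2_all h.dat hq hi
  have h2 : H1.n2 (cont R) = Multiset.card (cont R) := by
    unfold H1.n2
    rw [Multiset.countP_eq_card]
    intro x hx
    have := h.c2
    have := h.lt
    rcases h.part x hx with h3 | h3 <;> omega
  have h3 := h.card2.1
  omega

theorem n2_raise_eqB {M : Multiset ℕ} (h : 2 ≤ M.sup) : H1.n2 (raise M) = H1.n2 M := by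
  have h0 : M ≠ 0 := by
    rintro rfl
    simp at h
  have h1 := Multiset.cons_erase (sup_mem h0)
  unfold raise H1.n2
  conv_rhs => rw [← h1]
  rw [Multiset.countP_cons, Multiset.countP_cons, if_pos (by omega : 2 ≤ M.sup + 1), if_pos h]

/-- the words of a content link over one soliton have at most two parts `>= 2` -/
theorem n2_TyC {c : ℕ} (h' : TyC c U F' g' ∨ TyC' c U F' g') (hc : 2 ≤ c) (hU : H1.n2 (cont U) ≤ 1)
    (hs : 2 ≤ ht U) : ∀ w ∈ g'.B, H1.n2 (cont w.1) ≤ 2 := by
  obtain ⟨c, rfl⟩ : ∃ m, c = m + 1 := ⟨c - 1, by omega⟩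
  have h1 : H1.n2 (raise (cont U)) = H1.n2 (cont U) := n2_raise_eqB (by rw [← ht_eq]; exact hs)
  have e0 : cont (.nil : BinaryTree Unit) = 0 := cont_nil
  have e1 : cont (H1.ch (c + 1)) = {c + 1} := H1.ch_cont c
  have e2 : raise (cont (H1.ch (c + 1))) = {c + 1 + 1} := by
    rw [e1]
    unfold raise
    rw [Multiset.sup_singleton, show ({c + 1} : Multiset ℕ).erase (c + 1) = 0 by simp]
    rfl
  have e3 : H1.n2 ({c + 1} : Multiset ℕ) = 1 := by rw [H1.n2_single, if_pos (by omega)]
  have e4 : H1.n2 ({c + 1 + 1} : Multiset ℕ) = 1 := by rw [H1.n2_single, if_pos (by omega)]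
  have e5 : H1.n2 ({1} : Multiset ℕ) = 0 := by rw [H1.n2_single, if_neg (by omega)]
  have e6 : H1.n2 (0 : Multiset ℕ) = 0 := rfl
  have key : ∀ P Q Y : BinaryTree Unit, H1.n2 (cont (w1 P Q Y)) =
      H1.n2 (cont P) + (H1.n2 (raise (cont Q)) + H1.n2 (cont Y)) := by
    intro P Q Y
    change H1.n2 (cont (app P (Q △ Y))) = _
    rw [cont_app, cont_node, H1.n2_add, H1.n2_add]
  intro w hw
  rcases h' with h' | h' <;> rcases IsTri.words h' w hw with e | ⟨_, e | e⟩ <;> rw [e, key]
  · rw [e0, h1, e1, e3, e6]; omega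
  · rw [e0, e2, e4, e6]; omega
  · rw [e0, e1, e3, raise_zero, e5]; omega
  · rw [e0, h1, e1, e3, e6]; omega
  · rw [e0, e1, e3, raise_zero, e5]; omega
  · rw [e0, e2, e4, e6]; omega

theorem TyBw.q1 (h : TyBw F g) (h2 : ∀ d ∈ F, 2 ∉ contc d) : ∀ w ∈ g.B, 3 ≤ H1.n2 (cont w.1) := by
  intro w hw
  obtain ⟨c, q, R, B, S, w0, i, h1, hi, rfl, hm⟩ := h.words w hw
  have c3 := h1.c3m w0 (h2 _ hm)
  exact h1.n2w (by have := h1.lt; omega) w0 hi

/-- **W Bw - Cr / Cl over one soliton**, marker `>= 3` -/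
theorem TyBw.disj_C1 {c : ℕ} (h : TyBw F g) (h2 : ∀ d ∈ F, 2 ∉ contc d) (h' : TyC c U F' g' ∨ TyC' c U F' g')
    (hc : 2 ≤ c) (hU : H1.n2 (cont U) ≤ 1) (hs : 2 ≤ ht U) : ∀ w ∈ g.B, w ∉ g'.B := by
  intro w hw hw'
  have h3 := h.q1 h2 w hw
  have h4 := n2_TyC h' hc hU hs w hw'
  omega

/-- the inner words have the contents of the words -/
theorem TyBw.inn_word (h : TyBw F g) : ∀ p ∈ g.arcs, ∀ w ∈ innA p, ∃ u ∈ g.B, cont w.1 = cont u.1 := by
  intro p hp w hw
  obtain ⟨n, h1, h2, h3⟩ := h.path p hp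
  have e : w = TT p.1 := hw
  refine ⟨p.1, h2, ?_⟩
  have e2 : cyc w = cyc p.1 := by
    rw [e]
    exact cyc_eq.2 ⟨-1, by simp⟩
  have e3 : contc (cyc w) = contc (cyc p.1) := by rw [e2]
  exact e3

/-- **I Bw - Cr / Cl over one soliton**, marker `>= 3` -/
theorem TyBw.inner_C1 {c : ℕ} (h : TyBw F g) (h2 : ∀ d ∈ F, 2 ∉ contc d) (h' : TyC c U F' g' ∨ TyC' c U F' g')
    (hc : 2 ≤ c) (hU : H1.n2 (cont U) ≤ 1) (hs : 2 ≤ ht U) : ∀ p ∈ g.arcs, ∀ w ∈ innA p, w ∉ g'.B := by
  intro p hp w hw hw'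
  obtain ⟨u, hu, e⟩ := h.inn_word p hp w hw
  have h3 := h.q1 h2 u hu
  have h4 := n2_TyC h' hc hU hs w hw'
  rw [e] at h4
  omega

end Pool.OddHC
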