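import Pool.Agent.Work.MP_8f87b2_h89.BwI
import Pool.Agent.Work.MP_8f87b2_h13.A0Dn

/-!
# MP_8f87b2_co: the B-windows (marker `c >= 3`) against the right content links `TyC 2 U` (DOWN), words
-/

set_option autoImplicit false
set_option linter.all false

namespace Pool.OddHC

open Finset Equiv BinaryTree Pool.Agent.Work.MP_8f87b2_co HM

variable {k : ℕ} {F F' : Set (Cyc k)} {g g' : DG k} {q : ℕ} {R B S U : BinaryTree Unit}

/-- the exact list of the common words with `TyC 2 U` -/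
def ExD (q : ℕ) (R B S U : BinaryTree Unit) : Prop :=
  (q = 1 ∧ (U = R △ .nil ∨ U = app S (B △ .nil))) ∨
  (q = 2 ∧ (U = .nil △ app R (.nil △ .nil) ∨ U = (R △ .nil) △ .nil ∨ U = S △ app B (.nil △ .nil) ∨
    U = app S (B △ .nil) △ .nil))

theorem hcp_last {n : ℕ} {T r : BinaryTree Unit} {L : List (BinaryTree Unit)} (h : BW.hcp n T) (e : comps T = L ++ [r]) :
    n ≤ ht r + 1 := by
  induction T generalizing L with
  | nil => simp [comps] at e
  | node _ A C _ ih =>
    change BW.hcp n (A △ C) at h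
    rw [BW.hcp_node] at h
    have e' : A :: comps C = L ++ [r] := e
    cases L with
    | nil =>
      have e2 : A = r := by
        injection e'
      rw [← e2]
      exact h.1
    | cons a L =>
      have e2 : comps C = L ++ [r] := by
        injection e'
      exact ih h.2 e2

theorem BwDt.RS2 (h : BwDt q R B S) : R ≠ (.nil △ .nil) △ .nil ∧ S ≠ (.nil △ .nil) △ .nil ∧ R ≠ .nil △ .nil ∧ S ≠ .nil △ .nil ∧
    B ≠ (.nil △ .nil) △ .nil ∧ B ≠ .nil △ .nil := by
  have h1 := h.top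
  have h2 := h.topS
  have e1 : ht ((.nil △ .nil) △ .nil : BinaryTree Unit) = 2 := rfl
  have e2 : ht (.nil △ .nil : BinaryTree Unit) = 1 := rfl
  refine ⟨?_, ?_, ?_, ?_, ?_, ?_⟩
  · rintro rfl; omega
  · rintro rfl; omega
  · rintro rfl; omega
  · rintro rfl; omega
  · intro e
    have h3 := h.hB 2 (by rw [e]; exact Multiset.mem_singleton_self 2)
    omega
  · intro e
    have h3 := h.hB 1 (by rw [e]; exact Multiset.mem_singleton_self 1)
    omega

theorem dnb0 (h : BwDt q R B S) {i : ℕ} (hi : i < 20) (hU : U ≠ .nil)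
    (e : rq q R B S i = [U, .nil △ .nil]) : ExD q R B S U := by
  have hq := h.q1
  obtain ⟨q, rfl⟩ : ∃ m, q = m + 1 := ⟨q - 1, by omega⟩
  obtain ⟨R1, r, hr, hr0⟩ := h.hR.snoc h.R0
  obtain ⟨S1, s0, hs', hs0⟩ := h.hS.snoc h.S0
  have hr1 := lo_ne_nil hr0
  have hs1 := lo_ne_nil hs0
  have hr2 := lo_ne_pc hr0 (show 1 < 0 + 2 by omega)
  have hs2 := lo_ne_pc hs0 (show 1 < 0 + 2 by omega)
  have R0 := h.R0
  have S0 := h.S0
  have u1 := hU
  have u2 : comps U ≠ [] := comps_ne u1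
  have p0 : pc 0 = .nil := rfl
  have p1 : ∀ n : ℕ, pc (n + 1) = pc n △ .nil := fun _ => rfl
  have p2 : ∀ n : ℕ, pc (n + 1 + 2) = (pc (n + 1) △ .nil) △ .nil := fun _ => rfl
  have p3 : pc 2 = (.nil △ .nil) △ .nil := rfl
  have happ : ∀ P A Y : BinaryTree Unit, app P (A △ Y) ≠ .nil := fun P A Y => app_ne' (by simp)
  have fR := h.hR.ne_bd
  have fS := h.hS.ne_bd
  have gS := fun Y => h.hS.app_ne_bd h.S0 Y
  rw [p1, p0] at hr2 hs2
  obtain ⟨k1, k2, k3, k4, k5, k6⟩ := h.RS2
  have e4 := congrArg List.reverse e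
  by_cases hB : B = .nil
  · subst hB
    interval_cases i <;>
      simp [rq, hr, hs', comps, hr1, hs1, hr2, hs2, R0, S0, p1, p2, u1, u1.symm, happ, fR, fS, gS, k1, k2, k3, k4] at e4
    · exact Or.inl ⟨by have := pc_z e4.1; omega, Or.inl e4.2.symm⟩
    · exact absurd e4.1 (by simp [app])
    · exact Or.inl ⟨by have := pc_z e4.1; omega, Or.inr e4.2.symm⟩
  · obtain ⟨B1, b, hb, hb0⟩ := h.hB.snoc hB
    have hb1 := lo_ne_nil hb0
    have hb2 := lo_ne_pc hb0 (show 1 < q + 1 + 2 by omega)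
    have fB := h.hB.ne_bd
    have gB := fun Y => h.hB.app_ne_bd hB Y
    rw [p1, p0] at hb2
    interval_cases i <;>
      simp [rq, hr, hs', hb, comps, hr1, hs1, hb1, hr2, hs2, hb2, R0, S0, p1, p2, u1, u1.symm, happ, fR, fS, gS, fB, gB, k1, k2, k3, k4, k5, k6] at e4
    · exact Or.inl ⟨by have := pc_z e4.1; omega, Or.inl e4.2.symm⟩
    · exact Or.inl ⟨by have := pc_z e4.1; omega, Or.inr e4.2.symm⟩

theorem dnb1 (h : BwDt q R B S) (h4 : BW.hcp 4 S) {i : ℕ} (hi : i < 20) (hU : U ≠ .nil)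
    (e : rq q R B S i = comps U ++ [(.nil △ .nil) △ .nil]) : ExD q R B S U := by
  have hq := h.q1
  obtain ⟨q, rfl⟩ : ∃ m, q = m + 1 := ⟨q - 1, by omega⟩
  obtain ⟨R1, r, hr, hr0⟩ := h.hR.snoc h.R0
  obtain ⟨S1, s0, hs', hs0⟩ := h.hS.snoc h.S0
  have hr1 := lo_ne_nil hr0
  have hs1 := lo_ne_nil hs0
  have hr2 := lo_ne_pc hr0 (show 1 < 0 + 2 by omega)
  have hs2 := lo_ne_pc hs0 (show 1 < 0 + 2 by omega)
  have R0 := h.R0
  have S0 := h.S0
  have u1 := hU
  have u2 : comps U ≠ [] := comps_ne u1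
  have p0 : pc 0 = .nil := rfl
  have p1 : ∀ n : ℕ, pc (n + 1) = pc n △ .nil := fun _ => rfl
  have p2 : ∀ n : ℕ, pc (n + 1 + 2) = (pc (n + 1) △ .nil) △ .nil := fun _ => rfl
  have p3 : pc 2 = (.nil △ .nil) △ .nil := rfl
  have happ : ∀ P A Y : BinaryTree Unit, app P (A △ Y) ≠ .nil := fun P A Y => app_ne' (by simp)
  have fR := h.hR.ne_bd
  have fS := h.hS.ne_bd
  have gS := fun Y => h.hS.app_ne_bd h.S0 Y
  rw [p1, p0] at hr2 hs2
  obtain ⟨k1, k2, k3, k4, k5, k6⟩ := h.RS2
  have l1 : r ≠ (.nil △ .nil) △ .nil := by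
    rintro rfl
    have := hcp_last h.hcR hr
    have e1 : ht ((.nil △ .nil) △ .nil : BinaryTree Unit) = 2 := rfl
    omega
  have l2 : s0 ≠ (.nil △ .nil) △ .nil := by
    rintro rfl
    have := hcp_last h4 hs'
    have e1 : ht ((.nil △ .nil) △ .nil : BinaryTree Unit) = 2 := rfl
    omega
  have e4 := congrArg List.reverse e
  have e0 := e
  by_cases hB : B = .nil
  · subst hB
    interval_cases i <;>
      simp [rq, hr, hs', comps, hr1, hs1, hr2, hs2, R0, S0, p1, p2, u1, u1.symm, u2, u2.symm, happ, fR, fS, gS, k1, k2, k3, k4, l1, l2] at e4 <;>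
      simp only [rq] at e0
    · refine Or.inr ⟨by have := pc_o e4.1; omega, Or.inl (comps_inj ?_)⟩
      have e5 : (.nil :: (comps R ++ [.nil])) ++ [pc (q + 1)] = comps U ++ [(.nil △ .nil) △ .nil] := by simpa using e0
      rw [← (snoc_inj e5).1]
      simp [comps_node, comps_app, comps]
    · refine Or.inl ⟨by have := pc_z e4.1; omega, Or.inl (comps_inj ?_)⟩
      have e5 : [R] ++ [pc (q + 1 + 1)] = comps U ++ [(.nil △ .nil) △ .nil] := by simpa using e0
      rw [← (snoc_inj e5).1]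
      rfl
    · refine Or.inr ⟨by have := pc_o e4.1; omega, Or.inr (Or.inl (comps_inj ?_))⟩
      have e5 : [R △ .nil] ++ [pc (q + 1)] = comps U ++ [(.nil △ .nil) △ .nil] := by simpa using e0
      rw [← (snoc_inj e5).1]
      rfl
    · refine Or.inr ⟨by have := pc_o e4.1; omega, Or.inr (Or.inr (Or.inl (comps_inj ?_)))⟩
      have e5 : (S :: (comps .nil ++ [.nil])) ++ [pc (q + 1)] = comps U ++ [(.nil △ .nil) △ .nil] := by simpa using e0
      rw [← (snoc_inj e5).1]
      simp [comps_node, comps_app, comps]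
    · exact absurd e4.1 (by simp [app])
    · refine Or.inl ⟨by have := pc_z e4.1; omega, Or.inr (comps_inj ?_)⟩
      have e5 : (comps S ++ [.nil]) ++ [pc (q + 1 + 1)] = comps U ++ [(.nil △ .nil) △ .nil] := by simpa using e0
      rw [← (snoc_inj e5).1]
      simp [comps_node, comps_app, comps]
    · refine Or.inr ⟨by have := pc_o e4.1; omega, Or.inr (Or.inr (Or.inr (comps_inj ?_)))⟩
      have e5 : [app S (.nil △ .nil)] ++ [pc (q + 1)] = comps U ++ [(.nil △ .nil) △ .nil] := by simpa using e0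
      rw [← (snoc_inj e5).1]
      rfl
  · obtain ⟨B1, b, hb, hb0⟩ := h.hB.snoc hB
    have hb1 := lo_ne_nil hb0
    have hb2 := lo_ne_pc hb0 (show 1 < q + 1 + 2 by omega)
    have hb3 := lo_ne_pc hb0 (show 2 < q + 1 + 2 by omega)
    have fB := h.hB.ne_bd
    have gB := fun Y => h.hB.app_ne_bd hB Y
    rw [p1, p0] at hb2
    rw [p3] at hb3
    interval_cases i <;>
      simp [rq, hr, hs', hb, comps, hr1, hs1, hb1, hr2, hs2, hb2, hb3, R0, S0, p1, p2, u1, u1.symm, u2, u2.symm, happ, fR, fS, gS, fB, gB, k1, k2, k3, k4, k5, k6, l1, l2] at e4 <;>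
      simp only [rq] at e0
    · refine Or.inr ⟨by have := pc_o e4.1; omega, Or.inl (comps_inj ?_)⟩
      have e5 : (.nil :: (comps R ++ [.nil])) ++ [pc (q + 1)] = comps U ++ [(.nil △ .nil) △ .nil] := by simpa using e0
      rw [← (snoc_inj e5).1]
      simp [comps_node, comps_app, comps]
    · refine Or.inl ⟨by have := pc_z e4.1; omega, Or.inl (comps_inj ?_)⟩
      have e5 : [R] ++ [pc (q + 1 + 1)] = comps U ++ [(.nil △ .nil) △ .nil] := by simpa using e0
      rw [← (snoc_inj e5).1]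
      rfl
    · refine Or.inr ⟨by have := pc_o e4.1; omega, Or.inr (Or.inl (comps_inj ?_))⟩
      have e5 : [R △ .nil] ++ [pc (q + 1)] = comps U ++ [(.nil △ .nil) △ .nil] := by simpa using e0
      rw [← (snoc_inj e5).1]
      rfl
    · refine Or.inr ⟨by have := pc_o e4.1; omega, Or.inr (Or.inr (Or.inl (comps_inj ?_)))⟩
      have e5 : (S :: (comps B ++ [.nil])) ++ [pc (q + 1)] = comps U ++ [(.nil △ .nil) △ .nil] := by simpa using e0
      rw [← (snoc_inj e5).1]
      simp [comps_node, comps_app, comps]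
    · exfalso
      have e6 := congrArg (fun t => (comps t).length) e4.1
      simp [comps_app, comps_node, comps, hb] at e6
    · refine Or.inl ⟨by have := pc_z e4.1; omega, Or.inr (comps_inj ?_)⟩
      have e5 : (comps S ++ [B]) ++ [pc (q + 1 + 1)] = comps U ++ [(.nil △ .nil) △ .nil] := by simpa using e0
      rw [← (snoc_inj e5).1]
      simp [comps_node, comps_app, comps]
    · refine Or.inr ⟨by have := pc_o e4.1; omega, Or.inr (Or.inr (Or.inr (comps_inj ?_)))⟩
      have e5 : [app S (B △ .nil)] ++ [pc (q + 1)] = comps U ++ [(.nil △ .nil) △ .nil] := by simpa using e0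
      rw [← (snoc_inj e5).1]
      rfl

theorem dnb1x (h : BwDt q R B S) {i : ℕ} (hi : i < 20) (h10 : i ≠ 10) (h11 : i ≠ 11) (hU : U ≠ .nil)
    (e : rq q R B S i = comps U ++ [(.nil △ .nil) △ .nil]) : ExD q R B S U := by
  have hq := h.q1
  obtain ⟨q, rfl⟩ : ∃ m, q = m + 1 := ⟨q - 1, by omega⟩
  obtain ⟨R1, r, hr, hr0⟩ := h.hR.snoc h.R0
  obtain ⟨S1, s0, hs', hs0⟩ := h.hS.snoc h.S0
  have hr1 := lo_ne_nil hr0
  have hs1 := lo_ne_nil hs0
  have hr2 := lo_ne_pc hr0 (show 1 < 0 + 2 by omega)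
  have hs2 := lo_ne_pc hs0 (show 1 < 0 + 2 by omega)
  have R0 := h.R0
  have S0 := h.S0
  have u1 := hU
  have u2 : comps U ≠ [] := comps_ne u1
  have p0 : pc 0 = .nil := rfl
  have p1 : ∀ n : ℕ, pc (n + 1) = pc n △ .nil := fun _ => rfl
  have p2 : ∀ n : ℕ, pc (n + 1 + 2) = (pc (n + 1) △ .nil) △ .nil := fun _ => rfl
  have p3 : pc 2 = (.nil △ .nil) △ .nil := rfl
  have happ : ∀ P A Y : BinaryTree Unit, app P (A △ Y) ≠ .nil := fun P A Y => app_ne' (by simp)
  have fR := h.hR.ne_bd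
  have fS := h.hS.ne_bd
  have gS := fun Y => h.hS.app_ne_bd h.S0 Y
  rw [p1, p0] at hr2 hs2
  obtain ⟨k1, k2, k3, k4, k5, k6⟩ := h.RS2
  have l1 : r ≠ (.nil △ .nil) △ .nil := by
    rintro rfl
    have := hcp_last h.hcR hr
    have e1 : ht ((.nil △ .nil) △ .nil : BinaryTree Unit) = 2 := rfl
    omega
  have e4 := congrArg List.reverse e
  have e0 := e
  by_cases hB : B = .nil
  · subst hB
    interval_cases i <;> (first | exact absurd rfl h10 | exact absurd rfl h11 | skip) <;>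
      simp [rq, hr, hs', comps, hr1, hs1, hr2, hs2, R0, S0, p1, p2, u1, u1.symm, u2, u2.symm, happ, fR, fS, gS, k1, k2, k3, k4, l1] at e4 <;>
      simp only [rq] at e0
    · refine Or.inr ⟨by have := pc_o e4.1; omega, Or.inl (comps_inj ?_)⟩
      have e5 : (.nil :: (comps R ++ [.nil])) ++ [pc (q + 1)] = comps U ++ [(.nil △ .nil) △ .nil] := by simpa using e0
      rw [← (snoc_inj e5).1]
      simp [comps_node, comps_app, comps]
    · refine Or.inl ⟨by have := pc_z e4.1; omega, Or.inl (comps_inj ?_)⟩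
      have e5 : [R] ++ [pc (q + 1 + 1)] = comps U ++ [(.nil △ .nil) △ .nil] := by simpa using e0
      rw [← (snoc_inj e5).1]
      rfl
    · refine Or.inr ⟨by have := pc_o e4.1; omega, Or.inr (Or.inl (comps_inj ?_))⟩
      have e5 : [R △ .nil] ++ [pc (q + 1)] = comps U ++ [(.nil △ .nil) △ .nil] := by simpa using e0
      rw [← (snoc_inj e5).1]
      rfl
    · refine Or.inr ⟨by have := pc_o e4.1; omega, Or.inr (Or.inr (Or.inl (comps_inj ?_)))⟩
      have e5 : (S :: (comps .nil ++ [.nil])) ++ [pc (q + 1)] = comps U ++ [(.nil △ .nil) △ .nil] := by simpa using e0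
      rw [← (snoc_inj e5).1]
      simp [comps_node, comps_app, comps]
    · exact absurd e4.1 (by simp [app])
    · refine Or.inl ⟨by have := pc_z e4.1; omega, Or.inr (comps_inj ?_)⟩
      have e5 : (comps S ++ [.nil]) ++ [pc (q + 1 + 1)] = comps U ++ [(.nil △ .nil) △ .nil] := by simpa using e0
      rw [← (snoc_inj e5).1]
      simp [comps_node, comps_app, comps]
    · refine Or.inr ⟨by have := pc_o e4.1; omega, Or.inr (Or.inr (Or.inr (comps_inj ?_)))⟩
      have e5 : [app S (.nil △ .nil)] ++ [pc (q + 1)] = comps U ++ [(.nil △ .nil) △ .nil] := by simpa using e0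
      rw [← (snoc_inj e5).1]
      rfl
  · obtain ⟨B1, b, hb, hb0⟩ := h.hB.snoc hB
    have hb1 := lo_ne_nil hb0
    have hb2 := lo_ne_pc hb0 (show 1 < q + 1 + 2 by omega)
    have hb3 := lo_ne_pc hb0 (show 2 < q + 1 + 2 by omega)
    have fB := h.hB.ne_bd
    have gB := fun Y => h.hB.app_ne_bd hB Y
    rw [p1, p0] at hb2
    rw [p3] at hb3
    interval_cases i <;> (first | exact absurd rfl h10 | exact absurd rfl h11 | skip) <;>
      simp [rq, hr, hs', hb, comps, hr1, hs1, hb1, hr2, hs2, hb2, hb3, R0, S0, p1, p2, u1, u1.symm, u2, u2.symm, happ, fR, fS, gS, fB, gB, k1, k2, k3, k4, k5, k6, l1] at e4 <;>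
      simp only [rq] at e0
    · refine Or.inr ⟨by have := pc_o e4.1; omega, Or.inl (comps_inj ?_)⟩
      have e5 : (.nil :: (comps R ++ [.nil])) ++ [pc (q + 1)] = comps U ++ [(.nil △ .nil) △ .nil] := by simpa using e0
      rw [← (snoc_inj e5).1]
      simp [comps_node, comps_app, comps]
    · refine Or.inl ⟨by have := pc_z e4.1; omega, Or.inl (comps_inj ?_)⟩
      have e5 : [R] ++ [pc (q + 1 + 1)] = comps U ++ [(.nil △ .nil) △ .nil] := by simpa using e0
      rw [← (snoc_inj e5).1]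
      rfl
    · refine Or.inr ⟨by have := pc_o e4.1; omega, Or.inr (Or.inl (comps_inj ?_))⟩
      have e5 : [R △ .nil] ++ [pc (q + 1)] = comps U ++ [(.nil △ .nil) △ .nil] := by simpa using e0
      rw [← (snoc_inj e5).1]
      rfl
    · refine Or.inr ⟨by have := pc_o e4.1; omega, Or.inr (Or.inr (Or.inl (comps_inj ?_)))⟩
      have e5 : (S :: (comps B ++ [.nil])) ++ [pc (q + 1)] = comps U ++ [(.nil △ .nil) △ .nil] := by simpa using e0
      rw [← (snoc_inj e5).1]
      simp [comps_node, comps_app, comps]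
    · exfalso
      have e6 := congrArg (fun t => (comps t).length) e4.1
      simp [comps_app, comps_node, comps, hb] at e6
    · refine Or.inl ⟨by have := pc_z e4.1; omega, Or.inr (comps_inj ?_)⟩
      have e5 : (comps S ++ [B]) ++ [pc (q + 1 + 1)] = comps U ++ [(.nil △ .nil) △ .nil] := by simpa using e0
      rw [← (snoc_inj e5).1]
      simp [comps_node, comps_app, comps]
    · refine Or.inr ⟨by have := pc_o e4.1; omega, Or.inr (Or.inr (Or.inr (comps_inj ?_)))⟩
      have e5 : [app S (B △ .nil)] ++ [pc (q + 1)] = comps U ++ [(.nil △ .nil) △ .nil] := by simpa using e0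
      rw [← (snoc_inj e5).1]
      rfl

theorem dnb2 (h : BwDt q R B S) {i : ℕ} (hi : i < 20) (hU : U ≠ .nil)
    (e : rq q R B S i = (.nil △ .nil) :: .nil :: comps U) : ExD q R B S U := by
  have hq := h.q1
  obtain ⟨q, rfl⟩ : ∃ m, q = m + 1 := ⟨q - 1, by omega⟩
  obtain ⟨r, R1, hr, hr0⟩ := h.hR.cons h.R0
  obtain ⟨s0, S1, hs', hs0⟩ := h.hS.cons h.S0
  have hr1 := lo_ne_nil hr0
  have hs1 := lo_ne_nil hs0
  have hr2 := lo_ne_pc hr0 (show 1 < 0 + 2 by omega)
  have hs2 := lo_ne_pc hs0 (show 1 < 0 + 2 by omega)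
  have R0 := h.R0
  have S0 := h.S0
  have u1 := hU
  have u2 : comps U ≠ [] := comps_ne u1
  have p0 : pc 0 = .nil := rfl
  have p1 : ∀ n : ℕ, pc (n + 1) = pc n △ .nil := fun _ => rfl
  have p2 : ∀ n : ℕ, pc (n + 1 + 2) = (pc (n + 1) △ .nil) △ .nil := fun _ => rfl
  have p3 : pc 2 = (.nil △ .nil) △ .nil := rfl
  have happ : ∀ P A Y : BinaryTree Unit, app P (A △ Y) ≠ .nil := fun P A Y => app_ne' (by simp)
  have fR := h.hR.ne_bd
  have fS := h.hS.ne_bd
  have gS := fun Y => h.hS.app_ne_bd h.S0 Y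
  rw [p1, p0] at hr2 hs2
  obtain ⟨k1, k2, k3, k4, k5, k6⟩ := h.RS2
  have e4 := e
  by_cases hB : B = .nil
  · subst hB
    interval_cases i <;>
      simp [rq, hr, hs', comps, hr1, hs1, hr2, hs2, R0, S0, p1, p2, u1, u1.symm, u2, u2.symm, happ, fR, fS, gS, k1, k2, k3, k4] at e4
    · refine Or.inl ⟨by have := pc_z e4.1; omega, Or.inl (comps_inj ?_)⟩
      rw [← e4.2]
      rfl
    · refine Or.inl ⟨by have := pc_z e4.1; omega, Or.inr (comps_inj ?_)⟩
      rw [← e4.2, comps_app, comps_node, hs']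
      rfl
  · obtain ⟨b, B1, hb, hb0⟩ := h.hB.cons hB
    have hb1 := lo_ne_nil hb0
    have hb2 := lo_ne_pc hb0 (show 1 < q + 1 + 2 by omega)
    have fB := h.hB.ne_bd
    have gB := fun Y => h.hB.app_ne_bd hB Y
    rw [p1, p0] at hb2
    interval_cases i <;>
      simp [rq, hr, hs', hb, comps, hr1, hs1, hb1, hr2, hs2, hb2, R0, S0, p1, p2, u1, u1.symm, u2, u2.symm, happ, fR, fS, gS, fB, gB, k1, k2, k3, k4, k5, k6] at e4
    · refine Or.inl ⟨by have := pc_z e4.1; omega, Or.inl (comps_inj ?_)⟩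
      rw [← e4.2]
      rfl
    · refine Or.inl ⟨by have := pc_z e4.1; omega, Or.inr (comps_inj ?_)⟩
      rw [← e4.2, comps_app, comps_node, hs']
      rfl


/-- **DOWN**: the common words of the link `TyC 2 U` and a B-window -/
theorem NodeBw.bw_D {c : ℕ} (h : NodeBw k c q R B S) (h3 : 3 ≤ c) (w0 : X k) {i : ℕ} (hi : i < 20)
    (h' : TyC 2 U F' g') (hU : U ≠ .nil) (hU2 : 2 ∉ cont U) (hd : cyc (H1.wX R B S q w0 0) ∉ F')
    (hw : H1.wX R B S q w0 i ∈ g'.B) : ExD q R B S U := by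
  have ha := h.bwd h3
  have hw' : comps (H1.wX R B S q w0 i).1 = rq q R B S i := by rw [h.word w0 hi, H1.ch_eq, comps_rq hi]
  have f1 : comps (H1.ch 2) = [.nil △ .nil] := rfl
  have f2 : comps (.nil : BinaryTree Unit) = [] := rfl
  have f3 : H1.ch 2 = (.nil △ .nil) △ .nil := rfl
  rcases h'.words _ hw with e | ⟨hF, e | e⟩
  · rw [e, comps_w1, f1, f2] at hw'
    exact dnb0 ha hi hU hw'.symm
  · rw [e, comps_w1, f2, f3] at hw'
    have hw2 : rq q R B S i = comps U ++ [(.nil △ .nil) △ .nil] := hw'.symm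
    have hcS : BW.hcp 4 S ∨ (q = 1 ∧ comps S = [pc 3, pc 2]) := by
      rcases h.hcS with h4 | ⟨h4, -, h5⟩
      · left
        exact hcp_mono (by have := ha.q1; omega) h4
      · by_cases h6 : c = 3
        · right
          refine ⟨by omega, ?_⟩
          rw [h5, h6]
          rfl
        · left
          rw [h5]
          obtain ⟨m, rfl⟩ : ∃ m, c = m + 1 := ⟨c - 1, by omega⟩
          refine ⟨by rw [H1.ch_ht]; omega, ?_⟩
          rw [H1.ch_succ]
          exact ⟨by rw [H1.ch_ht]; omega, trivial⟩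
    rcases hcS with h4 | ⟨h4, h5⟩
    · exact dnb1 ha h4 hi hU hw2
    · by_cases h10 : i = 10
      · exfalso
        subst h10
        apply hd
        have h6 := h.toV.same10 w0
        rw [cyc_eq.2 h6]
        exact hF
      by_cases h11 : i = 11
      · exfalso
        subst h11
        apply hU2
        have e7 : rq q R B S 11 = (comps B ++ [.nil, pc q, .nil, pc 3]) ++ [pc 2] := by
          change comps B ++ (.nil :: pc q :: .nil :: comps S) = _
          rw [h5]
          simp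
        rw [e7] at hw2
        have e8 := (snoc_inj hw2).1
        subst h4
        exact mem_comps (x := 2) (A := pc 1) (by rw [← e8]; simp) (by rw [raise_pc]; simp)
      · exact dnb1x ha hi h10 h11 hU hw2
  · rw [e, comps_w1, f1] at hw'
    exact dnb2 ha hi hU hw'.symm

theorem mem_raiseB {M : Multiset ℕ} {x : ℕ} (h : x ∈ M) (hx : x < M.sup) : x ∈ raise M :=
  mem_raise h (by omega)

/-- `3` is a part of the exceptional `U` (marker 3) -/
theorem ExD.mem3 (h : NodeBw k 3 q R B S) (hE : ExD q R B S U) : 3 ∈ cont U := by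
  have hb := h.bwd le_rfl
  have hq := hb.q1
  have m1 := h.memR
  have m2 := h.memS
  have t1 := hb.top
  have t2 := hb.topS
  have r1 : 3 ∈ raise (cont R) := mem_raiseB m1 (by rw [← ht_eq]; omega)
  have r2 : 3 ∈ raise (cont S) := mem_raiseB m2 (by rw [← ht_eq]; omega)
  have a1 : 3 ∈ cont (app S (B △ .nil)) := by
    rw [cont_app]
    exact Multiset.mem_add.2 (Or.inl m2)
  rcases hE with ⟨-, rfl | rfl⟩ | ⟨-, rfl | rfl | rfl | rfl⟩
  · rw [cont_node]
    exact Multiset.mem_add.2 (Or.inl r1)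
  · exact a1
  · rw [cont_node, cont_app]
    exact Multiset.mem_add.2 (Or.inr (Multiset.mem_add.2 (Or.inl m1)))
  · rw [cont_node]
    refine Multiset.mem_add.2 (Or.inl (mem_raiseB ?_ ?_))
    · rw [cont_node]
      exact Multiset.mem_add.2 (Or.inl r1)
    · rw [← ht_eq]
      simp only [ht]
      omega
  · rw [cont_node]
    exact Multiset.mem_add.2 (Or.inl r2)
  · rw [cont_node]
    refine Multiset.mem_add.2 (Or.inl (mem_raiseB a1 ?_))
    rw [← ht_eq, ht_app]
    omega

theorem NodeBw.eq3 {c : ℕ} (h : NodeBw k c q R B S) (c3 : 3 ≤ c) (w0 : X k)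
    (h3 : 3 ∈ contc (cyc (H1.wX R B S q w0 0))) : c = 3 := by
  have h4 : 3 ∈ cont (H1.wX R B S q w0 0).1 := h3
  rw [h.word w0 (by norm_num), H1.cont_all h.dat (by norm_num)] at h4
  have h5 : 3 ∈ cont R + {q + 3} := h4
  rw [Multiset.mem_add, Multiset.mem_singleton] at h5
  have := h.lt
  rcases h5 with h5 | h5
  · rcases h.part 3 h5 with h6 | h6 <;> omega
  · omega

/-- **W Bw - Dn** (`TyC 2 U`, `2`, `3` no parts of `U`), marker 3 -/
theorem TyBw.disj_Dn (h : TyBw F g) (h2 : ∀ d ∈ F, 2 ∉ contc d) (h3 : ∀ d ∈ F, 3 ∈ contc d) (h' : TyC 2 U F' g')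
    (hU : U ≠ .nil) (hU2 : 2 ∉ cont U) (hU3 : 3 ∉ cont U) (hd : ∀ c ∈ F, c ∉ F') : ∀ w ∈ g.B, w ∉ g'.B := by
  intro w hw hw'
  obtain ⟨c, q, R, B, S, w0, i, h1, hi, rfl, hm⟩ := h.words w hw
  have c3 := h1.c3m w0 (h2 _ hm)
  obtain rfl := h1.eq3 c3 w0 (h3 _ hm)
  exact hU3 ((h1.bw_D c3 w0 hi h' hU hU2 (hd _ hm) hw').mem3 h1)

theorem TyBw.disj_DnSh (h : TyBw F g) (h2 : ∀ d ∈ F, 2 ∉ contc d) (h3 : ∀ d ∈ F, 3 ∈ contc d) (h' : TyC 2 U F' g')
    (hU : DnSh U) (hd : ∀ c ∈ F, c ∉ F') : ∀ w ∈ g.B, w ∉ g'.B :=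
  h.disj_Dn h2 h3 h' hU.sh.ne (fun h4 => (hU.p23 2 h4).1 rfl) (fun h4 => (hU.p23 3 h4).2 rfl) hd

/-- the words `U[3]` for which DOWN over a bare `U` is used: T-fixed, or both parts 3 in one hole -/
def DnFix (U : BinaryTree Unit) : Prop :=
  (Tsq.sq U).2 = pc 3 ∨ app U (pc 3) = app (Tsq.sq U).2 (app (pc 3) (Tsq.sq U).1)

theorem sq1_ne (T : BinaryTree Unit) (h : T ≠ .nil) : (Tsq.sq T).1 ≠ .nil := by
  obtain ⟨X, Y, e, -⟩ := sq_top13 T h
  rw [e]
  simp

/-- the second half of the square consists of components of the word -/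
theorem sq2_sub (T : BinaryTree Unit) : ∀ x ∈ comps (Tsq.sq T).2, x ∈ comps T := by
  induction T with
  | nil => intro x hx; exact absurd hx (by simp [Tsq.sq, comps])
  | node _ A C _ ih =>
    intro x hx
    change x ∈ comps (Tsq.sq (A △ C)).2 at hx
    change x ∈ A :: comps C
    by_cases h : Tsq.ht A + 1 < Tsq.ht C
    · have hC : C ≠ .nil := by
        rintro rfl
        exact absurd h (by simp [Tsq.ht])
      obtain ⟨X, Y, e, -⟩ := sq_top13 C hC
      rw [Tsq.sq_lt h e] at hx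
      exact List.mem_cons_of_mem _ (ih x hx)
    · by_cases hA : A = .nil
      · subst hA
        have h1 : Tsq.ht C ≤ 1 := by
          have : Tsq.ht (BinaryTree.nil : BinaryTree Unit) = 0 := rfl
          omega
        rw [Tsq.sq_nil h1] at hx
        exact List.mem_cons_of_mem _ hx
      · rw [Tsq.sq_ge hA (by omega)] at hx
        exact List.mem_cons_of_mem _ hx

/-- then `[3]` is a component of `U` -/
theorem DnFix.mem (hf : DnFix U) (hU : U ≠ .nil) : pc 2 ∈ comps U := by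
  have h1 := sq2_sub U
  have e3 : comps (pc 3) = [pc 2] := rfl
  rcases hf with h | h
  · apply h1
    rw [h, e3]
    simp
  · have h2 := congrArg comps h
    rw [comps_app, comps_app, comps_app, e3] at h2
    have h3 : comps (Tsq.sq U).1 ≠ [] := comps_ne (sq1_ne U hU)
    obtain ⟨L, x, hL⟩ : ∃ L x, comps (Tsq.sq U).1 = L ++ [x] := by
      rcases List.eq_nil_or_concat (comps (Tsq.sq U).1) with h4 | ⟨L, x, h4⟩
      · exact absurd h4 h3
      · exact ⟨L, x, by rw [h4]; simp⟩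
    rw [hL] at h2
    have h5 : comps U ++ [pc 2] = (comps (Tsq.sq U).2 ++ pc 2 :: L) ++ [x] := by
      rw [h2]
      simp
    rw [(snoc_inj h5).1]
    simp

theorem hcp_mem {n : ℕ} {T r : BinaryTree Unit} (h : BW.hcp n T) (hr : r ∈ comps T) : n ≤ ht r + 1 := by
  induction T with
  | nil => simp [comps] at hr
  | node _ A C _ ih =>
    change BW.hcp n (A △ C) at h
    rw [BW.hcp_node] at h
    change r ∈ A :: comps C at hr
    rcases List.mem_cons.1 hr with rfl | hr
    · exact h.1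
    · exact ih h.2 hr

/-- no exceptional `U` has the component `[3]` (but over `z = (4^r, 3)`) -/
theorem ExD.no3 (h : BwDt q R B S) (hE : ExD q R B S U) (h4 : BW.hcp 4 S) : pc 2 ∉ comps U := by
  obtain ⟨k1, k2, k3, k4, k5, k6⟩ := h.RS2
  have e2 : ht (pc 2) = 2 := rfl
  have p2 : pc 2 = (.nil △ .nil) △ .nil := rfl
  have p1 : pc 2 ≠ .nil := by rw [p2]; simp
  have mR : pc 2 ∉ comps R := fun hm => by
    have := hcp_mem h.hcR hm
    omega
  have mS : pc 2 ∉ comps S := fun hm => by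
    have := hcp_mem h4 hm
    omega
  have mB : pc 2 ∉ comps B := fun hm => by
    have h5 := h.hB 3 (mem_comps hm (by rw [raise_pc]; simp))
    have := h.q1
    omega
  have nB : pc 2 ≠ B := fun e => k5 (by rw [← e, p2])
  intro hm
  rcases hE with ⟨-, rfl | rfl⟩ | ⟨-, rfl | rfl | rfl | rfl⟩ <;>
    simp only [comps_app, comps_node, comps, List.mem_append, List.mem_cons, List.not_mem_nil, or_false] at hm
  · exact k1 (by rw [← hm, p2])
  · rcases hm with hm | hm
    · exact mS hm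
    · exact nB hm
  · rcases hm with hm | hm | hm
    · exact p1 hm
    · exact mR hm
    · exact p1 hm
  · have e5 : (.nil △ .nil : BinaryTree Unit) = R := by injection hm
    exact k3 e5.symm
  · rcases hm with hm | hm | hm
    · exact k2 (by rw [← hm, p2])
    · exact mB hm
    · exact p1 hm
  · have e5 := congrArg ht hm
    rw [ht_app] at e5
    have := h.topS
    omega

/-- the exception `z = (4^r, 3)`: contents -/
theorem NodeBw.exc4 (h : NodeBw k 3 1 R B S) (hS : S = H1.ch 3 △ H1.ch 3) : ∀ x ∈ cont B, x = 4 := by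
  intro x hx
  have h1 := h.bare x hx
  have h2 : ht S = 4 := by rw [hS]; rfl
  have h3 := h.dat.htS
  have h4 : x ∈ cont R := by
    rw [← h.eq]
    exact Multiset.mem_add.2 (Or.inl hx)
  have h5 : x ≤ ht R := r3_htc h4
  omega

/-- **W Bw - Dn** over a word with a component `[3]` (DOWN over bare words), marker 3, `z` not `(4^r, 3)` -/
theorem TyBw.disj_Dn3 (h : TyBw F g) (h2 : ∀ d ∈ F, 2 ∉ contc d) (h' : TyC 2 U F' g')
    (hU2 : 2 ∉ cont U) (hm3 : pc 2 ∈ comps U) (hd : ∀ c ∈ F, c ∉ F')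
    (hx : ∀ d ∈ F, ∃ x ∈ contc d, x ≠ 3 ∧ x ≠ 4) : ∀ w ∈ g.B, w ∉ g'.B := by
  intro w hw hw'
  obtain ⟨c, q, R, B, S, w0, i, h1, hi, rfl, hm⟩ := h.words w hw
  have c3 := h1.c3m w0 (h2 _ hm)
  have hU : U ≠ .nil := by
    rintro rfl
    simp [comps] at hm3
  have hE := h1.bw_D c3 w0 hi h' hU hU2 (hd _ hm) hw'
  have hb := h1.bwd c3
  refine hE.no3 hb ?_ hm3
  rcases h1.hcS with h4 | ⟨h4, h6, h5⟩
  · exact hcp_mono (by have := hb.q1; omega) h4
  · have hq : q ≤ 2 := by
      rcases hE with ⟨hq, -⟩ | ⟨hq, -⟩ <;> omega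
    by_cases h7 : c = 3
    · exfalso
      subst h7
      obtain rfl : q = 1 := by omega
      obtain ⟨x, hx1, hx2, hx3⟩ := hx _ hm
      have hx4 : x ∈ cont (H1.wX R B S 1 w0 0).1 := hx1
      rw [h1.word w0 (by norm_num), H1.cont_all h1.dat (by norm_num)] at hx4
      have hx5 : x ∈ cont R + {4} := hx4
      rw [← h1.eq, Multiset.mem_add, Multiset.mem_add, Multiset.mem_singleton] at hx5
      have e4 : cont S = {4} + {3} := by rw [h5]; rfl
      rcases hx5 with (hx5 | hx5) | hx5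
      · exact hx3 (h1.exc4 h5 x hx5)
      · rw [e4, Multiset.mem_add, Multiset.mem_singleton, Multiset.mem_singleton] at hx5
        rcases hx5 with hx5 | hx5
        · exact hx3 hx5
        · exact hx2 hx5
      · exact hx3 hx5
    · rw [h5]
      obtain ⟨m, rfl⟩ : ∃ m, c = m + 1 := ⟨c - 1, by omega⟩
      refine ⟨by rw [H1.ch_ht]; omega, ?_⟩
      rw [H1.ch_succ]
      exact ⟨by rw [H1.ch_ht]; omega, trivial⟩

/-- **W Bw - Dn** over a bare word `U` with `U[3]` T-fixed or both parts 3 in one hole -/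
theorem TyBw.disj_DnF (h : TyBw F g) (h2 : ∀ d ∈ F, 2 ∉ contc d) (h' : TyC 2 U F' g') (hU : U ≠ .nil)
    (hU2 : 2 ∉ cont U) (hU1 : 1 ∉ cont U) (hf : DnFix U) (hd : ∀ c ∈ F, c ∉ F') : ∀ w ∈ g.B, w ∉ g'.B := by
  intro w hw hw'
  obtain ⟨c, q, R, B, S, w0, i, h1, hi, rfl, hm⟩ := h.words w hw
  have c3 := h1.c3m w0 (h2 _ hm)
  have hE := h1.bw_D c3 w0 hi h' hU hU2 (hd _ hm) hw'
  have hb := h1.bwd c3
  have hm3 := hf.mem hU
  have hq : q ≤ 2 := by
    rcases hE with ⟨hq, -⟩ | ⟨hq, -⟩ <;> omega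
  have key : BW.hcp 4 S ∨ (c = 3 ∧ q = 1 ∧ S = H1.ch 3 △ H1.ch 3) := by
    rcases h1.hcS with h4 | ⟨h4, h6, h5⟩
    · left
      exact hcp_mono (by have := hb.q1; omega) h4
    · by_cases h7 : c = 3
      · right
        subst h7
        exact ⟨rfl, by omega, h5⟩
      · left
        rw [h5]
        obtain ⟨m, rfl⟩ : ∃ m, c = m + 1 := ⟨c - 1, by omega⟩
        refine ⟨by rw [H1.ch_ht]; omega, ?_⟩
        rw [H1.ch_succ]
        exact ⟨by rw [H1.ch_ht]; omega, trivial⟩
  rcases key with h4 | ⟨rfl, rfl, h5⟩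
  · exact hE.no3 hb h4 hm3
  · rcases hE with ⟨-, e | e⟩ | ⟨hq2, -⟩
    · rw [e] at hm3
      have h6 : pc 2 ∈ [R] := hm3
      rw [List.mem_singleton] at h6
      exact hb.RS2.1 h6.symm
    · by_cases hB : B = .nil
      · apply hU1
        rw [e, hB, cont_app, cont_node, cont_nil, raise_zero]
        simp
      · have h7 := h1.exc4 h5
        have h8 : Tsq.ht B = 4 := by
          rw [H1.ht_eq, ht_eq]
          apply le_antisymm
          · exact Multiset.sup_le.2 (fun x hx => (h7 x hx).le)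
          · have h9 := sup_mem (cont_ne hB)
            have := h7 _ h9
            omega
        have e1 : U = pc 3 △ (pc 2 △ (B △ .nil)) := by
          rw [e, h5]
          rfl
        have a2 : Tsq.ht (pc 2) = 2 := rfl
        have a3 : Tsq.ht (pc 3) = 3 := rfl
        have a0 : Tsq.ht (.nil : BinaryTree Unit) = 0 := rfl
        have b1 := Tsq.sq_ge (C := .nil) hB (by rw [a0]; omega)
        have b2 := Tsq.sq_lt (A := pc 2) (C := B △ .nil) (by rw [Tsq.ht_node, a2, h8, a0]; omega)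
          (congrArg Prod.fst b1)
        have b3 := Tsq.sq_lt (A := pc 3) (C := pc 2 △ (B △ .nil)) (by rw [Tsq.ht_node, Tsq.ht_node, a3, a2, h8, a0]; omega)
          (congrArg Prod.fst b2)
        have b4 : (Tsq.sq U).2 = .nil := by
          rw [e1, b3]
          change (Tsq.sq (pc 2 △ (B △ .nil))).2 = .nil
          rw [b2]
          change (Tsq.sq (B △ .nil)).2 = .nil
          rw [b1]
        rcases hf with h9 | h9
        · rw [b4] at h9
          exact absurd h9 (by simp [pc])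
        · rw [b4, e1] at h9
          have h10 : pc 3 △ app (pc 2 △ (B △ .nil)) (pc 3) = pc 2 △ (Tsq.sq U).1 := by
            rw [e1]
            exact h9
          have h11 : pc 3 = pc 2 := by injection h10
          have := congrArg ht h11
          rw [ht_pc, ht_pc] at this
          omega
    · omega

end Pool.OddHC
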