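import Pool.Agent.Work.MP_8f87b2_h89.BwC

/-!
# MP_8f87b2_co: the inner words of the B-windows (marker `c >= 3`) against content links with `[2]`

`TyBw.inner_Cl2` (`TyC' 2 U`, `U` ends light), `TyBw.inner_Cr2` (`TyC 2 U`, `U` starts light).

-/

set_option autoImplicit false
set_option linter.all false

namespace Pool.OddHC

open Finset Equiv BinaryTree Pool.Agent.Work.MP_8f87b2_co HM

variable {k : ℕ} {F F' : Set (Cyc k)} {g g' : DG k} {q : ℕ} {R B S U : BinaryTree Unit}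

/-- the six inner words -/
theorem TyBw.innW (h : TyBw F g) : ∀ p ∈ g.arcs, ∀ w ∈ innA p, ∃ (c q : ℕ) (R B S : BinaryTree Unit) (w0 : X k) (i : ℕ),
    NodeBw k c q R B S ∧ i ∈ [0, 1, 3, 6, 8, 9] ∧ w = TT (H1.wX R B S q w0 i) ∧ cyc (H1.wX R B S q w0 0) ∈ F := by
  obtain ⟨c, q, R, B, S, w0, h1, hne, rfl, rfl⟩ := h
  intro p hp w hw
  have hp' : p = (H1.wX R B S q w0 0, H1.wX R B S q w0 10) ∨
      p = (H1.wX R B S q w0 1, H1.wX R B S q w0 11) ∨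
      p = (H1.wX R B S q w0 3, H1.wX R B S q w0 12) ∨
      p = (H1.wX R B S q w0 6, H1.wX R B S q w0 15) ∨
      p = (H1.wX R B S q w0 8, H1.wX R B S q w0 14) ∨
      p = (H1.wX R B S q w0 9, H1.wX R B S q w0 17) := hp
  rcases hp' with rfl | rfl | rfl | rfl | rfl | rfl
  · exact ⟨c, q, R, B, S, w0, 0, h1, by simp, hw, rfl⟩
  · exact ⟨c, q, R, B, S, w0, 1, h1, by simp, hw, rfl⟩
  · exact ⟨c, q, R, B, S, w0, 3, h1, by simp, hw, rfl⟩
  · exact ⟨c, q, R, B, S, w0, 6, h1, by simp, hw, rfl⟩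
  · exact ⟨c, q, R, B, S, w0, 8, h1, by simp, hw, rfl⟩
  · exact ⟨c, q, R, B, S, w0, 9, h1, by simp, hw, rfl⟩

theorem NodeBw.inn3 {c : ℕ} (h : NodeBw k c q R B S) (c3 : 3 ≤ c) (w0 : X k) {i : ℕ}
    (hi : i ∈ [0, 1, 3, 6, 8, 9]) : H1.InnP 3 (TT (H1.wX R B S q w0 i)).1 := by
  have hp : ∀ x ∈ cont R, 3 ≤ x := by
    intro x hx
    have := h.lt
    rcases h.part x hx with e | e <;> omega
  have ht : 3 < Tsq.ht R := by
    rw [H1.ht_eq]
    have := h.top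
    have := h.lt
    omega
  obtain ⟨a, b, h1⟩ := H1.hg_FMT (by omega) (H1.hg_of_cont (by omega) hp) ht
  obtain ⟨u, v, h2⟩ := H1.FMT_W (q := q) (B := B) (S := S) h1 (by rw [H1.ht_eq]; exact h.top) i hi
  have hi' : i < 20 := by
    simp only [List.mem_cons, List.not_mem_nil, or_false] at hi
    omega
  rw [← h.word w0 hi'] at h2
  obtain ⟨h3, h4⟩ := h2.inner
  exact ⟨le_rfl, h3, h4⟩

theorem TyBw.innP3 (h : TyBw F g) (h2 : ∀ d ∈ F, 2 ∉ contc d) : ∀ p ∈ g.arcs, ∀ w ∈ innA p, H1.InnP 3 w.1 := by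
  intro p hp w hw
  obtain ⟨c, q, R, B, S, w0, i, h1, hi, rfl, hm⟩ := h.innW p hp w hw
  exact h1.inn3 (h1.c3m w0 (h2 _ hm)) w0 hi

/-- **I Bw - Cl** (`TyC' 2 U`, `U` ends light), marker `>= 3` -/
theorem TyBw.inner_Cl2 (h : TyBw F g) (h2 : ∀ d ∈ F, 2 ∉ contc d) (h' : TyC' 2 U F' g') {n : ℕ} {v : List Bool}
    (hn : n ≤ 2) (hS : wd U = v ++ true :: List.replicate n false) : ∀ p ∈ g.arcs, ∀ w ∈ innA p, w ∉ g'.B := by
  intro p hp w hw
  exact (h.innP3 h2 p hp w hw).not_Cl2 h' hn hS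

/-- **I Bw - Cr** (`TyC 2 U`, `U` starts light), marker `>= 3` -/
theorem TyBw.inner_Cr2 (h : TyBw F g) (h2 : ∀ d ∈ F, 2 ∉ contc d) (h' : TyC 2 U F' g') {n : ℕ} {v : List Bool}
    (hn : n ≤ 2) (hS : wd U = List.replicate n true ++ false :: v) : ∀ p ∈ g.arcs, ∀ w ∈ innA p, w ∉ g'.B := by
  intro p hp w hw
  exact (h.innP3 h2 p hp w hw).not_Cr2 h' hn hS

end Pool.OddHC
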