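import Pool.Agent.Work.MP_8f87b2_h58.InA0
import Pool.Agent.Work.MP_8f87b2_h13.A0Dn
import Pool.Agent.Work.MP_8f87b2_h89.R3S

/-!
# MP_8f87b2_co: words of the right c = 3 windows (TyR3, TyS3) against the content links Cr, Cl
-/

set_option autoImplicit false
set_option linter.all false

namespace Pool.OddHC

open Finset Equiv BinaryTree Pool.Agent.Work.MP_8f87b2_co HM

variable {k : ℕ} {F F' : Set (Cyc k)} {g g' : DG k} {R B S U : BinaryTree Unit}

theorem r3_comps {x : ℕ} {Y : BinaryTree Unit} (h : x ∈ cont Y) : ∃ A ∈ comps Y, x ∈ raise (cont A) := by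
  induction Y with
  | nil => exact absurd h (by rw [cont_nil]; simp)
  | node _ C D _ ih =>
    have h' : x ∈ cont (C △ D) := h
    rw [cont_node, Multiset.mem_add] at h'
    change ∃ A ∈ C :: comps D, _
    rcases h' with h1 | h1
    · exact ⟨C, by simp, h1⟩
    · obtain ⟨A, hA, hx⟩ := ih h1
      exact ⟨A, by simp [hA], hx⟩

theorem A0D.topSr3 (h : A0D 0 R B S) : 3 < ht S := by
  rw [h.hS]; exact h.top

theorem r3_htc {x : ℕ} (h : x ∈ cont U) : x ≤ ht U := by
  rw [OddHC.ht_eq]
  exact Multiset.le_sup h

/-- low components: low word -/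
theorem r3_low {n : ℕ} {Y : BinaryTree Unit} (h : ∀ A ∈ comps Y, ht A + 1 ≤ n) : ht Y ≤ n := by
  induction Y with
  | nil => rw [ht]; omega
  | node _ C D _ ih =>
    rw [ht]
    have h1 := h C (by simp [comps])
    have h2 := ih (fun A hA => h A (by simp [comps, hA]))
    omega

theorem r3_mem (h : A0D 0 R B S) : 3 ∈ cont B ∨ 3 ∈ cont S := by
  have := h.mem
  rw [← h.eq, Multiset.mem_add] at this
  exact this

theorem r3_raise {M : Multiset ℕ} {p : ℕ} (h : p ∈ raise M) : p = M.sup + 1 ∨ p ∈ M := by
  rcases Multiset.mem_cons.1 h with h1 | h1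
  · exact Or.inl h1
  · exact Or.inr (Multiset.mem_of_mem_erase h1)

theorem cr0 (h : A0D 0 R B S) {i c : ℕ} (hi : i < 20) (hU : c + 4 ≤ ht U)
    (hp : ∀ x ∈ cont U, x = 1 ∨ c + 4 ≤ x)
    (e : rl R B S i = [U, pc (c + 2)]) : B = pc (c + 3) ∧ U = .nil △ (.nil △ S) := by
  obtain ⟨⟨r, R1, R2, r', hr, hr', hr0, hr0'⟩, ⟨s0, S1, S2, s1, hs', hs1, hs0, hs0'⟩, hB⟩ := h.dat
  have hr1 := lo_ne_nil hr0
  have hr1' := lo_ne_nil hr0'
  have hs2 := lo_ne_nil hs0
  have hs2' := lo_ne_nil hs0'
  have e2 : lp 2 = .nil △ (.nil △ .nil) := rfl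
  have p1 : pc 1 = .nil △ .nil := rfl
  have p2 : pc 2 = (.nil △ .nil) △ .nil := rfl
  have pp : pc (c + 2) = (pc c △ .nil) △ .nil := rfl
  have R0 := h.R_ne
  have S0 := h.S_ne
  have u1 : U ≠ .nil := by rintro rfl; rw [ht] at hU; omega
  have u2 : comps U ≠ [] := comps_ne u1
  have c8 : ∀ Y : BinaryTree Unit, app Y (.nil △ (.nil △ .nil)) ≠ .nil := by
    intro Y
    cases Y <;> simp [app]
  have c9 : ∀ Y : BinaryTree Unit, app S (Y △ .nil) ≠ .nil := by
    intro Y
    exact app_ne' (by simp)
  have len : ∀ {a b : List (BinaryTree Unit)}, a = b → a.length = b.length := fun e => by rw [e]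
  have big : ∀ {n : ℕ}, (∀ A ∈ (comps U).reverse, ht A + 1 ≤ n) → c + 4 ≤ n := fun hh =>
    hU.trans (r3_low (fun A hA => hh A (List.mem_reverse.2 hA)))
  have b1 : (BinaryTree.nil △ BinaryTree.nil : BinaryTree Unit) ∈ (comps U).reverse → False := by
    intro hh
    have h2 : 2 ∈ cont U := mem_comps (List.mem_reverse.1 hh) (by
      change 2 ∈ raise (cont (pc 1)); rw [raise_pc]; exact Multiset.mem_singleton_self _)
    have := hp 2 h2
    omega
  have b2 : ((BinaryTree.nil △ BinaryTree.nil) △ BinaryTree.nil : BinaryTree Unit) ∈ (comps U).reverse → False := by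
    intro hh
    have h2 : 3 ∈ cont U := mem_comps (List.mem_reverse.1 hh) (by
      change 3 ∈ raise (cont (pc 2)); rw [raise_pc]; exact Multiset.mem_singleton_self _)
    have := hp 3 h2
    omega
  have b3 : (BinaryTree.nil △ (BinaryTree.nil △ BinaryTree.nil) : BinaryTree Unit) ∈ (comps U).reverse → False := by
    intro hh
    have h2 : 2 ∈ cont U := mem_comps (List.mem_reverse.1 hh) (by decide)
    have := hp 2 h2
    omega
  have b4 : 3 ∉ cont U := by
    intro h2
    have := hp 3 h2
    omega
  have nR : ∀ a ∈ comps R, a ≠ .nil := fun a ha => lo_ne_nil (h.hv.all a ha)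
  have nB : ∀ a ∈ comps B, a ≠ .nil := fun a ha => lo_ne_nil (h.hvB.all a ha)
  have nS : ∀ a ∈ comps S, a ≠ .nil := fun a ha => lo_ne_nil (h.hvS.all a ha)
  have k3 : ∀ A, 3 ∈ raise (cont A) → A ∈ (comps U).reverse → False := fun A h1 h2 =>
    b4 (mem_comps (List.mem_reverse.1 h2) h1)
  have kp : 3 ∉ raise (cont (pc (c + 3))) := by
    rw [raise_pc, Multiset.mem_singleton]
    omega
  have k4 : 3 ∈ cont S → 3 ∈ raise (cont (.nil △ (.nil △ S))) := by
    intro hh
    have h5 : 3 ∈ cont (.nil △ (.nil △ S)) := by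
      rw [cont_node, cont_node, Multiset.mem_add, Multiset.mem_add]
      exact Or.inr (Or.inr hh)
    apply mem_raise h5
    rw [← OddHC.ht_eq]
    have h6 := h.topSr3
    simp only [ht]
    omega
  have e4 := congrArg List.reverse e
  have e0 := e
  rcases hB with hB | ⟨b, B1, B2, b', hBn, hb, hb', hb0, hb0'⟩
  · subst hB
    have m3 : 3 ∈ cont S := by
      rcases r3_mem h with hh | hh
      · exact absurd hh (by rw [cont_nil]; simp)
      · exact hh
    interval_cases i <;>
      simp [rl, hr', hs1, comps, hr1', hs2', R0, S0, p1, p2, e2, u1, u1.symm, u2, u2.symm, c8, c9, pp] at e4 <;>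
      simp [rl, hr, hs', comps, hr1, hs2, R0, S0, p1, p2, e2, u1, u1.symm, u2, u2.symm, c8, c9, pp] at e <;>
      simp only [rl] at e0
    all_goals try (exfalso; rw [← e.1] at hU; simp [ht] at hU; done)
    all_goals try (exfalso; have e7 := len e.2; simp at e7; done)
    all_goals try (exfalso; have e7 := len e.2; simp at e7; omega)
    all_goals try (exfalso; have e7 := len e4.2; simp at e7; done)
    all_goals try (exfalso; have e7 := len e4.2; simp at e7; omega)
    all_goals try (exfalso; have e7 := congrArg comps e4.1; rw [comps_app] at e7; have e8 := len e7; simp [comps] at e8; done)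
    all_goals try (exfalso; refine b1 ?_; rw [← e4.2]; simp; done)
    all_goals try (exfalso; refine b2 ?_; rw [← e4.2]; simp; done)
    all_goals try (exfalso; refine b3 ?_; rw [← e4.2]; simp; done)
    all_goals try (exfalso; rw [← e4.2] at big; have e7 := big (n := 2); simp [ht] at e7; done)
    · exfalso
      have hc : c = 0 := pc_z e4.1.symm
      have h3 := h.mem
      obtain ⟨A, hA, hx⟩ := r3_comps h3
      rw [hr', e4.2.2, e4.2.1, List.nil_append, List.mem_singleton] at hA
      rw [hA] at hx
      rcases r3_raise hx with h5 | h5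
      · rw [← OddHC.ht_eq] at h5; omega
      · exact b4 h5

  · have hb1 := lo_ne_nil hb0
    have hb1' := lo_ne_nil hb0'
    interval_cases i <;>
      simp [rl, hr', hs1, hb', comps, hr1', hs2', hb1', R0, S0, p1, p2, e2, u1, u1.symm, u2, u2.symm, c8, c9, pp] at e4 <;>
      simp [rl, hr, hs', hb, comps, hr1, hs2, hb1, R0, S0, p1, p2, e2, u1, u1.symm, u2, u2.symm, c8, c9, pp] at e <;>
      simp only [rl] at e0
    all_goals try (exfalso; rw [← e.1] at hU; simp [ht] at hU; done)
    all_goals try (exfalso; have e7 := len e.2; simp at e7; done)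
    all_goals try (exfalso; have e7 := len e.2; simp at e7; omega)
    all_goals try (exfalso; have e7 := len e4.2; simp at e7; done)
    all_goals try (exfalso; have e7 := len e4.2; simp at e7; omega)
    all_goals try (exfalso; have e7 := congrArg comps e4.1; rw [comps_app] at e7; have e8 := len e7; simp [comps] at e8; done)
    all_goals try (exfalso; refine b1 ?_; rw [← e4.2]; simp; done)
    all_goals try (exfalso; refine b2 ?_; rw [← e4.2]; simp; done)
    all_goals try (exfalso; refine b3 ?_; rw [← e4.2]; simp; done)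
    all_goals try (exfalso; rw [← e4.2] at big; have e7 := big (n := 2); simp [ht] at e7; done)
    · exfalso
      have hc : c = 0 := pc_z e4.1.symm
      have h3 := h.mem
      obtain ⟨A, hA, hx⟩ := r3_comps h3
      rw [hr', e4.2.2, e4.2.1, List.nil_append, List.mem_singleton] at hA
      rw [hA] at hx
      rcases r3_raise hx with h5 | h5
      · rw [← OddHC.ht_eq] at h5; omega
      · exact b4 h5
    · exact ⟨comps_inj (by rw [hb, e.2.1, e.2.2]; rfl), e.1.symm⟩


theorem cr1 (h : A0D 0 R B S) {i c : ℕ} (hi : i < 20) (hU : c + 4 ≤ ht U)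
    (hp : ∀ x ∈ cont U, x = 1 ∨ c + 4 ≤ x)
    (e : rl R B S i = comps U ++ [pc (c + 3)]) : B = pc (c + 3) ∧ U = .nil △ (.nil △ S) := by
  obtain ⟨⟨r, R1, R2, r', hr, hr', hr0, hr0'⟩, ⟨s0, S1, S2, s1, hs', hs1, hs0, hs0'⟩, hB⟩ := h.dat
  have hr1 := lo_ne_nil hr0
  have hr1' := lo_ne_nil hr0'
  have hs2 := lo_ne_nil hs0
  have hs2' := lo_ne_nil hs0'
  have e2 : lp 2 = .nil △ (.nil △ .nil) := rfl
  have p1 : pc 1 = .nil △ .nil := rfl
  have p2 : pc 2 = (.nil △ .nil) △ .nil := rfl
  have pp : pc (c + 3) = ((pc c △ .nil) △ .nil) △ .nil := rfl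
  have R0 := h.R_ne
  have S0 := h.S_ne
  have u1 : U ≠ .nil := by rintro rfl; rw [ht] at hU; omega
  have u2 : comps U ≠ [] := comps_ne u1
  have c8 : ∀ Y : BinaryTree Unit, app Y (.nil △ (.nil △ .nil)) ≠ .nil := by
    intro Y
    cases Y <;> simp [app]
  have c9 : ∀ Y : BinaryTree Unit, app S (Y △ .nil) ≠ .nil := by
    intro Y
    exact app_ne' (by simp)
  have len : ∀ {a b : List (BinaryTree Unit)}, a = b → a.length = b.length := fun e => by rw [e]
  have big : ∀ {n : ℕ}, (∀ A ∈ (comps U).reverse, ht A + 1 ≤ n) → c + 4 ≤ n := fun hh =>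
    hU.trans (r3_low (fun A hA => hh A (List.mem_reverse.2 hA)))
  have b1 : (BinaryTree.nil △ BinaryTree.nil : BinaryTree Unit) ∈ (comps U).reverse → False := by
    intro hh
    have h2 : 2 ∈ cont U := mem_comps (List.mem_reverse.1 hh) (by
      change 2 ∈ raise (cont (pc 1)); rw [raise_pc]; exact Multiset.mem_singleton_self _)
    have := hp 2 h2
    omega
  have b2 : ((BinaryTree.nil △ BinaryTree.nil) △ BinaryTree.nil : BinaryTree Unit) ∈ (comps U).reverse → False := by
    intro hh
    have h2 : 3 ∈ cont U := mem_comps (List.mem_reverse.1 hh) (by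
      change 3 ∈ raise (cont (pc 2)); rw [raise_pc]; exact Multiset.mem_singleton_self _)
    have := hp 3 h2
    omega
  have b3 : (BinaryTree.nil △ (BinaryTree.nil △ BinaryTree.nil) : BinaryTree Unit) ∈ (comps U).reverse → False := by
    intro hh
    have h2 : 2 ∈ cont U := mem_comps (List.mem_reverse.1 hh) (by decide)
    have := hp 2 h2
    omega
  have b4 : 3 ∉ cont U := by
    intro h2
    have := hp 3 h2
    omega
  have nR : ∀ a ∈ comps R, a ≠ .nil := fun a ha => lo_ne_nil (h.hv.all a ha)
  have nB : ∀ a ∈ comps B, a ≠ .nil := fun a ha => lo_ne_nil (h.hvB.all a ha)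
  have nS : ∀ a ∈ comps S, a ≠ .nil := fun a ha => lo_ne_nil (h.hvS.all a ha)
  have k3 : ∀ A, 3 ∈ raise (cont A) → A ∈ (comps U).reverse → False := fun A h1 h2 =>
    b4 (mem_comps (List.mem_reverse.1 h2) h1)
  have kp : 3 ∉ raise (cont (pc (c + 3))) := by
    rw [raise_pc, Multiset.mem_singleton]
    omega
  have k4 : 3 ∈ cont S → 3 ∈ raise (cont (.nil △ (.nil △ S))) := by
    intro hh
    have h5 : 3 ∈ cont (.nil △ (.nil △ S)) := by
      rw [cont_node, cont_node, Multiset.mem_add, Multiset.mem_add]
      exact Or.inr (Or.inr hh)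
    apply mem_raise h5
    rw [← OddHC.ht_eq]
    have h6 := h.topSr3
    simp only [ht]
    omega
  have e4 := congrArg List.reverse e
  have e0 := e
  rcases hB with hB | ⟨b, B1, B2, b', hBn, hb, hb', hb0, hb0'⟩
  · subst hB
    have m3 : 3 ∈ cont S := by
      rcases r3_mem h with hh | hh
      · exact absurd hh (by rw [cont_nil]; simp)
      · exact hh
    interval_cases i <;>
      simp [rl, hr', hs1, comps, hr1', hs2', R0, S0, p1, p2, e2, u1, u1.symm, u2, u2.symm, c8, c9, pp] at e4 <;>
      simp [rl, hr, hs', comps, hr1, hs2, R0, S0, p1, p2, e2, u1, u1.symm, u2, u2.symm, c8, c9, pp] at e <;>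
      simp only [rl] at e0
    all_goals try (exfalso; rw [← e.1] at hU; simp [ht] at hU; done)
    all_goals try (exfalso; have e7 := len e.2; simp at e7; done)
    all_goals try (exfalso; have e7 := len e.2; simp at e7; omega)
    all_goals try (exfalso; have e7 := len e4.2; simp at e7; done)
    all_goals try (exfalso; have e7 := len e4.2; simp at e7; omega)
    all_goals try (exfalso; have e7 := congrArg comps e4.1; rw [comps_app] at e7; have e8 := len e7; simp [comps] at e8; done)
    all_goals try (exfalso; refine b1 ?_; rw [← e4.2]; simp; done)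
    all_goals try (exfalso; refine b2 ?_; rw [← e4.2]; simp; done)
    all_goals try (exfalso; refine b3 ?_; rw [← e4.2]; simp; done)
    all_goals try (exfalso; rw [← e4.2] at big; have e7 := big (n := 2); simp [ht] at e7; done)
    · exfalso
      obtain ⟨A, hA, hx⟩ := r3_comps m3
      rw [hs1, List.mem_append, List.mem_singleton] at hA
      rcases hA with hA | hA
      · exact k3 A hx (by rw [← e4.2]; simp [hA])
      · rw [hA, e4.1] at hx
        exact kp hx

  · have hb1 := lo_ne_nil hb0
    have hb1' := lo_ne_nil hb0'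
    interval_cases i <;>
      simp [rl, hr', hs1, hb', comps, hr1', hs2', hb1', R0, S0, p1, p2, e2, u1, u1.symm, u2, u2.symm, c8, c9, pp] at e4 <;>
      simp [rl, hr, hs', hb, comps, hr1, hs2, hb1, R0, S0, p1, p2, e2, u1, u1.symm, u2, u2.symm, c8, c9, pp] at e <;>
      simp only [rl] at e0
    all_goals try (exfalso; rw [← e.1] at hU; simp [ht] at hU; done)
    all_goals try (exfalso; have e7 := len e.2; simp at e7; done)
    all_goals try (exfalso; have e7 := len e.2; simp at e7; omega)
    all_goals try (exfalso; have e7 := len e4.2; simp at e7; done)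
    all_goals try (exfalso; have e7 := len e4.2; simp at e7; omega)
    all_goals try (exfalso; have e7 := congrArg comps e4.1; rw [comps_app] at e7; have e8 := len e7; simp [comps] at e8; done)
    all_goals try (exfalso; refine b1 ?_; rw [← e4.2]; simp; done)
    all_goals try (exfalso; refine b2 ?_; rw [← e4.2]; simp; done)
    all_goals try (exfalso; refine b3 ?_; rw [← e4.2]; simp; done)
    all_goals try (exfalso; rw [← e4.2] at big; have e7 := big (n := 2); simp [ht] at e7; done)
    · exfalso
      rcases r3_mem h with m3 | m3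
      · obtain ⟨A, hA, hx⟩ := r3_comps m3
        rw [hb', List.mem_append, List.mem_singleton] at hA
        refine k3 A hx ?_
        rw [← e4.2]
        rcases hA with hA | hA <;> simp [hA]
      · obtain ⟨A, hA, hx⟩ := r3_comps m3
        rw [hs1, List.mem_append, List.mem_singleton] at hA
        rcases hA with hA | hA
        · exact k3 A hx (by rw [← e4.2]; simp [hA])
        · rw [hA, e4.1] at hx
          exact kp hx
    · exfalso
      rcases r3_mem h with m3 | m3
      · obtain ⟨A, hA, hx⟩ := r3_comps m3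
        rw [hb', List.mem_append, List.mem_singleton] at hA
        rcases hA with hA | hA
        · exact k3 A hx (by rw [← e4.2]; simp [hA])
        · rw [hA, e4.1] at hx
          exact kp hx
      · exact k3 _ (k4 m3) (by rw [← e4.2]; simp)
    · refine ⟨e4.1, comps_inj ?_⟩
      have e5 : (BinaryTree.nil :: BinaryTree.nil :: comps S) ++ [B] = comps U ++ [pc (c + 3)] := e0
      exact (snoc_inj e5).1.symm


theorem cr2 (h : A0D 0 R B S) {i c : ℕ} (hi : i < 20) (hU : c + 4 ≤ ht U)
    (hp : ∀ x ∈ cont U, x = 1 ∨ c + 4 ≤ x)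
    (e : rl R B S i = pc (c + 2) :: .nil :: comps U) : B = pc (c + 3) ∧ U = .nil △ (.nil △ S) := by
  obtain ⟨⟨r, R1, R2, r', hr, hr', hr0, hr0'⟩, ⟨s0, S1, S2, s1, hs', hs1, hs0, hs0'⟩, hB⟩ := h.dat
  have hr1 := lo_ne_nil hr0
  have hr1' := lo_ne_nil hr0'
  have hs2 := lo_ne_nil hs0
  have hs2' := lo_ne_nil hs0'
  have e2 : lp 2 = .nil △ (.nil △ .nil) := rfl
  have p1 : pc 1 = .nil △ .nil := rfl
  have p2 : pc 2 = (.nil △ .nil) △ .nil := rfl
  have pp : pc (c + 2) = (pc c △ .nil) △ .nil := rfl
  have bigf : ∀ {n : ℕ}, (∀ A ∈ comps U, ht A + 1 ≤ n) → c + 4 ≤ n := fun hh =>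
    hU.trans (r3_low hh)
  have R0 := h.R_ne
  have S0 := h.S_ne
  have u1 : U ≠ .nil := by rintro rfl; rw [ht] at hU; omega
  have u2 : comps U ≠ [] := comps_ne u1
  have c8 : ∀ Y : BinaryTree Unit, app Y (.nil △ (.nil △ .nil)) ≠ .nil := by
    intro Y
    cases Y <;> simp [app]
  have c9 : ∀ Y : BinaryTree Unit, app S (Y △ .nil) ≠ .nil := by
    intro Y
    exact app_ne' (by simp)
  have len : ∀ {a b : List (BinaryTree Unit)}, a = b → a.length = b.length := fun e => by rw [e]
  have big : ∀ {n : ℕ}, (∀ A ∈ (comps U).reverse, ht A + 1 ≤ n) → c + 4 ≤ n := fun hh =>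
    hU.trans (r3_low (fun A hA => hh A (List.mem_reverse.2 hA)))
  have b1 : (BinaryTree.nil △ BinaryTree.nil : BinaryTree Unit) ∈ (comps U).reverse → False := by
    intro hh
    have h2 : 2 ∈ cont U := mem_comps (List.mem_reverse.1 hh) (by
      change 2 ∈ raise (cont (pc 1)); rw [raise_pc]; exact Multiset.mem_singleton_self _)
    have := hp 2 h2
    omega
  have b2 : ((BinaryTree.nil △ BinaryTree.nil) △ BinaryTree.nil : BinaryTree Unit) ∈ (comps U).reverse → False := by
    intro hh
    have h2 : 3 ∈ cont U := mem_comps (List.mem_reverse.1 hh) (by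
      change 3 ∈ raise (cont (pc 2)); rw [raise_pc]; exact Multiset.mem_singleton_self _)
    have := hp 3 h2
    omega
  have b3 : (BinaryTree.nil △ (BinaryTree.nil △ BinaryTree.nil) : BinaryTree Unit) ∈ (comps U).reverse → False := by
    intro hh
    have h2 : 2 ∈ cont U := mem_comps (List.mem_reverse.1 hh) (by decide)
    have := hp 2 h2
    omega
  have b4 : 3 ∉ cont U := by
    intro h2
    have := hp 3 h2
    omega
  have nR : ∀ a ∈ comps R, a ≠ .nil := fun a ha => lo_ne_nil (h.hv.all a ha)
  have nB : ∀ a ∈ comps B, a ≠ .nil := fun a ha => lo_ne_nil (h.hvB.all a ha)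
  have nS : ∀ a ∈ comps S, a ≠ .nil := fun a ha => lo_ne_nil (h.hvS.all a ha)
  have k3 : ∀ A, 3 ∈ raise (cont A) → A ∈ (comps U).reverse → False := fun A h1 h2 =>
    b4 (mem_comps (List.mem_reverse.1 h2) h1)
  have kp : 3 ∉ raise (cont (pc (c + 3))) := by
    rw [raise_pc, Multiset.mem_singleton]
    omega
  have k4 : 3 ∈ cont S → 3 ∈ raise (cont (.nil △ (.nil △ S))) := by
    intro hh
    have h5 : 3 ∈ cont (.nil △ (.nil △ S)) := by
      rw [cont_node, cont_node, Multiset.mem_add, Multiset.mem_add]
      exact Or.inr (Or.inr hh)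
    apply mem_raise h5
    rw [← OddHC.ht_eq]
    have h6 := h.topSr3
    simp only [ht]
    omega
  have e4 := congrArg List.reverse e
  have e0 := e
  rcases hB with hB | ⟨b, B1, B2, b', hBn, hb, hb', hb0, hb0'⟩
  · subst hB
    have m3 : 3 ∈ cont S := by
      rcases r3_mem h with hh | hh
      · exact absurd hh (by rw [cont_nil]; simp)
      · exact hh
    interval_cases i <;>
      simp [rl, hr', hs1, comps, hr1', hs2', R0, S0, p1, p2, e2, u1, u1.symm, u2, u2.symm, c8, c9, pp] at e4 <;>
      simp [rl, hr, hs', comps, hr1, hs2, R0, S0, p1, p2, e2, u1, u1.symm, u2, u2.symm, c8, c9, pp] at e <;>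
      simp only [rl] at e0
    all_goals try (exfalso; rw [← e.1] at hU; simp [ht] at hU; done)
    all_goals try (exfalso; have e7 := len e.2; simp at e7; done)
    all_goals try (exfalso; have e7 := len e.2; simp at e7; omega)
    all_goals try (exfalso; have e7 := len e4.2; simp at e7; done)
    all_goals try (exfalso; have e7 := len e4.2; simp at e7; omega)
    all_goals try (exfalso; have e7 := congrArg comps e4.1; rw [comps_app] at e7; have e8 := len e7; simp [comps] at e8; done)
    all_goals try (exfalso; refine b1 ?_; rw [← e4.2]; simp; done)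
    all_goals try (exfalso; refine b2 ?_; rw [← e4.2]; simp; done)
    all_goals try (exfalso; refine b3 ?_; rw [← e4.2]; simp; done)
    all_goals try (exfalso; rw [← e4.2] at big; have e7 := big (n := 2); simp [ht] at e7; done)
    all_goals try (exfalso; rcases R1 with _ | ⟨a, R1⟩ <;> simp at e; done)
    all_goals try (exfalso; rcases S1 with _ | ⟨a, S1⟩ <;> simp at e; done)
    all_goals try (exfalso; rcases R1 with _ | ⟨a, R1⟩ <;> simp at e <;> exact nR a (by rw [hr]; simp) e.2.1)
    all_goals try (exfalso; rcases S1 with _ | ⟨a, S1⟩ <;> simp [app] at e <;> exact nS a (by rw [hs']; simp) e.2.1)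
    all_goals try (exfalso; rw [← e.2] at bigf; have e7 := bigf (n := 2); simp [ht] at e7; done)
    · exfalso
      rcases R1 with _ | ⟨a, R1⟩
      · simp at e
        rw [← e.2] at bigf
        have e7 := bigf (n := 2)
        simp [ht] at e7
      · simp at e
        exact nR a (by rw [hr]; simp) e.2.1
    · exfalso
      rcases S1 with _ | ⟨a, S1⟩
      · simp at e
        rw [← e.2] at bigf
        have e7 := bigf (n := 2)
        simp [ht] at e7
      · simp at e
        exact nS a (by rw [hs']; simp) e.2.1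

  · have hb1 := lo_ne_nil hb0
    have hb1' := lo_ne_nil hb0'
    interval_cases i <;>
      simp [rl, hr', hs1, hb', comps, hr1', hs2', hb1', R0, S0, p1, p2, e2, u1, u1.symm, u2, u2.symm, c8, c9, pp] at e4 <;>
      simp [rl, hr, hs', hb, comps, hr1, hs2, hb1, R0, S0, p1, p2, e2, u1, u1.symm, u2, u2.symm, c8, c9, pp] at e <;>
      simp only [rl] at e0
    all_goals try (exfalso; rw [← e.1] at hU; simp [ht] at hU; done)
    all_goals try (exfalso; have e7 := len e.2; simp at e7; done)
    all_goals try (exfalso; have e7 := len e.2; simp at e7; omega)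
    all_goals try (exfalso; have e7 := len e4.2; simp at e7; done)
    all_goals try (exfalso; have e7 := len e4.2; simp at e7; omega)
    all_goals try (exfalso; have e7 := congrArg comps e4.1; rw [comps_app] at e7; have e8 := len e7; simp [comps] at e8; done)
    all_goals try (exfalso; refine b1 ?_; rw [← e4.2]; simp; done)
    all_goals try (exfalso; refine b2 ?_; rw [← e4.2]; simp; done)
    all_goals try (exfalso; refine b3 ?_; rw [← e4.2]; simp; done)
    all_goals try (exfalso; rw [← e4.2] at big; have e7 := big (n := 2); simp [ht] at e7; done)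
    all_goals try (exfalso; rcases R1 with _ | ⟨a, R1⟩ <;> simp at e; done)
    all_goals try (exfalso; rcases S1 with _ | ⟨a, S1⟩ <;> simp at e; done)
    all_goals try (exfalso; rcases R1 with _ | ⟨a, R1⟩ <;> simp at e <;> exact nR a (by rw [hr]; simp) e.2.1)
    all_goals try (exfalso; rcases S1 with _ | ⟨a, S1⟩ <;> simp [app] at e <;> exact nS a (by rw [hs']; simp) e.2.1)
    all_goals try (exfalso; rw [← e.2] at bigf; have e7 := bigf (n := 2); simp [ht] at e7; done)
    · exfalso
      rcases R1 with _ | ⟨a, R1⟩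
      · simp at e
        rw [← e.2] at bigf
        have e7 := bigf (n := 2)
        simp [ht] at e7
      · simp at e
        exact nR a (by rw [hr]; simp) e.2.1
    · exfalso
      rcases B1 with _ | ⟨a, B1⟩
      · simp at e
      · simp at e
        exact nB a (by rw [hb]; simp) e.2.1
    · rcases B1 with _ | ⟨a, B1⟩
      · simp at e
        refine ⟨comps_inj (by rw [hb, e.1]; rfl), comps_inj ?_⟩
        rw [← e.2, ← hs']
        rfl
      · exfalso
        simp at e
        exact nB a (by rw [hb]; simp) e.2.1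
    · exfalso
      rcases S1 with _ | ⟨a, S1⟩
      · simp at e
        exact c8 B e.2.1
      · simp at e
        exact nS a (by rw [hs']; simp) e.2.1
    · exfalso
      rcases S1 with _ | ⟨a, S1⟩
      · simp at e
        exact hBn e.2.1
      · simp at e
        exact nS a (by rw [hs']; simp) e.2.1


end Pool.OddHC
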